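import Mathlib

/-!
# The edge `q = 1` of region `R_2`: projection matrices
-/

set_option linter.unusedSectionVars false

open Finset

namespace Pool.Agent.MP_bc5265.E1

noncomputable section

/-- The orthogonal projection onto the orthogonal complement of the rows of `Z`. -/
theorem exists_proj {I J : Type} [Fintype I] [DecidableEq I] [Fintype J] (Z : J → I → ℝ) :
    ∃ P : I → I → ℝ, (∀ i k, P i k = P k i) ∧ (∀ i k, ∑ l, P i l * P l k = P i k) ∧
      (∀ j k, ∑ i, Z j i * P i k = 0) ∧
      (Fintype.card I : ℝ) - Fintype.card J ≤ ∑ i, P i i := by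
  classical
  let V : Submodule ℝ (EuclideanSpace ℝ I) :=
    Submodule.span ℝ (Set.range fun j => (WithLp.toLp 2 (Z j) : EuclideanSpace ℝ I))
  let b := stdOrthonormalBasis ℝ Vᗮ
  have hb : ∀ t t', ∑ i, (b t : EuclideanSpace ℝ I) i * (b t' : EuclideanSpace ℝ I) i =
      if t = t' then 1 else 0 := by
    intro t t'
    have h := orthonormal_iff_ite.1 b.orthonormal t t'
    rw [← h]
    rw [Submodule.coe_inner, PiLp.inner_apply]
    refine Finset.sum_congr rfl fun i _ => ?_
    simp [mul_comm]
  refine ⟨fun i k => ∑ t, (b t : EuclideanSpace ℝ I) i * (b t : EuclideanSpace ℝ I) k, ?_, ?_, ?_,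
    ?_⟩
  · intro i k
    exact Finset.sum_congr rfl fun t _ => mul_comm _ _
  · intro i k
    have h1 : ∀ l, (∑ t, (b t : EuclideanSpace ℝ I) i * (b t : EuclideanSpace ℝ I) l) *
        (∑ t, (b t : EuclideanSpace ℝ I) l * (b t : EuclideanSpace ℝ I) k) =
        ∑ t, ∑ t', (b t : EuclideanSpace ℝ I) i * (b t' : EuclideanSpace ℝ I) k *
          ((b t : EuclideanSpace ℝ I) l * (b t' : EuclideanSpace ℝ I) l) := by
      intro l
      rw [Finset.sum_mul_sum]
      refine Finset.sum_congr rfl fun t _ => Finset.sum_congr rfl fun t' _ => ?_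
      ring
    simp only [h1]
    rw [Finset.sum_comm]
    refine Finset.sum_congr rfl fun t _ => ?_
    rw [Finset.sum_comm]
    simp only [← Finset.mul_sum, hb]
    simp
  · intro j k
    simp only [Finset.mul_sum]
    rw [Finset.sum_comm]
    refine Finset.sum_eq_zero fun t _ => ?_
    have h1 : inner ℝ (WithLp.toLp 2 (Z j) : EuclideanSpace ℝ I) (b t : EuclideanSpace ℝ I) = 0 := by
      have h2 := (b t).2
      rw [Submodule.mem_orthogonal] at h2
      exact h2 _ (Submodule.subset_span ⟨j, rfl⟩)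
    rw [PiLp.inner_apply] at h1
    have h3 : ∑ i, Z j i * (b t : EuclideanSpace ℝ I) i = 0 := by
      rw [← h1]
      refine Finset.sum_congr rfl fun i _ => ?_
      simp [mul_comm]
    calc ∑ i, Z j i * ((b t : EuclideanSpace ℝ I) i * (b t : EuclideanSpace ℝ I) k)
        = (∑ i, Z j i * (b t : EuclideanSpace ℝ I) i) * (b t : EuclideanSpace ℝ I) k := by
          rw [Finset.sum_mul]
          exact Finset.sum_congr rfl fun i _ => by ring
      _ = 0 := by rw [h3, zero_mul]
  · rw [Finset.sum_comm]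
    have h1 : ∀ t, ∑ i, (b t : EuclideanSpace ℝ I) i * (b t : EuclideanSpace ℝ I) i = 1 := by
      intro t
      rw [hb t t, if_pos rfl]
    simp only [h1, Finset.sum_const, Finset.card_univ, Fintype.card_fin, nsmul_eq_mul, mul_one]
    have h2 := V.finrank_add_finrank_orthogonal
    rw [finrank_euclideanSpace] at h2
    have h3 : Module.finrank ℝ V ≤ Fintype.card J := by
      have := finrank_range_le_card (R := ℝ)
        (fun j => (WithLp.toLp 2 (Z j) : EuclideanSpace ℝ I))
      exact this
    have h4 : (Fintype.card I : ℝ) = Module.finrank ℝ V + Module.finrank ℝ Vᗮ := by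
      exact_mod_cast h2.symm
    have h5 : (Module.finrank ℝ V : ℝ) ≤ Fintype.card J := by exact_mod_cast h3
    linarith

section

variable {I : Type} [Fintype I] (P : I → I → ℝ) (hs : ∀ i k, P i k = P k i)
  (hi : ∀ i k, ∑ l, P i l * P l k = P i k)

include hs hi

theorem row_sq (i : I) : ∑ l, P i l ^ 2 = P i i := by
  rw [← hi i i]
  refine Finset.sum_congr rfl fun l _ => ?_
  rw [hs l i, sq]

theorem diag_nonneg (i : I) : 0 ≤ P i i := by
  rw [← row_sq P hs hi i]
  exact Finset.sum_nonneg fun l _ => sq_nonneg _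

theorem diag_le_one (i : I) : P i i ≤ 1 := by
  have h1 : P i i ^ 2 ≤ P i i := by
    conv_rhs => rw [← row_sq P hs hi i]
    exact Finset.single_le_sum (f := fun l => P i l ^ 2) (fun l _ => sq_nonneg _)
      (Finset.mem_univ i)
  nlinarith [diag_nonneg P hs hi i]

/-- the projection is a contraction -/
theorem proj_contr (h : I → ℝ) : ∑ i, (∑ l, P i l * h l) ^ 2 ≤ ∑ i, h i ^ 2 := by
  have h1 : ∑ i, (∑ l, P i l * h l) ^ 2 = ∑ i, h i * ∑ l, P i l * h l := by
    have h2 : ∀ i, (∑ l, P i l * h l) ^ 2 = ∑ l, ∑ l', h l * h l' * (P l i * P i l') := by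
      intro i
      rw [sq, Finset.sum_mul_sum]
      refine Finset.sum_congr rfl fun l _ => Finset.sum_congr rfl fun l' _ => ?_
      rw [hs l i]
      ring
    simp only [h2]
    rw [Finset.sum_comm]
    refine Finset.sum_congr rfl fun l _ => ?_
    rw [Finset.sum_comm, Finset.mul_sum]
    refine Finset.sum_congr rfl fun l' _ => ?_
    rw [← Finset.mul_sum, hi l l']
    ring
  have h3 : 0 ≤ ∑ i, (h i - ∑ l, P i l * h l) ^ 2 := Finset.sum_nonneg fun i _ => sq_nonneg _
  have h4 : ∑ i, (h i - ∑ l, P i l * h l) ^ 2 = ∑ i, h i ^ 2 - 2 * (∑ i, h i * ∑ l, P i l * h l) +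
      ∑ i, (∑ l, P i l * h l) ^ 2 := by
    rw [Finset.mul_sum, ← Finset.sum_sub_distrib, ← Finset.sum_add_distrib]
    refine Finset.sum_congr rfl fun i _ => ?_
    ring
  linarith

end

end

end Pool.Agent.MP_bc5265.E1
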