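import Pool.Agent.Lib.MP_bc5265_an.E1.Dec
import Pool.Agent.Lib.MP_bc5265_an.E1.Prj

/-!
# The edge `q = 1` of region `R_2`: the abstract lower bound

`w_i = φ_i - ∑_j Z_ji ψ_j` (errors of the test functions), `h_i` biorthogonal to the `φ_i`.
-/

set_option linter.unusedSectionVars false

open Finset MeasureTheory

namespace Pool.Agent.MP_bc5265.E1

open Pool.Agent.MP_bc5265

noncomputable section

section

variable {Γ : Type} [Fintype Γ] [DecidableEq Γ] {X : Type} [MeasurableSpace X] (μ : Measure X)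
  {k : ℕ}

theorem Mf_nonneg (w : Γ → Fin k → ℝ) : 0 ≤ Mf k w := by
  unfold Mf
  positivity

theorem integrable_term (w : Γ → Fin k → X → ℝ) (hw : ∀ γ x, Integrable (w γ x) μ)
    (ξ : Γ → Fin k) (ε : Γ → Bool) :
    Integrable (fun y => |∑ γ, sg (ε γ) * w γ (ξ γ) y|) μ :=
  (integrable_finsetSum _ fun γ _ => (hw γ (ξ γ)).const_mul _).abs

theorem integrable_Mf (w : Γ → Fin k → X → ℝ) (hw : ∀ γ x, Integrable (w γ x) μ) :
    Integrable (fun y => Mf k fun γ x => w γ x y) μ := by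
  unfold Mf
  refine Integrable.div_const ?_ _
  exact integrable_finsetSum _ fun ξ _ => integrable_finsetSum _ fun ε _ =>
    integrable_term μ w hw ξ ε

/-- One choice is at least as good as the average. -/
theorem exists_choice (hk : 1 ≤ k) (w : Γ → Fin k → X → ℝ) (hw : ∀ γ x, Integrable (w γ x) μ) :
    ∃ (ξ : Γ → Fin k) (ε : Γ → Bool), ∫ y, Mf k (fun γ x => w γ x y) ∂μ ≤
      ∫ y, |∑ γ, sg (ε γ) * w γ (ξ γ) y| ∂μ := by
  have hk0 : (0 : ℝ) < k := by exact_mod_cast hk
  have hne : Nonempty (Fin k) := ⟨⟨0, hk⟩⟩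
  by_contra hcon
  push Not at hcon
  have h1 : ∫ y, Mf k (fun γ x => w γ x y) ∂μ =
      (∑ ξ : Γ → Fin k, ∑ ε : Γ → Bool, ∫ y, |∑ γ, sg (ε γ) * w γ (ξ γ) y| ∂μ) /
        ((k : ℝ) ^ Fintype.card Γ * 2 ^ Fintype.card Γ) := by
    unfold Mf
    rw [integral_div, integral_finsetSum]
    · congr 1
      refine Finset.sum_congr rfl fun ξ _ => ?_
      rw [integral_finsetSum]
      exact fun ε _ => integrable_term μ w hw ξ ε
    · exact fun ξ _ => integrable_finsetSum _ fun ε _ => integrable_term μ w hw ξ ε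
  have h2 : ∑ ξ : Γ → Fin k, ∑ ε : Γ → Bool, ∫ y, |∑ γ, sg (ε γ) * w γ (ξ γ) y| ∂μ <
      ∑ _ξ : Γ → Fin k, ∑ _ε : Γ → Bool, ∫ y, Mf k (fun γ x => w γ x y) ∂μ :=
    Finset.sum_lt_sum_of_nonempty Finset.univ_nonempty fun ξ _ =>
      Finset.sum_lt_sum_of_nonempty Finset.univ_nonempty fun ε _ => hcon ξ ε
  simp only [Finset.sum_const, Finset.card_univ, Fintype.card_fun, Fintype.card_fin,
    Fintype.card_bool, nsmul_eq_mul] at h2
  push_cast at h2
  have h3 : (0 : ℝ) < (k : ℝ) ^ Fintype.card Γ * 2 ^ Fintype.card Γ := by positivity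
  rw [h1, ← mul_assoc, mul_div_cancel₀ _ h3.ne'] at h2
  exact lt_irrefl _ h2

end

/-- The abstract lower bound. -/
theorem abstract_q1 {I J Γ X : Type} [Fintype I] [DecidableEq I] [Fintype J] [Fintype Γ]
    [DecidableEq Γ] [MeasurableSpace X] (μ : Measure X) [IsProbabilityMeasure μ] {k : ℕ}
    (e : I ≃ Γ × Fin k) (φ h : I → X → ℝ) (ψ : J → X → ℝ) (Z : J → I → ℝ)
    {κ C N K Q Θ : ℝ} (hκ : 0 < κ) (hC : 0 < C) (hN : 0 < N) (hK : 0 < K) (hQ : 2 < Q)
    (hKk : K ≤ k) (hkK : (k : ℝ) ≤ 2 * K) (hI : (Fintype.card I : ℝ) = K * N)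
    (hJ : 4 * (Fintype.card J : ℝ) ≤ K * N)
    (hφi : ∀ i, Integrable (φ i) μ) (hψi : ∀ j, Integrable (ψ j) μ)
    (hhm : ∀ i, Measurable (h i)) (hh1 : ∀ i x, |h i x| ≤ 1)
    (hφ2 : ∀ x, ∑ i, φ i x ^ 2 ≤ K) (hh2 : ∀ x, ∑ i, h i x ^ 2 ≤ K)
    (horth : ∀ i i', ∫ x, φ i' x * h i x ∂μ = if i = i' then κ / N else 0)
    (hLP : ∀ a : I → ℝ, ∫ x, |∑ i, a i * h i x| ^ Q ∂μ ≤
      C * (∑ i, a i ^ 2) ^ (Q / 2 - 1) * ((∑ i, a i ^ 2) / N))
    (hΘ : 0 < Θ) (hΘQ : Θ ^ Q = 4 * C * K / κ) :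
    κ / (128 * Real.sqrt (4 + Θ ^ 2)) ≤
      ∫ y, Mf k (fun γ x => φ (e.symm (γ, x)) y - ∑ j, Z j (e.symm (γ, x)) * ψ j y) ∂μ := by
  classical
  obtain ⟨P, hPs, hPi, hPZ, hPt⟩ := exists_proj Z
  have hQ0 : 0 < Q := by linarith
  have hk0 : (0 : ℝ) < k := by linarith
  have hk1 : 1 ≤ k := by
    have : 0 < k := by exact_mod_cast hk0
    exact this
  set R : ℝ := Real.sqrt (4 + Θ ^ 2) with hR
  have hR0 : 0 < R := by rw [hR]; positivity
  let w : I → X → ℝ := fun i y => φ i y - ∑ j, Z j i * ψ j y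
  let g : I → X → ℝ := fun l y => ∑ i, P l i * h i y
  have hwi : ∀ i, Integrable (w i) μ := fun i =>
    (hφi i).sub (integrable_finsetSum _ fun j _ => (hψi j).const_mul _)
  have hgm : ∀ l, Measurable (g l) := fun l =>
    Finset.measurable_sum _ fun i _ => (hhm i).const_mul _
  have hgb : ∀ l y, |g l y| ≤ ∑ i, |P l i| := by
    intro l y
    refine (Finset.abs_sum_le_sum_abs _ _).trans (Finset.sum_le_sum fun i _ => ?_)
    rw [abs_mul]
    exact mul_le_of_le_one_right (abs_nonneg _) (hh1 i y)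
  have hMi : Integrable (fun y => Mf k fun γ x => w (e.symm (γ, x)) y) μ :=
    integrable_Mf μ (fun γ x => w (e.symm (γ, x))) fun γ x => hwi _
  -- the pairing does not see the information
  have hpair : ∀ y, ∑ l, w l y * g l y = ∑ l, φ l y * g l y := by
    intro y
    have h1 : ∑ l, (∑ j, Z j l * ψ j y) * g l y = 0 := by
      have h2 : ∀ l, (∑ j, Z j l * ψ j y) * g l y =
          ∑ j, ∑ i, ψ j y * h i y * (Z j l * P l i) := by
        intro l
        rw [Finset.sum_mul_sum]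
        refine Finset.sum_congr rfl fun j _ => Finset.sum_congr rfl fun i _ => ?_
        ring
      simp only [h2]
      rw [Finset.sum_comm]
      refine Finset.sum_eq_zero fun j _ => ?_
      rw [Finset.sum_comm]
      refine Finset.sum_eq_zero fun i _ => ?_
      rw [← Finset.mul_sum, hPZ j i, mul_zero]
    have h3 : ∀ l, w l y * g l y = φ l y * g l y - (∑ j, Z j l * ψ j y) * g l y := by
      intro l
      simp only [w]
      ring
    simp only [h3, Finset.sum_sub_distrib]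
    rw [h1, sub_zero]
  have hg2 : ∀ y, ∑ l, g l y ^ 2 ≤ K := fun y =>
    (proj_contr P hPs hPi (fun i => h i y)).trans (hh2 y)
  -- pointwise estimate
  have hpt : ∀ y, ∑ l, φ l y * g l y ≤
      32 * k * R * Mf k (fun γ x => w (e.symm (γ, x)) y) +
        K * (∑ l, |g l y| ^ Q) / Θ ^ Q := by
    intro y
    have hsum0 : 0 ≤ ∑ l, |g l y| ^ Q :=
      Finset.sum_nonneg fun l _ => Real.rpow_nonneg (abs_nonneg _) _
    have hΘQ0 : 0 < Θ ^ Q := Real.rpow_pos_of_pos hΘ _
    by_cases hall : ∀ l, |g l y| ≤ Θ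
    · have h1 := decoupling k hk1 (fun γ x => w (e.symm (γ, x)) y)
        (fun γ x => g (e.symm (γ, x)) y) Θ
        (by
          have h2 : ∑ γ, ∑ x, g (e.symm (γ, x)) y ^ 2 = ∑ l, g l y ^ 2 := by
            rw [← Fintype.sum_prod_type' (fun γ x => g (e.symm (γ, x)) y ^ 2)]
            exact Equiv.sum_comp e.symm fun l => g l y ^ 2
          rw [h2]
          exact (hg2 y).trans hKk)
        (fun γ x => hall _)
      rw [← hpair y]
      have h3 : ∑ l, w l y * g l y ≤
          ∑ γ, ∑ x, |w (e.symm (γ, x)) y * g (e.symm (γ, x)) y| := by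
        rw [← Fintype.sum_prod_type' (fun γ x => |w (e.symm (γ, x)) y * g (e.symm (γ, x)) y|)]
        have h4 := Equiv.sum_comp e.symm fun l => |w l y * g l y|
        refine le_trans (Finset.sum_le_sum fun l _ => le_abs_self _) (le_of_eq h4.symm)
      have h5 : 0 ≤ K * (∑ l, |g l y| ^ Q) / Θ ^ Q := by positivity
      linarith
    · push Not at hall
      obtain ⟨l0, hl0⟩ := hall
      have h1 : 1 ≤ (∑ l, |g l y| ^ Q) / Θ ^ Q := by
        rw [le_div_iff₀ hΘQ0, one_mul]
        refine le_trans (Real.rpow_le_rpow hΘ.le hl0.le hQ0.le) ?_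
        exact Finset.single_le_sum (f := fun l => |g l y| ^ Q)
          (fun l _ => Real.rpow_nonneg (abs_nonneg _) _) (Finset.mem_univ l0)
      have h2 : ∑ l, φ l y * g l y ≤ K := by
        have h3 := Finset.sum_mul_sq_le_sq_mul_sq univ (fun l => φ l y) (fun l => g l y)
        have h4 : (∑ l, φ l y * g l y) ^ 2 ≤ K ^ 2 := by
          refine h3.trans ?_
          rw [sq K]
          exact mul_le_mul (hφ2 y) (hg2 y) (Finset.sum_nonneg fun l _ => sq_nonneg _) hK.le
        exact le_of_sq_le_sq h4 hK.le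
      have h5 : K * 1 ≤ K * ((∑ l, |g l y| ^ Q) / Θ ^ Q) := mul_le_mul_of_nonneg_left h1 hK.le
      have h6 : 0 ≤ 32 * k * R * Mf k (fun γ x => w (e.symm (γ, x)) y) :=
        mul_nonneg (by positivity) (Mf_nonneg _)
      rw [mul_div_assoc]
      linarith
  -- integrals
  have hgQi : ∀ l, Integrable (fun y => |g l y| ^ Q) μ := by
    intro l
    refine Integrable.of_bound (C := (∑ i, |P l i|) ^ Q)
      ((hgm l).abs.pow_const _).aestronglyMeasurable ?_
    filter_upwards with y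
    rw [Real.norm_of_nonneg (Real.rpow_nonneg (abs_nonneg _) _)]
    exact Real.rpow_le_rpow (abs_nonneg _) (hgb l y) hQ0.le
  have hφgi : ∀ l i, Integrable (fun y => φ l y * h i y) μ := by
    intro l i
    refine (hφi l).mul_bdd (c := 1) (hhm i).aestronglyMeasurable ?_
    filter_upwards with y
    simpa using hh1 i y
  have hleft : ∫ y, ∑ l, φ l y * g l y ∂μ = (∑ l, P l l) * (κ / N) := by
    have h1 : ∀ y, ∑ l, φ l y * g l y = ∑ l, ∑ i, P l i * (φ l y * h i y) := by
      intro y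
      refine Finset.sum_congr rfl fun l _ => ?_
      simp only [g]
      rw [Finset.mul_sum]
      refine Finset.sum_congr rfl fun i _ => ?_
      ring
    simp only [h1]
    rw [integral_finsetSum, Finset.sum_mul]
    · refine Finset.sum_congr rfl fun l _ => ?_
      rw [integral_finsetSum]
      · simp only [integral_const_mul, horth]
        rw [Finset.sum_eq_single l]
        · rw [if_pos rfl]
        · intro i _ hi
          rw [if_neg hi, mul_zero]
        · intro hne
          exact absurd (Finset.mem_univ _) hne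
      · exact fun i _ => (hφgi l i).const_mul _
    · exact fun l _ => integrable_finsetSum _ fun i _ => (hφgi l i).const_mul _
  have hright : ∫ y, (32 * k * R * Mf k (fun γ x => w (e.symm (γ, x)) y) +
        K * (∑ l, |g l y| ^ Q) / Θ ^ Q) ∂μ =
      32 * k * R * (∫ y, Mf k (fun γ x => w (e.symm (γ, x)) y) ∂μ) +
        K * (∑ l, ∫ y, |g l y| ^ Q ∂μ) / Θ ^ Q := by
    rw [integral_add, integral_const_mul, integral_div, integral_const_mul, integral_finsetSum]
    · exact fun l _ => hgQi l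
    · exact hMi.const_mul _
    · exact ((integrable_finsetSum _ fun l _ => hgQi l).const_mul _).div_const _
  have hmain : ∫ y, ∑ l, φ l y * g l y ∂μ ≤
      ∫ y, (32 * k * R * Mf k (fun γ x => w (e.symm (γ, x)) y) +
        K * (∑ l, |g l y| ^ Q) / Θ ^ Q) ∂μ := by
    refine integral_mono ?_ ?_ hpt
    · refine integrable_finsetSum _ fun l _ => ?_
      refine (hφi l).mul_bdd (c := ∑ i, |P l i|) (hgm l).aestronglyMeasurable ?_
      filter_upwards with y
      simpa using hgb l y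
    · exact (hMi.const_mul _).add
        (((integrable_finsetSum _ fun l _ => hgQi l).const_mul _).div_const _)
  rw [hleft, hright] at hmain
  have hbad : ∑ l, ∫ y, |g l y| ^ Q ∂μ ≤ C * K := by
    have h1 : ∀ l, ∫ y, |g l y| ^ Q ∂μ ≤ C / N := by
      intro l
      have h2 := hLP (P l)
      rw [row_sq P hPs hPi l] at h2
      have h3 := diag_nonneg P hPs hPi l
      have h4 := diag_le_one P hPs hPi l
      refine h2.trans ?_
      have h5 : P l l ^ (Q / 2 - 1) ≤ 1 := Real.rpow_le_one h3 h4 (by linarith)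
      have h6 : 0 ≤ P l l ^ (Q / 2 - 1) := Real.rpow_nonneg h3 _
      have h7 : P l l / N ≤ 1 / N := div_le_div_of_nonneg_right h4 hN.le
      calc C * P l l ^ (Q / 2 - 1) * (P l l / N) ≤ C * 1 * (1 / N) := by
            refine mul_le_mul (mul_le_mul_of_nonneg_left h5 hC.le) h7 (by positivity)
              (by positivity)
        _ = C / N := by ring
    calc ∑ l, ∫ y, |g l y| ^ Q ∂μ ≤ ∑ _l : I, C / N := Finset.sum_le_sum fun l _ => h1 l
      _ = C * K := by
        rw [Finset.sum_const, Finset.card_univ, nsmul_eq_mul, hI]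
        field_simp
  have htr : 3 / 4 * (K * N) ≤ ∑ l, P l l := by
    rw [hI] at hPt
    linarith
  have hfin1 : 3 / 4 * κ * K ≤ (∑ l, P l l) * (κ / N) := by
    have h1 := mul_le_mul_of_nonneg_right htr (by positivity : 0 ≤ κ / N)
    have h2 : 3 / 4 * (K * N) * (κ / N) = 3 / 4 * κ * K := by field_simp
    linarith
  have hfin2 : K * (∑ l, ∫ y, |g l y| ^ Q ∂μ) / Θ ^ Q ≤ κ * K / 4 := by
    rw [hΘQ]
    have h1 : K * (∑ l, ∫ y, |g l y| ^ Q ∂μ) ≤ K * (C * K) := mul_le_mul_of_nonneg_left hbad hK.le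
    calc K * (∑ l, ∫ y, |g l y| ^ Q ∂μ) / (4 * C * K / κ) ≤ K * (C * K) / (4 * C * K / κ) :=
          div_le_div_of_nonneg_right h1 (by positivity)
      _ = κ * K / 4 := by field_simp
  set M : ℝ := ∫ y, Mf k (fun γ x => w (e.symm (γ, x)) y) ∂μ with hM
  have hM0 : 0 ≤ M := integral_nonneg fun y => Mf_nonneg _
  have hfin3 : 32 * k * R * M ≤ 64 * K * R * M := by
    have h1 := mul_le_mul_of_nonneg_right hkK (mul_nonneg hR0.le hM0)
    nlinarith
  have hfin4 : κ / 2 * K ≤ 64 * R * M * K := by nlinarith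
  have hfin5 : κ / 2 ≤ 64 * R * M := le_of_mul_le_mul_right hfin4 hK
  show κ / (128 * R) ≤ M
  rw [div_le_iff₀ (by positivity)]
  linarith

end

end Pool.Agent.MP_bc5265.E1
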