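import Mathlib
import Pool.Agent.Lib.MP_bc5265_an.Signs

/-!
# The edge `q = 1` of region `R_2`: most sign vectors are far from a subspace in `ℓ_1`

Sign patterns of the subspace: Sauer-Shelah lemma.
-/

set_option linter.unusedSectionVars false

open Finset

namespace Pool.Agent.MP_bc5265.E1

open Pool.Agent.MP_bc5265

variable {I J : Type} [Fintype I] [DecidableEq I] [Fintype J]

open Classical in
/-- The positivity patterns of the linear combinations of the rows of `Z`. -/
noncomputable def pat (Z : J → I → ℝ) : Finset (Finset I) :=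
  univ.filter fun A => ∃ c : J → ℝ, ∀ i, i ∈ A ↔ 0 < ∑ j, c j * Z j i

theorem vcDim_pat (Z : J → I → ℝ) : (pat Z).vcDim ≤ Fintype.card J := by
  classical
  unfold Finset.vcDim
  refine Finset.sup_le fun S hS => ?_
  rw [Finset.mem_shatterer] at hS
  by_contra hlt
  push Not at hlt
  let f : (S → ℝ) →ₗ[ℝ] (J → ℝ) :=
    { toFun := fun u j => ∑ i : S, u i * Z j i
      map_add' := by
        intro u v
        ext j
        simp [add_mul, Finset.sum_add_distrib]
      map_smul' := by
        intro c u
        ext j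
        simp [Finset.mul_sum, mul_assoc] }
  have hker : LinearMap.ker f ≠ ⊥ := by
    apply LinearMap.ker_ne_bot_of_finrank_lt
    rw [Module.finrank_fintype_fun_eq_card, Module.finrank_fintype_fun_eq_card, Fintype.card_coe]
    exact hlt
  obtain ⟨u, hu, hu0⟩ := (Submodule.ne_bot_iff _).1 hker
  have hfu : ∀ j, ∑ i : S, u i * Z j i = 0 := fun j => congrFun (LinearMap.mem_ker.1 hu) j
  -- a relation with a positive coefficient
  obtain ⟨lam, hlam, i0, hi0S, hi0⟩ : ∃ lam : I → ℝ, (∀ j, ∑ i ∈ S, lam i * Z j i = 0) ∧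
      ∃ i0 ∈ S, 0 < lam i0 := by
    obtain ⟨s0, hs0⟩ : ∃ s0, u s0 ≠ 0 := by
      by_contra hcon
      push Not at hcon
      exact hu0 (funext hcon)
    let ext : ℝ → I → ℝ := fun a i => if h : i ∈ S then a * u ⟨i, h⟩ else 0
    have hext : ∀ a j, ∑ i ∈ S, ext a i * Z j i = 0 := by
      intro a j
      rw [← Finset.sum_coe_sort S (fun i => ext a i * Z j i)]
      have h1 : ∀ i : S, ext a i * Z j i = a * (u i * Z j i) := by
        intro i
        simp only [ext, i.2, dif_pos, Subtype.coe_eta]
        ring
      simp only [h1]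
      rw [← Finset.mul_sum, hfu j, mul_zero]
    have hval : ∀ a, ext a s0 = a * u s0 := by
      intro a
      simp only [ext, s0.2, dif_pos, Subtype.coe_eta]
    rcases lt_or_gt_of_ne hs0 with h | h
    · exact ⟨ext (-1), hext (-1), s0, s0.2, by rw [hval]; linarith⟩
    · exact ⟨ext 1, hext 1, s0, s0.2, by rw [hval]; linarith⟩
  obtain ⟨A, hA, hSA⟩ := hS (show S.filter (fun i => 0 < lam i) ⊆ S from Finset.filter_subset _ _)
  unfold pat at hA
  rw [Finset.mem_filter] at hA
  obtain ⟨-, c, hc⟩ := hA
  have hmem : ∀ i ∈ S, (0 < lam i ↔ 0 < ∑ j, c j * Z j i) := by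
    intro i hi
    rw [← hc i]
    constructor
    · intro h
      have h1 : i ∈ S ∩ A := by
        rw [hSA]
        exact Finset.mem_filter.2 ⟨hi, h⟩
      exact (Finset.mem_inter.1 h1).2
    · intro h
      have h1 : i ∈ S.filter (fun i => 0 < lam i) := by
        rw [← hSA]
        exact Finset.mem_inter.2 ⟨hi, h⟩
      exact (Finset.mem_filter.1 h1).2
  have hzero : ∑ i ∈ S, lam i * ∑ j, c j * Z j i = 0 := by
    simp only [Finset.mul_sum]
    rw [Finset.sum_comm]
    refine Finset.sum_eq_zero fun j _ => ?_
    have h1 : ∀ i, lam i * (c j * Z j i) = c j * (lam i * Z j i) := fun i => by ring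
    simp only [h1]
    rw [← Finset.mul_sum, hlam j, mul_zero]
  have hpos : 0 < ∑ i ∈ S, lam i * ∑ j, c j * Z j i := by
    refine Finset.sum_pos' (fun i hi => ?_) ⟨i0, hi0S, ?_⟩
    · by_cases h : 0 < lam i
      · exact mul_nonneg h.le ((hmem i hi).1 h).le
      · have h1 : ¬ 0 < ∑ j, c j * Z j i := fun h2 => h ((hmem i hi).2 h2)
        push Not at h h1
        exact mul_nonneg_of_nonpos_of_nonpos h h1
    · exact mul_pos hi0 ((hmem i0 hi0S).1 hi0)
  linarith

theorem card_pat (Z : J → I → ℝ) :
    (pat Z).card ≤ ∑ k ∈ range (Fintype.card J + 1), (Fintype.card I).choose k := by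
  classical
  refine (Finset.card_le_card_shatterer _).trans (Finset.card_shatterer_le_sum_vcDim.trans ?_)
  refine Finset.sum_le_sum_of_subset ?_
  intro k hk
  rw [Finset.mem_Iic] at hk
  rw [Finset.mem_range]
  have := vcDim_pat Z
  omega

/-- Binomial sums. -/
theorem choose_sum (D T : ℕ) (h : 32 * T ≤ D) :
    (∑ k ∈ range (T + 1), (D.choose k : ℝ)) ^ 8 ≤ 2 ^ (2 * D) := by
  have h1 : (∑ k ∈ range (T + 1), (D.choose k : ℝ)) * (1 / 16) ^ T ≤ (17 / 16) ^ D := by
    rcases Nat.lt_or_ge D T with hlt | hge
    · omega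
    · have h2 : ((1 : ℝ) / 16 + 1) ^ D = ∑ k ∈ range (D + 1), (1 / 16 : ℝ) ^ k * D.choose k := by
        rw [add_pow]
        exact Finset.sum_congr rfl fun k _ => by rw [one_pow]; ring
      have h3 : ((17 : ℝ) / 16) ^ D = ((1 : ℝ) / 16 + 1) ^ D := by norm_num
      rw [h3, h2, Finset.sum_mul]
      refine le_trans (Finset.sum_le_sum fun k hk => ?_)
        (Finset.sum_le_sum_of_subset_of_nonneg (Finset.range_subset_range.2 (by omega : T + 1 ≤ D + 1))
          fun k _ _ => by positivity)
      rw [mul_comm]
      refine mul_le_mul_of_nonneg_right ?_ (by positivity)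
      exact pow_le_pow_of_le_one (by norm_num) (by norm_num)
        (Nat.lt_succ_iff.1 (Finset.mem_range.1 hk))
  set S : ℝ := ∑ k ∈ range (T + 1), (D.choose k : ℝ) with hS
  have hS0 : 0 ≤ S := Finset.sum_nonneg fun k _ => Nat.cast_nonneg _
  have h4 : S ≤ (17 / 16) ^ D * 16 ^ T := by
    have h5 : (1 / 16 : ℝ) ^ T * 16 ^ T = 1 := by
      rw [← mul_pow]; norm_num
    calc S = S * (1 / 16) ^ T * 16 ^ T := by rw [mul_assoc, h5, mul_one]
      _ ≤ (17 / 16) ^ D * 16 ^ T := mul_le_mul_of_nonneg_right h1 (by positivity)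
  calc S ^ 8 ≤ ((17 / 16) ^ D * 16 ^ T) ^ 8 := pow_le_pow_left₀ hS0 h4 8
    _ = (((17 : ℝ) / 16) ^ 8) ^ D * 2 ^ (32 * T) := by
        rw [mul_pow, ← pow_mul, mul_comm D 8, pow_mul]
        congr 1
        rw [show (16 : ℝ) = 2 ^ 4 by norm_num, ← pow_mul, ← pow_mul]
        congr 1
        ring
    _ ≤ 2 ^ D * 2 ^ D := by
        refine mul_le_mul ?_ ?_ (by positivity) (by positivity)
        · exact pow_le_pow_left₀ (by positivity) (by norm_num) D
        · exact pow_le_pow_right₀ (by norm_num) h
    _ = 2 ^ (2 * D) := by rw [← pow_add]; congr 1; ring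

open Classical in
/-- Most sign vectors are far from the span of the rows of `Z`. -/
theorem far (Z : J → I → ℝ) (h2 : 2 ≤ Fintype.card I)
    (h : 32 * Fintype.card J ≤ Fintype.card I) :
    2 * ((univ.filter fun X : I → Bool => ∃ c : J → ℝ,
      32 * ∑ i, |sg (X i) - ∑ j, c j * Z j i| ≤ Fintype.card I).card : ℝ) ≤
      2 ^ Fintype.card I := by
  set D := Fintype.card I with hD
  set T := D / 32 with hT
  have hT32 : 32 * T ≤ D := Nat.mul_div_le D 32
  set small : Finset (Finset I) := univ.filter fun A => A.card ≤ T with hsmall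
  have hcs : (small.card : ℝ) = ∑ k ∈ range (T + 1), (D.choose k : ℝ) := by
    have h1 : small = (range (T + 1)).biUnion fun k => Finset.powersetCard k univ := by
      ext A
      simp only [hsmall, Finset.mem_filter, Finset.mem_univ, true_and, Finset.mem_biUnion,
        Finset.mem_range, Finset.mem_powersetCard_univ]
      constructor
      · intro h3
        exact ⟨A.card, by omega, rfl⟩
      · rintro ⟨k, hk, rfl⟩
        omega
    rw [h1, Finset.card_biUnion]
    · simp only [Finset.card_powersetCard, Finset.card_univ]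
      push_cast
      rfl
    · intro k _ k' _ hne
      rw [Function.onFun, Finset.disjoint_left]
      intro A hA hA'
      rw [Finset.mem_powersetCard_univ] at hA hA'
      exact hne (hA.symm.trans hA')
  have hcp : ((pat Z).card : ℝ) ≤ ∑ k ∈ range (T + 1), (D.choose k : ℝ) := by
    have h1 := card_pat Z
    have h3 : ∑ k ∈ range (Fintype.card J + 1), D.choose k ≤ ∑ k ∈ range (T + 1), D.choose k := by
      refine Finset.sum_le_sum_of_subset (Finset.range_subset_range.2 ?_)
      have : Fintype.card J ≤ T := by rw [hT]; omega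
      omega
    exact_mod_cast h1.trans h3
  -- the set of bad sign vectors injects in `pat × small`
  set bad := univ.filter fun X : I → Bool => ∃ c : J → ℝ,
      32 * ∑ i, |sg (X i) - ∑ j, c j * Z j i| ≤ D with hbad
  have hcard : bad.card ≤ (pat Z).card * small.card := by
    rw [← Finset.card_product]
    have hch : ∀ X ∈ bad, ∃ z ∈ pat Z ×ˢ small,
        symmDiff z.1 z.2 = univ.filter fun i => X i = true := by
      intro X hX
      rw [hbad, Finset.mem_filter] at hX
      obtain ⟨-, c, hc⟩ := hX
      set A : Finset I := univ.filter fun i => 0 < ∑ j, c j * Z j i with hA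
      set P : Finset I := univ.filter fun i => X i = true with hP
      refine ⟨(A, symmDiff A P), ?_, ?_⟩
      · rw [Finset.mem_product]
        constructor
        · unfold pat
          rw [Finset.mem_filter]
          exact ⟨Finset.mem_univ _, c, fun i => by simp [hA]⟩
        · rw [hsmall, Finset.mem_filter]
          refine ⟨Finset.mem_univ _, ?_⟩
          have h3 : ((symmDiff A P).card : ℝ) ≤ ∑ i, |sg (X i) - ∑ j, c j * Z j i| := by
            rw [← nsmul_one, ← Finset.sum_const]
            refine le_trans (Finset.sum_le_sum (fun i hi => ?_))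
              (Finset.sum_le_sum_of_subset_of_nonneg (Finset.subset_univ (symmDiff A P))
                fun i _ _ => abs_nonneg _)
            rw [Finset.mem_symmDiff] at hi
            rcases hi with ⟨h4, h5⟩ | ⟨h4, h5⟩
            · have h6 : 0 < ∑ j, c j * Z j i := by simpa [hA] using h4
              have h7 : X i = false := by simpa [hP] using h5
              rw [h7]
              have h8 : sg false = -1 := by simp [sg]
              rw [h8, abs_of_nonpos (by linarith)]
              linarith
            · have h6 : ∑ j, c j * Z j i ≤ 0 := by simpa [hA] using h5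
              have h7 : X i = true := by simpa [hP] using h4
              rw [h7]
              have h8 : sg true = 1 := by simp [sg]
              rw [h8, abs_of_nonneg (by linarith)]
              linarith
          have h9 : 32 * ((symmDiff A P).card : ℝ) ≤ D := by linarith
          have h10 : 32 * (symmDiff A P).card ≤ D := by exact_mod_cast h9
          show (symmDiff A P).card ≤ T
          omega
      · show symmDiff A (symmDiff A P) = P
        rw [symmDiff_symmDiff_cancel_left]
    choose! F hF1 hF2 using hch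
    refine Finset.card_le_card_of_injOn F (fun X hX => hF1 X hX) ?_
    intro X hX Y hY hXY
    have h1 := hF2 X hX
    have h3 := hF2 Y hY
    have h4 : (univ.filter fun i => X i = true) = univ.filter fun i => Y i = true := by
      rw [← h1, ← h3, hXY]
    funext i
    have h5 := congrArg (fun S => i ∈ S) h4
    simp only [Finset.mem_filter, Finset.mem_univ, true_and, eq_iff_iff] at h5
    cases hXi : X i <;> cases hYi : Y i <;> simp_all
  set S : ℝ := ∑ k ∈ range (T + 1), (D.choose k : ℝ) with hS
  have hS0 : 0 ≤ S := Finset.sum_nonneg fun k _ => Nat.cast_nonneg _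
  have hb : (bad.card : ℝ) ≤ S ^ 2 := by
    have h1 : (bad.card : ℝ) ≤ ((pat Z).card : ℝ) * small.card := by exact_mod_cast hcard
    refine h1.trans ?_
    rw [hcs, sq]
    exact mul_le_mul_of_nonneg_right hcp hS0
  have hS8 := choose_sum D T hT32
  rw [← hS] at hS8
  have h16 : (2 * S ^ 2) ^ 8 ≤ ((2 : ℝ) ^ D) ^ 8 := by
    calc (2 * S ^ 2) ^ 8 = 2 ^ 8 * (S ^ 8) ^ 2 := by ring
      _ ≤ 2 ^ 8 * (2 ^ (2 * D)) ^ 2 :=
          mul_le_mul_of_nonneg_left (pow_le_pow_left₀ (by positivity) hS8 2) (by positivity)
      _ = 2 ^ (8 + 4 * D) := by rw [← pow_mul, ← pow_add]; congr 1; ring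
      _ ≤ 2 ^ (8 * D) := pow_le_pow_right₀ (by norm_num) (by omega)
      _ = ((2 : ℝ) ^ D) ^ 8 := by rw [← pow_mul, mul_comm]
  have hfin : 2 * S ^ 2 ≤ (2 : ℝ) ^ D := le_of_pow_le_pow_left₀ (by norm_num) (by positivity) h16
  linarith

end Pool.Agent.MP_bc5265.E1
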