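import Pool.Agent.Lib.MP_bc5265_an.E1.Abs
import Pool.Agent.Lib.MP_bc5265_an.E1.Vc

/-!
# The edge `q = 1` of region `R_2`: the abstract form of the sharp lower bound for `d = 2`

`R X` is a family of densities (Riesz products) indexed by the signs `X`.
-/

set_option linter.unusedSectionVars false

open Finset MeasureTheory

namespace Pool.Agent.MP_bc5265.E1

open Pool.Agent.MP_bc5265

noncomputable section

theorem min_le_abs' (t : ℝ) : min (t ^ 2) |t| ≤ |t| := min_le_right _ _

theorem min_nonneg' (t : ℝ) : 0 ≤ min (t ^ 2) |t| := le_min (sq_nonneg _) (abs_nonneg _)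

/-- The large part. -/
def big (t : ℝ) : ℝ := if |t| ≤ 1 then 0 else t

/-- The small part. -/
def sml (t : ℝ) : ℝ := if |t| ≤ 1 then t else 0

theorem big_add_sml (t : ℝ) : big t + sml t = t := by
  unfold big sml
  split_ifs <;> simp

theorem abs_big_le (t : ℝ) : |big t| ≤ min (t ^ 2) |t| := by
  unfold big
  split_ifs with h
  · rw [abs_zero]
    exact min_nonneg' t
  · push Not at h
    refine le_min ?_ le_rfl
    rw [← sq_abs]
    nlinarith

theorem abs_big_le_abs (t : ℝ) : |big t| ≤ |t| := (abs_big_le t).trans (min_le_abs' t)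

theorem sml_sq_le (t : ℝ) : sml t ^ 2 ≤ min (t ^ 2) |t| := by
  unfold sml
  split_ifs with h
  · refine le_min le_rfl ?_
    rw [← sq_abs]
    nlinarith [abs_nonneg t]
  · rw [zero_pow (by norm_num)]
    exact min_nonneg' t

theorem abs_sml_le (t : ℝ) : |sml t| ≤ 1 := by
  unfold sml
  split_ifs with h
  · exact h
  · simp

theorem measurable_big : Measurable big :=
  Measurable.ite (measurableSet_le measurable_id.abs measurable_const) measurable_const
    measurable_id

theorem measurable_sml : Measurable sml :=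
  Measurable.ite (measurableSet_le measurable_id.abs measurable_const) measurable_id
    measurable_const

/-- The abstract inequality. -/
theorem abstract_A {I J Γ S : Type} [Fintype I] [DecidableEq I] [Fintype J] [Fintype Γ]
    [DecidableEq Γ] [MeasurableSpace S] (μ : Measure S) [IsProbabilityMeasure μ] {k : ℕ}
    (e : I ≃ Γ × Fin k) (φ : I → S → ℝ) (ψ : J → S → ℝ) (Z : J → I → ℝ)
    (R : (I → Bool) → S → ℝ) {κ η N K : ℝ} (hκ : 0 < κ) (hN : 0 < N) (hK : 0 < K)
    (hKk : K ≤ k) (hkK : (k : ℝ) ≤ 2 * K) (hI : (Fintype.card I : ℝ) = K * N)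
    (hI2 : 2 ≤ Fintype.card I) (hJ : 32 * Fintype.card J ≤ Fintype.card I)
    (hφm : ∀ i, Measurable (φ i)) (hφ1 : ∀ i y, |φ i y| ≤ 1) (hφ2 : ∀ y, ∑ i, φ i y ^ 2 ≤ K)
    (hψm : ∀ j, Measurable (ψ j)) (hψi : ∀ j, Integrable (ψ j) μ)
    (hRm : ∀ X, Measurable (R X)) (hRb : ∃ b, ∀ X y, |R X y - 1| ≤ b)
    (hR1 : ∀ y, ∑ X, |R X y - 1| ≤ 2 * 2 ^ Fintype.card I)
    (hR2 : ∀ u : S → ℝ, Measurable u → (∀ y, |u y| ≤ 1) →
      ∑ X, (∫ y, u y * (R X y - 1) ∂μ) ^ 2 ≤
        2 ^ Fintype.card I * ((∫ y, u y ^ 2 ∂μ) / N))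
    (hR3 : ∀ X i, |N * ∫ y, φ i y * (R X y - 1) ∂μ - κ * sg (X i)| ≤ η) :
    κ / 64 ≤ η + 288 * (∫ y, Mf k (fun γ x => φ (e.symm (γ, x)) y -
        ∑ j, Z j (e.symm (γ, x)) * ψ j y) ∂μ) +
      12 * Real.sqrt (∫ y, Mf k (fun γ x => φ (e.symm (γ, x)) y -
        ∑ j, Z j (e.symm (γ, x)) * ψ j y) ∂μ) := by
  classical
  have hk0 : (0 : ℝ) < k := by linarith
  have hk1 : 1 ≤ k := by
    have : 0 < k := by exact_mod_cast hk0
    exact this
  set D : ℕ := Fintype.card I with hD
  have hD0 : (0 : ℝ) < D := by rw [hI]; positivity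
  let w : I → S → ℝ := fun i y => φ i y - ∑ j, Z j i * ψ j y
  set MM : S → ℝ := fun y => Mf k fun γ x => w (e.symm (γ, x)) y with hMM
  set M0 : ℝ := ∫ y, MM y ∂μ with hM0
  show κ / 64 ≤ η + 288 * M0 + 12 * Real.sqrt M0
  have hφi : ∀ i, Integrable (φ i) μ := by
    intro i
    refine Integrable.of_bound (C := 1) (hφm i).aestronglyMeasurable ?_
    filter_upwards with y
    exact hφ1 i y
  have hwi : ∀ i, Integrable (w i) μ := fun i =>
    (hφi i).sub (integrable_finsetSum _ fun j _ => (hψi j).const_mul _)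
  have hwm : ∀ i, Measurable (w i) := fun i =>
    (hφm i).sub (Finset.measurable_sum _ fun j _ => (hψm j).const_mul _)
  have hMi : Integrable MM μ := integrable_Mf μ (fun γ x => w (e.symm (γ, x))) fun γ x => hwi _
  have hM00 : 0 ≤ M0 := integral_nonneg fun y => Mf_nonneg _
  -- the truncation
  let F : S → ℝ := fun y => (∑ i, min (w i y ^ 2) |w i y|) / k
  have hFm : Measurable F :=
    (Finset.measurable_sum _ fun i _ => ((hwm i).pow_const 2).min (hwm i).abs).div_const _
  have hF : ∀ y, min (F y) 1 ≤ 72 * MM y := by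
    intro y
    have h1 := trunc k hk1 (fun γ x => w (e.symm (γ, x)) y)
    have h2 : ∑ γ, ∑ x, min (w (e.symm (γ, x)) y ^ 2) |w (e.symm (γ, x)) y| =
        ∑ i, min (w i y ^ 2) |w i y| := by
      rw [← Fintype.sum_prod_type' (fun γ x => min (w (e.symm (γ, x)) y ^ 2)
        |w (e.symm (γ, x)) y|)]
      exact Equiv.sum_comp e.symm fun i => min (w i y ^ 2) |w i y|
    rw [h2] at h1
    exact h1
  let A : Set S := {y | F y ≤ 1}
  have hA : MeasurableSet A := measurableSet_le hFm measurable_const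
  let ψ' : J → S → ℝ := fun j => A.indicator (ψ j)
  have hψ'i : ∀ j, Integrable (ψ' j) μ := fun j => (hψi j).indicator hA
  have hψ'm : ∀ j, Measurable (ψ' j) := fun j => (hψm j).indicator hA
  let w' : I → S → ℝ := fun i y => φ i y - ∑ j, Z j i * ψ' j y
  have hw'i : ∀ i, Integrable (w' i) μ := fun i =>
    (hφi i).sub (integrable_finsetSum _ fun j _ => (hψ'i j).const_mul _)
  have hw'm : ∀ i, Measurable (w' i) := fun i =>
    (hφm i).sub (Finset.measurable_sum _ fun j _ => (hψ'm j).const_mul _)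
  have hw'1 : ∀ i y, F y ≤ 1 → w' i y = w i y := by
    intro i y hy
    have hyA : y ∈ A := hy
    simp only [w', w, ψ', Set.indicator_of_mem hyA]
  have hw'2 : ∀ i y, ¬ F y ≤ 1 → w' i y = φ i y := by
    intro i y hy
    have hyA : y ∉ A := hy
    simp only [w', ψ', Set.indicator_of_notMem hyA, mul_zero, Finset.sum_const_zero, sub_zero]
  let G : S → ℝ := fun y => ∑ i, min (w' i y ^ 2) |w' i y|
  have hGm : Measurable G :=
    Finset.measurable_sum _ fun i _ => ((hw'm i).pow_const 2).min (hw'm i).abs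
  have hG0 : ∀ y, 0 ≤ G y := fun y => Finset.sum_nonneg fun i _ => min_nonneg' _
  have hG : ∀ y, G y ≤ 144 * K * MM y := by
    intro y
    have h1 : G y ≤ k * min (F y) 1 := by
      by_cases hy : F y ≤ 1
      · rw [min_eq_left hy]
        simp only [G, F, hw'1 _ y hy]
        rw [mul_div_cancel₀ _ hk0.ne']
      · rw [min_eq_right (not_le.1 hy).le, mul_one]
        simp only [G, hw'2 _ y hy]
        refine le_trans (Finset.sum_le_sum fun i _ => min_le_left _ _) ((hφ2 y).trans hKk)
    have h2 := mul_le_mul_of_nonneg_left (hF y) hk0.le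
    have h3 : 0 ≤ MM y := Mf_nonneg _
    have h4 : (k : ℝ) * (72 * MM y) ≤ 2 * K * (72 * MM y) :=
      mul_le_mul_of_nonneg_right hkK (by positivity)
    linarith
  have hGi : Integrable G μ := by
    refine Integrable.mono' (hMi.const_mul (144 * K)) hGm.aestronglyMeasurable ?_
    filter_upwards with y
    rw [Real.norm_of_nonneg (hG0 y)]
    exact hG y
  have hIG : ∫ y, G y ∂μ ≤ 144 * K * M0 := by
    rw [hM0, ← integral_const_mul]
    exact integral_mono hGi (hMi.const_mul _) hG
  have hIG0 : 0 ≤ ∫ y, G y ∂μ := integral_nonneg hG0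
  -- the two parts
  have hbm : ∀ i, Measurable fun y => big (w' i y) := fun i => measurable_big.comp (hw'm i)
  have hsm : ∀ i, Measurable fun y => sml (w' i y) := fun i => measurable_sml.comp (hw'm i)
  have hbi : ∀ i, Integrable (fun y => big (w' i y)) μ := by
    intro i
    refine Integrable.mono (hw'i i) (hbm i).aestronglyMeasurable ?_
    filter_upwards with y
    rw [Real.norm_eq_abs, Real.norm_eq_abs]
    exact abs_big_le_abs _
  have hsi : ∀ i, Integrable (fun y => sml (w' i y)) μ := by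
    intro i
    refine Integrable.of_bound (C := 1) (hsm i).aestronglyMeasurable ?_
    filter_upwards with y
    exact abs_sml_le _
  obtain ⟨b, hb⟩ := hRb
  have hRm1 : ∀ X, Measurable fun y => R X y - 1 := fun X => (hRm X).sub_const 1
  have hmulR : ∀ (f : S → ℝ), Integrable f μ → ∀ X, Integrable (fun y => f y * (R X y - 1)) μ := by
    intro f hf X
    refine hf.mul_bdd (c := b) (hRm1 X).aestronglyMeasurable ?_
    filter_upwards with y
    exact hb X y
  let T : (I → Bool) → ℝ := fun X => D * η + N * ∑ i, |∫ y, w' i y * (R X y - 1) ∂μ|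
  -- the distance to the subspace
  have hdist : ∀ X, ∃ c : J → ℝ, κ * ∑ i, |sg (X i) - ∑ j, c j * Z j i| ≤ T X := by
    intro X
    refine ⟨fun j => N / κ * ∫ y, ψ' j y * (R X y - 1) ∂μ, ?_⟩
    rw [Finset.mul_sum]
    have h1 : ∀ i, κ * |sg (X i) - ∑ j, (N / κ * ∫ y, ψ' j y * (R X y - 1) ∂μ) * Z j i| ≤
        η + N * |∫ y, w' i y * (R X y - 1) ∂μ| := by
      intro i
      have h2 : ∫ y, w' i y * (R X y - 1) ∂μ = ∫ y, φ i y * (R X y - 1) ∂μ -
          ∑ j, Z j i * ∫ y, ψ' j y * (R X y - 1) ∂μ := by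
        have h3 : ∀ y, w' i y * (R X y - 1) = φ i y * (R X y - 1) -
            ∑ j, Z j i * (ψ' j y * (R X y - 1)) := by
          intro y
          simp only [w']
          rw [sub_mul, Finset.sum_mul]
          congr 1
          exact Finset.sum_congr rfl fun j _ => by ring
        simp only [h3]
        rw [integral_sub (hmulR _ (hφi i) X) (integrable_finsetSum _ fun j _ =>
          (hmulR _ (hψ'i j) X).const_mul _), integral_finsetSum _ fun j _ =>
          (hmulR _ (hψ'i j) X).const_mul _]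
        simp only [integral_const_mul]
      have h4 : κ * (sg (X i) - ∑ j, (N / κ * ∫ y, ψ' j y * (R X y - 1) ∂μ) * Z j i) =
          -(N * ∫ y, φ i y * (R X y - 1) ∂μ - κ * sg (X i)) +
            N * ∫ y, w' i y * (R X y - 1) ∂μ := by
        rw [h2, mul_sub, Finset.mul_sum, mul_sub, Finset.mul_sum]
        have h5 : ∀ j, κ * ((N / κ * ∫ y, ψ' j y * (R X y - 1) ∂μ) * Z j i) =
            N * (Z j i * ∫ y, ψ' j y * (R X y - 1) ∂μ) := by
          intro j
          field_simp
        simp only [h5]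
        ring
      rw [← abs_of_pos hκ, ← abs_mul, abs_of_pos hκ, h4]
      refine (abs_add_le _ _).trans (add_le_add ?_ ?_)
      · rw [abs_neg]
        exact hR3 X i
      · rw [abs_mul, abs_of_pos hN]
    refine (Finset.sum_le_sum fun i _ => h1 i).trans (le_of_eq ?_)
    rw [Finset.sum_add_distrib, Finset.sum_const, Finset.card_univ, nsmul_eq_mul,
      ← Finset.mul_sum]
  -- lower bound for the sum over the signs
  have hlow : κ * D / 64 * 2 ^ D ≤ ∑ X, T X := by
    have hfar := far Z hI2 hJ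
    set Bd : Finset (I → Bool) := univ.filter fun X : I → Bool => ∃ c : J → ℝ,
      32 * ∑ i, |sg (X i) - ∑ j, c j * Z j i| ≤ Fintype.card I with hBd
    have hT0 : ∀ X, 0 ≤ T X := by
      intro X
      obtain ⟨c, hc⟩ := hdist X
      exact le_trans (mul_nonneg hκ.le (Finset.sum_nonneg fun i _ => abs_nonneg _)) hc
    have hgood : ∀ X ∈ univ \ Bd, κ * D / 32 ≤ T X := by
      intro X hX
      rw [Finset.mem_sdiff] at hX
      obtain ⟨c, hc⟩ := hdist X
      have h1 : ¬ 32 * ∑ i, |sg (X i) - ∑ j, c j * Z j i| ≤ (Fintype.card I : ℝ) := by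
        intro h
        exact hX.2 (Finset.mem_filter.2 ⟨Finset.mem_univ _, c, h⟩)
      push Not at h1
      have h2 := mul_lt_mul_of_pos_left h1 hκ
      have h3 : (Fintype.card I : ℝ) = D := rfl
      rw [h3] at h2
      linarith
    have hcard : ((univ \ Bd).card : ℝ) + (Bd.card : ℝ) = 2 ^ D := by
      have h1 := Finset.card_sdiff_add_card_eq_card (Finset.subset_univ Bd)
      rw [Finset.card_univ, Fintype.card_fun, Fintype.card_bool] at h1
      exact_mod_cast h1
    have h1 : ∑ X ∈ univ \ Bd, κ * D / 32 ≤ ∑ X ∈ univ \ Bd, T X := Finset.sum_le_sum hgood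
    have h2 : ∑ X ∈ univ \ Bd, T X ≤ ∑ X, T X :=
      Finset.sum_le_sum_of_subset_of_nonneg (Finset.subset_univ _) fun X _ _ => hT0 X
    rw [Finset.sum_const, nsmul_eq_mul] at h1
    have h3 : (2 : ℝ) ^ D / 2 ≤ ((univ \ Bd).card : ℝ) := by linarith
    have h4 := mul_le_mul_of_nonneg_right h3 (by positivity : 0 ≤ κ * D / 32)
    have h5 : (2 : ℝ) ^ D / 2 * (κ * D / 32) = κ * D / 64 * 2 ^ D := by ring
    linarith
  -- upper bound
  have hup1 : ∑ i, ∑ X, ∫ y, |big (w' i y)| * |R X y - 1| ∂μ ≤ 2 * 2 ^ D * ∫ y, G y ∂μ := by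
    have habs : ∀ i X, Integrable (fun y => |big (w' i y)| * |R X y - 1|) μ := by
      intro i X
      have h1 := (hmulR _ (hbi i) X).abs
      refine h1.congr (Filter.Eventually.of_forall fun y => ?_)
      exact abs_mul _ _
    have h1 : ∀ i, ∑ X, ∫ y, |big (w' i y)| * |R X y - 1| ∂μ ≤
        ∫ y, 2 * 2 ^ D * |big (w' i y)| ∂μ := by
      intro i
      rw [← integral_finsetSum _ fun X _ => habs i X]
      refine integral_mono (integrable_finsetSum _ fun X _ => habs i X)
        ((hbi i).abs.const_mul _) fun y => ?_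
      show ∑ X, |big (w' i y)| * |R X y - 1| ≤ 2 * 2 ^ D * |big (w' i y)|
      rw [← Finset.mul_sum, mul_comm]
      exact mul_le_mul_of_nonneg_right (hR1 y) (abs_nonneg _)
    refine (Finset.sum_le_sum fun i _ => h1 i).trans ?_
    rw [← integral_finsetSum _ fun i _ => (hbi i).abs.const_mul _, ← integral_const_mul]
    refine integral_mono (integrable_finsetSum _ fun i _ => (hbi i).abs.const_mul _)
      (hGi.const_mul _) fun y => ?_
    show ∑ i, 2 * 2 ^ D * |big (w' i y)| ≤ 2 * 2 ^ D * G y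
    rw [← Finset.mul_sum]
    exact mul_le_mul_of_nonneg_left (Finset.sum_le_sum fun i _ => abs_big_le _) (by positivity)
  have hup2 : ∑ i, ∑ X, |∫ y, sml (w' i y) * (R X y - 1) ∂μ| ≤
      2 ^ D * Real.sqrt (D * (∫ y, G y ∂μ) / N) := by
    have h1 : ∑ i, ∑ X, (∫ y, sml (w' i y) * (R X y - 1) ∂μ) ^ 2 ≤
        2 ^ D * ((∫ y, G y ∂μ) / N) := by
      refine (Finset.sum_le_sum fun i _ => hR2 (fun y => sml (w' i y)) (hsm i)
        fun y => abs_sml_le _).trans ?_
      rw [← Finset.mul_sum, ← Finset.sum_div]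
      refine mul_le_mul_of_nonneg_left (div_le_div_of_nonneg_right ?_ hN.le) (by positivity)
      have hs2 : ∀ i, Integrable (fun y => sml (w' i y) ^ 2) μ := by
        intro i
        refine Integrable.of_bound (C := 1) ((hsm i).pow_const 2).aestronglyMeasurable ?_
        filter_upwards with y
        rw [Real.norm_of_nonneg (sq_nonneg _), ← sq_abs]
        exact pow_le_one₀ (abs_nonneg _) (abs_sml_le _)
      rw [← integral_finsetSum _ fun i _ => hs2 i]
      exact integral_mono (integrable_finsetSum _ fun i _ => hs2 i) hGi fun y =>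
        Finset.sum_le_sum fun i _ => sml_sq_le _
    set a : I × (I → Bool) → ℝ := fun z => |∫ y, sml (w' z.1 y) * (R z.2 y - 1) ∂μ| with ha
    have h2 : ∑ i, ∑ X, |∫ y, sml (w' i y) * (R X y - 1) ∂μ| = ∑ z, a z := by
      rw [Fintype.sum_prod_type]
    have h3 : ∑ z, a z ^ 2 ≤ 2 ^ D * ((∫ y, G y ∂μ) / N) := by
      rw [Fintype.sum_prod_type]
      simp only [ha, sq_abs]
      exact h1
    have h4 := sq_sum_le_card_mul_sum_sq (s := (univ : Finset (I × (I → Bool)))) (f := a)
    rw [Finset.card_univ, Fintype.card_prod, Fintype.card_fun, Fintype.card_bool] at h4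
    push_cast at h4
    have h5 : (∑ z, a z) ^ 2 ≤ (2 ^ D * Real.sqrt (D * (∫ y, G y ∂μ) / N)) ^ 2 := by
      rw [mul_pow, Real.sq_sqrt (by positivity)]
      refine h4.trans ((mul_le_mul_of_nonneg_left h3 (by positivity)).trans (le_of_eq ?_))
      ring
    rw [h2]
    exact le_of_sq_le_sq h5 (by positivity)
  have hup : ∑ X, T X ≤ 2 ^ D * (D * η) + N * (2 * 2 ^ D * ∫ y, G y ∂μ +
      2 ^ D * Real.sqrt (D * (∫ y, G y ∂μ) / N)) := by
    simp only [T]
    rw [Finset.sum_add_distrib, Finset.sum_const, Finset.card_univ, Fintype.card_fun,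
      Fintype.card_bool, nsmul_eq_mul, ← Finset.mul_sum]
    push_cast
    have h1 : ∑ X : I → Bool, ∑ i, |∫ y, w' i y * (R X y - 1) ∂μ| ≤
        2 * 2 ^ D * ∫ y, G y ∂μ + 2 ^ D * Real.sqrt (D * (∫ y, G y ∂μ) / N) := by
      rw [Finset.sum_comm]
      refine le_trans ?_ (add_le_add hup1 hup2)
      rw [← Finset.sum_add_distrib]
      refine Finset.sum_le_sum fun i _ => ?_
      rw [← Finset.sum_add_distrib]
      refine Finset.sum_le_sum fun X _ => ?_
      have h2 : ∫ y, w' i y * (R X y - 1) ∂μ = ∫ y, big (w' i y) * (R X y - 1) ∂μ +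
          ∫ y, sml (w' i y) * (R X y - 1) ∂μ := by
        rw [← integral_add (hmulR _ (hbi i) X) (hmulR _ (hsi i) X)]
        refine integral_congr_ae (Filter.Eventually.of_forall fun y => ?_)
        show w' i y * (R X y - 1) = big (w' i y) * (R X y - 1) + sml (w' i y) * (R X y - 1)
        rw [← add_mul, big_add_sml]
      rw [h2]
      refine (abs_add_le _ _).trans (add_le_add ?_ le_rfl)
      refine abs_integral_le_integral_abs.trans (le_of_eq ?_)
      refine integral_congr_ae (Filter.Eventually.of_forall fun y => ?_)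
      exact abs_mul _ _
    have h2 := mul_le_mul_of_nonneg_left h1 hN.le
    linarith
  -- conclusion
  have hK1 : N * ∫ y, G y ∂μ ≤ 144 * D * M0 := by
    rw [hI]
    have := mul_le_mul_of_nonneg_left hIG hN.le
    linarith
  have hK2 : N * Real.sqrt (D * (∫ y, G y ∂μ) / N) ≤ 12 * D * Real.sqrt M0 := by
    have h1 : N * Real.sqrt (D * (∫ y, G y ∂μ) / N) =
        Real.sqrt (D * (N * ∫ y, G y ∂μ)) := by
      have h2 : D * (N * ∫ y, G y ∂μ) = N ^ 2 * (D * (∫ y, G y ∂μ) / N) := by
        field_simp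
      rw [h2, Real.sqrt_mul (sq_nonneg N), Real.sqrt_sq hN.le]
    rw [h1]
    have h3 : (D : ℝ) * (N * ∫ y, G y ∂μ) ≤ (12 * D) ^ 2 * M0 := by
      have := mul_le_mul_of_nonneg_left hK1 hD0.le
      nlinarith
    refine (Real.sqrt_le_sqrt h3).trans (le_of_eq ?_)
    rw [Real.sqrt_mul (sq_nonneg _), Real.sqrt_sq (by positivity)]
  have hfin := hlow.trans hup
  have h2D : (0 : ℝ) < 2 ^ D := by positivity
  have h1 : 2 ^ D * (D * η) + N * (2 * 2 ^ D * ∫ y, G y ∂μ +
      2 ^ D * Real.sqrt (D * (∫ y, G y ∂μ) / N)) =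
      2 ^ D * (D * η + 2 * (N * ∫ y, G y ∂μ) +
        N * Real.sqrt (D * (∫ y, G y ∂μ) / N)) := by ring
  rw [h1, mul_comm (κ * D / 64)] at hfin
  have h2 := le_of_mul_le_mul_left hfin h2D
  have h3 : (D : ℝ) * (κ / 64) ≤ D * (η + 288 * M0 + 12 * Real.sqrt M0) := by
    nlinarith
  exact le_of_mul_le_mul_left h3 hD0

/-- The quadratic inequality. -/
theorem quad_low {κ M0 : ℝ} (hκ : 0 < κ) (hM : 0 ≤ M0)
    (h : κ / 128 ≤ 288 * M0 + 12 * Real.sqrt M0) : min 1 ((κ / 38400) ^ 2) ≤ M0 := by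
  by_contra hcon
  push Not at hcon
  rw [lt_min_iff] at hcon
  obtain ⟨h1, h2⟩ := hcon
  have hs0 := Real.sqrt_nonneg M0
  have hs1 : Real.sqrt M0 ≤ 1 := Real.sqrt_le_one.2 h1.le
  have hs2 : Real.sqrt M0 < κ / 38400 := by
    rw [Real.sqrt_lt' (by positivity)]
    exact h2
  have hs3 : M0 ≤ Real.sqrt M0 := by
    have := Real.mul_self_sqrt hM
    nlinarith
  linarith

end

end Pool.Agent.MP_bc5265.E1
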