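import Mathlib
import Pool.Agent.Lib.MP_bc5265_an.Signs
import Pool.Agent.Lib.MP_bc5265_an.RQ.BQ

/-!
# The edge `q = 1` of region `R_2`: sparse random sums (finite dimensional part)

`Γ` groups of `k` elements each, one element is chosen at random in every group, random signs.
-/

set_option linter.unusedSectionVars false

open Finset

namespace Pool.Agent.MP_bc5265.E1

open Pool.Agent.MP_bc5265

noncomputable section

variable {Γ : Type} [Fintype Γ] [DecidableEq Γ]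

/-- average absolute value of the random signed sums with one element of each group -/
def Mf (k : ℕ) (w : Γ → Fin k → ℝ) : ℝ :=
  (∑ ξ : Γ → Fin k, ∑ ε : Γ → Bool, |∑ γ, sg (ε γ) * w γ (ξ γ)|) /
    ((k : ℝ) ^ Fintype.card Γ * 2 ^ Fintype.card Γ)

/-- Khinchine's inequality in `L_1`. -/
theorem khinchine (v : Γ → ℝ) :
    2 ^ Fintype.card Γ * Real.sqrt (∑ γ, v γ ^ 2) ≤
      24 * ∑ ε : Γ → Bool, |∑ γ, sg (ε γ) * v γ| := by
  have h := R2.specKHI 1 Γ Unit (fun γ _ => v γ) one_pos (by norm_num)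
  simp only [univ_unique, sum_singleton] at h
  have e1 : ∀ x : ℝ, (x ^ 2) ^ ((1 : ℝ) / 2) = |x| := by
    intro x
    rw [← Real.sqrt_eq_rpow, Real.sqrt_sq_eq_abs]
  simp only [e1] at h
  rw [← Real.sqrt_eq_rpow] at h
  linarith

/-- splitting off one coordinate -/
theorem sum_split (k : ℕ) (γ : Γ) (F : Fin k → ℝ) (G : ({j // j ≠ γ} → Fin k) → ℝ) :
    ∑ ξ : Γ → Fin k, F (ξ γ) * G (fun j => ξ j) = (∑ x, F x) * ∑ η, G η := by
  rw [← Equiv.sum_comp (Equiv.funSplitAt γ (Fin k)).symm, Fintype.sum_prod_type,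
    Finset.sum_mul_sum]
  refine Finset.sum_congr rfl fun x _ => Finset.sum_congr rfl fun η _ => ?_
  have h1 : (Equiv.funSplitAt γ (Fin k)).symm (x, η) γ = x := by
    simp [Equiv.funSplitAt, Equiv.piSplitAt]
  have h2 : (fun j : {j // j ≠ γ} => (Equiv.funSplitAt γ (Fin k)).symm (x, η) j) = η := by
    funext j
    simp [Equiv.funSplitAt, Equiv.piSplitAt, j.2]
  rw [h1, h2]

theorem card_split (k : ℕ) (γ : Γ) :
    (k : ℝ) ^ Fintype.card Γ = k * (Fintype.card ({j // j ≠ γ} → Fin k) : ℝ) := by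
  have h := Fintype.card_congr (Equiv.funSplitAt γ (Fin k))
  rw [Fintype.card_prod, Fintype.card_fun, Fintype.card_fin] at h
  exact_mod_cast h

theorem sum_one (k : ℕ) (γ : Γ) (F : Fin k → ℝ) :
    (k : ℝ) * ∑ ξ : Γ → Fin k, F (ξ γ) = (k : ℝ) ^ Fintype.card Γ * ∑ x, F x := by
  have h := sum_split k γ F (fun _ => 1)
  simp only [mul_one, Finset.sum_const, Finset.card_univ, nsmul_eq_mul] at h
  rw [h, card_split k γ]
  ring

/-- Markov's inequality for the other groups. -/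
theorem markov (k : ℕ) (g : Γ → Fin k → ℝ) (hg : ∑ γ, ∑ x, g γ x ^ 2 ≤ k) (γ : Γ) :
    3 * (Fintype.card ({j // j ≠ γ} → Fin k) : ℝ) ≤
      4 * ∑ η : {j // j ≠ γ} → Fin k, (if ∑ j : {j // j ≠ γ}, g j (η j) ^ 2 ≤ 4 then (1 : ℝ) else 0) := by
  classical
  rcases Nat.eq_zero_or_pos k with hk | hk
  · subst hk
    by_cases hne : Nonempty {j // j ≠ γ}
    · obtain ⟨j⟩ := hne
      have : IsEmpty ({j // j ≠ γ} → Fin 0) := ⟨fun η => (η j).elim0⟩
      simp
    · rw [not_nonempty_iff] at hne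
      simp
      norm_num
  · have hk0 : (0 : ℝ) < k := by exact_mod_cast hk
    have h1 : ∑ η : {j // j ≠ γ} → Fin k, ∑ j : {j // j ≠ γ}, g j (η j) ^ 2 ≤
        (Fintype.card ({j // j ≠ γ} → Fin k) : ℝ) := by
      rw [Finset.sum_comm]
      have h2 : ∀ j : {j // j ≠ γ}, (k : ℝ) * ∑ η : {j // j ≠ γ} → Fin k, g j (η j) ^ 2 =
          (Fintype.card ({j // j ≠ γ} → Fin k) : ℝ) * ∑ x, g j x ^ 2 := by
        intro j
        rw [sum_one k j (fun x => g j x ^ 2), Fintype.card_fun, Fintype.card_fin]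
        push_cast
        rfl
      have h3 : (k : ℝ) * ∑ j : {j // j ≠ γ}, ∑ η : {j // j ≠ γ} → Fin k, g j (η j) ^ 2 ≤
          k * (Fintype.card ({j // j ≠ γ} → Fin k) : ℝ) := by
        rw [Finset.mul_sum]
        simp only [h2]
        rw [← Finset.mul_sum, mul_comm (k : ℝ)]
        refine mul_le_mul_of_nonneg_left ?_ (Nat.cast_nonneg _)
        refine le_trans ?_ hg
        have h4 := Finset.sum_subtype (F := inferInstance) (univ.filter fun j => j ≠ γ)
          (p := fun j => j ≠ γ) (by simp) (fun j => ∑ x, g j x ^ 2)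
        rw [← h4]
        exact Finset.sum_le_sum_of_subset_of_nonneg (Finset.filter_subset _ _)
          fun j _ _ => Finset.sum_nonneg fun x _ => sq_nonneg _
      exact le_of_mul_le_mul_left h3 hk0
    have h5 : ∀ η : {j // j ≠ γ} → Fin k, 4 * (1 - (if ∑ j : {j // j ≠ γ}, g j (η j) ^ 2 ≤ 4 then (1 : ℝ) else 0)) ≤
        ∑ j : {j // j ≠ γ}, g j (η j) ^ 2 := by
      intro η
      have h6 : 0 ≤ ∑ j : {j // j ≠ γ}, g j (η j) ^ 2 := Finset.sum_nonneg fun j _ => sq_nonneg _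
      split_ifs with h
      · linarith
      · push Not at h
        linarith
    have h7 := Finset.sum_le_sum fun η (_ : η ∈ (univ : Finset ({j // j ≠ γ} → Fin k))) => h5 η
    rw [← Finset.mul_sum, Finset.sum_sub_distrib, Finset.sum_const, Finset.card_univ,
      nsmul_eq_mul, mul_one] at h7
    linarith

/-- Decoupling lemma. -/
theorem decoupling (k : ℕ) (hk : 1 ≤ k) (w g : Γ → Fin k → ℝ) (Θ : ℝ)
    (hg : ∑ γ, ∑ x, g γ x ^ 2 ≤ k) (hΘ : ∀ γ x, |g γ x| ≤ Θ) :
    ∑ γ, ∑ x, |w γ x * g γ x| ≤ 32 * k * Real.sqrt (4 + Θ ^ 2) * Mf k w := by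
  classical
  have hk0 : (0 : ℝ) < k := by exact_mod_cast hk
  set R : ℝ := Real.sqrt (4 + Θ ^ 2) with hR
  have hR0 : 0 ≤ R := Real.sqrt_nonneg _
  -- one group
  have h1 : ∀ γ : Γ, 3 * ((k : ℝ) ^ Fintype.card Γ * ∑ x, |w γ x * g γ x|) ≤
      4 * (k * ∑ ξ : Γ → Fin k, |w γ (ξ γ) * g γ (ξ γ)| *
        (if ∑ j : {j // j ≠ γ}, g j (ξ j) ^ 2 ≤ 4 then (1 : ℝ) else 0)) := by
    intro γ
    have h2 := sum_split k γ (fun x => |w γ x * g γ x|)
      (fun η => if ∑ j : {j // j ≠ γ}, g j (η j) ^ 2 ≤ 4 then (1 : ℝ) else 0)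
    simp only at h2
    rw [h2, card_split k γ]
    have h3 := markov k g hg γ
    have h4 : 0 ≤ ∑ x, |w γ x * g γ x| := Finset.sum_nonneg fun x _ => abs_nonneg _
    have h5 := mul_le_mul_of_nonneg_left h3 (mul_nonneg hk0.le h4)
    calc 3 * ((k : ℝ) * (Fintype.card ({j // j ≠ γ} → Fin k) : ℝ) * ∑ x, |w γ x * g γ x|)
        = ↑k * (∑ x, |w γ x * g γ x|) * (3 * (Fintype.card ({j // j ≠ γ} → Fin k) : ℝ)) := by ring
      _ ≤ _ := h5
      _ = _ := by ring
  -- Cauchy-Schwarz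
  have h6 : ∀ ξ : Γ → Fin k, ∑ γ, |w γ (ξ γ) * g γ (ξ γ)| *
      (if ∑ j : {j // j ≠ γ}, g j (ξ j) ^ 2 ≤ 4 then (1 : ℝ) else 0) ≤
      R * Real.sqrt (∑ γ, w γ (ξ γ) ^ 2) := by
    intro ξ
    by_cases hY : ∑ γ, g γ (ξ γ) ^ 2 ≤ 4 + Θ ^ 2
    · have h7 : ∑ γ, |w γ (ξ γ) * g γ (ξ γ)| *
          (if ∑ j : {j // j ≠ γ}, g j (ξ j) ^ 2 ≤ 4 then (1 : ℝ) else 0) ≤
          ∑ γ, |w γ (ξ γ)| * |g γ (ξ γ)| := by
        refine Finset.sum_le_sum fun γ _ => ?_
        rw [← abs_mul]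
        split_ifs
        · rw [mul_one]
        · rw [mul_zero]
          exact abs_nonneg _
      have h8 := Real.sum_mul_le_sqrt_mul_sqrt (univ : Finset Γ) (fun γ => |w γ (ξ γ)|)
        (fun γ => |g γ (ξ γ)|)
      simp only [sq_abs] at h8
      refine h7.trans (h8.trans ?_)
      rw [mul_comm]
      exact mul_le_mul_of_nonneg_right (Real.sqrt_le_sqrt hY) (Real.sqrt_nonneg _)
    · have h9 : ∀ γ : Γ, ¬ (∑ j : {j // j ≠ γ}, g j (ξ j) ^ 2 ≤ 4) := by
        intro γ hle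
        apply hY
        have h10 := Finset.sum_subtype (F := inferInstance) (univ.filter fun j => j ≠ γ)
          (p := fun j => j ≠ γ) (by simp) (fun j => g j (ξ j) ^ 2)
        have h11 : ∑ γ', g γ' (ξ γ') ^ 2 = g γ (ξ γ) ^ 2 +
            ∑ j ∈ univ.filter (fun j => j ≠ γ), g j (ξ j) ^ 2 := by
          rw [← Finset.add_sum_erase univ _ (Finset.mem_univ γ)]
          congr 1
          refine Finset.sum_congr ?_ fun _ _ => rfl
          ext j
          simp
        rw [h11, h10]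
        have h12 : g γ (ξ γ) ^ 2 ≤ Θ ^ 2 := by
          rw [← sq_abs]
          exact pow_le_pow_left₀ (abs_nonneg _) (hΘ _ _) 2
        linarith
      have h13 : ∑ γ, |w γ (ξ γ) * g γ (ξ γ)| *
          (if ∑ j : {j // j ≠ γ}, g j (ξ j) ^ 2 ≤ 4 then (1 : ℝ) else 0) = 0 := by
        refine Finset.sum_eq_zero fun γ _ => ?_
        rw [if_neg (h9 γ), mul_zero]
      rw [h13]
      exact mul_nonneg hR0 (Real.sqrt_nonneg _)
  have h14 : 3 * ((k : ℝ) ^ Fintype.card Γ * ∑ γ, ∑ x, |w γ x * g γ x|) ≤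
      4 * (k * ∑ ξ : Γ → Fin k, R * Real.sqrt (∑ γ, w γ (ξ γ) ^ 2)) := by
    rw [Finset.mul_sum, Finset.mul_sum]
    refine (Finset.sum_le_sum fun γ _ => h1 γ).trans ?_
    rw [← Finset.mul_sum, ← Finset.mul_sum, Finset.sum_comm]
    refine mul_le_mul_of_nonneg_left ?_ (by norm_num)
    refine mul_le_mul_of_nonneg_left ?_ hk0.le
    exact Finset.sum_le_sum fun ξ _ => h6 ξ
  -- Khinchine
  have h15 : (2 : ℝ) ^ Fintype.card Γ * ∑ ξ : Γ → Fin k, Real.sqrt (∑ γ, w γ (ξ γ) ^ 2) ≤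
      24 * (Mf k w * ((k : ℝ) ^ Fintype.card Γ * 2 ^ Fintype.card Γ)) := by
    unfold Mf
    rw [div_mul_cancel₀ _ (by positivity), Finset.mul_sum, Finset.mul_sum]
    exact Finset.sum_le_sum fun ξ _ => khinchine fun γ => w γ (ξ γ)
  have h16 : ∑ ξ : Γ → Fin k, Real.sqrt (∑ γ, w γ (ξ γ) ^ 2) ≤
      24 * (Mf k w * (k : ℝ) ^ Fintype.card Γ) := by
    have h2 : (0 : ℝ) < 2 ^ Fintype.card Γ := by positivity
    refine le_of_mul_le_mul_left (h15.trans (le_of_eq ?_)) h2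
    ring
  have hkn : (0 : ℝ) < (k : ℝ) ^ Fintype.card Γ := by positivity
  rw [← Finset.mul_sum] at h14
  have h17 := mul_le_mul_of_nonneg_left h16 (mul_nonneg hk0.le hR0)
  have h18 : (k : ℝ) ^ Fintype.card Γ * (3 * ∑ γ, ∑ x, |w γ x * g γ x|) ≤
      (k : ℝ) ^ Fintype.card Γ * (3 * (32 * k * R * Mf k w)) := by
    nlinarith
  have h19 := le_of_mul_le_mul_left h18 hkn
  linarith

/-- The truncated functional is bounded by `Mf`. -/
theorem trunc (k : ℕ) (hk : 1 ≤ k) (w : Γ → Fin k → ℝ) :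
    min ((∑ γ, ∑ x, min (w γ x ^ 2) |w γ x|) / k) 1 ≤ 72 * Mf k w := by
  have hk0 : (0 : ℝ) < k := by exact_mod_cast hk
  set F : ℝ := ∑ γ, ∑ x, min (w γ x ^ 2) |w γ x| with hF
  have hmin : ∀ t : ℝ, 0 ≤ min (t ^ 2) |t| := fun t => le_min (sq_nonneg _) (abs_nonneg _)
  have hF0 : 0 ≤ F := Finset.sum_nonneg fun γ _ => Finset.sum_nonneg fun x _ => hmin _
  have hM0 : 0 ≤ Mf k w := by
    unfold Mf
    positivity
  -- the test vector
  have key : ∀ lam : ℝ, 0 ≤ lam → lam ≤ 1 → lam ^ 2 * F ≤ k → lam * F ≤ 72 * k * Mf k w := by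
    intro lam h0 h1 h2
    have e1 : ∀ t : ℝ, (lam * min |t| 1) ^ 2 ≤ lam ^ 2 * min (t ^ 2) |t| := by
      intro t
      rw [mul_pow]
      refine mul_le_mul_of_nonneg_left ?_ (sq_nonneg _)
      have ht := abs_nonneg t
      rcases le_total |t| 1 with h | h
      · rw [min_eq_left h]
        refine le_min (by rw [sq_abs]) ?_
        nlinarith
      · rw [min_eq_right h]
        refine le_min ?_ ?_
        · rw [← sq_abs t]; nlinarith
        · simpa using h
    have e2 : ∀ t : ℝ, |t * (lam * min |t| 1)| = lam * min (t ^ 2) |t| := by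
      intro t
      have ht := abs_nonneg t
      rw [abs_mul, abs_mul, abs_of_nonneg h0]
      rcases le_total |t| 1 with h | h
      · have h3 : t ^ 2 ≤ |t| := by rw [← sq_abs]; nlinarith
        rw [min_eq_left h, min_eq_left h3, abs_abs, ← sq_abs t]
        ring
      · have h3 : |t| ≤ t ^ 2 := by rw [← sq_abs]; nlinarith
        rw [min_eq_right h, min_eq_right h3, abs_one]
        ring
    have h3 := decoupling k hk w (fun γ x => lam * min |w γ x| 1) 1
      (by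
        refine le_trans (Finset.sum_le_sum fun γ _ => Finset.sum_le_sum fun x _ => e1 (w γ x)) ?_
        simp only [← Finset.mul_sum]
        exact h2)
      (by
        intro γ x
        have h4 : 0 ≤ min |w γ x| 1 := le_min (abs_nonneg _) zero_le_one
        rw [abs_of_nonneg (mul_nonneg h0 h4)]
        calc lam * min |w γ x| 1 ≤ 1 * 1 :=
              mul_le_mul h1 (min_le_right _ _) h4 zero_le_one
          _ = 1 := one_mul 1)
    simp only [e2] at h3
    simp only [← Finset.mul_sum] at h3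
    rw [← hF] at h3
    have h5 : Real.sqrt (4 + 1 ^ 2) ≤ 9 / 4 := by
      rw [show (4 : ℝ) + 1 ^ 2 = 5 by norm_num]
      rw [Real.sqrt_le_left (by norm_num)]
      norm_num
    have h6 : 32 * (k : ℝ) * Real.sqrt (4 + 1 ^ 2) * Mf k w ≤ 32 * k * (9 / 4) * Mf k w :=
      mul_le_mul_of_nonneg_right (mul_le_mul_of_nonneg_left h5 (by positivity)) hM0
    calc lam * F ≤ 32 * (k : ℝ) * Real.sqrt (4 + 1 ^ 2) * Mf k w := h3
      _ ≤ 32 * k * (9 / 4) * Mf k w := h6
      _ = 72 * k * Mf k w := by ring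
  rcases le_total F k with h | h
  · have h1 := key 1 zero_le_one le_rfl (by linarith)
    refine (min_le_left _ _).trans ?_
    rw [div_le_iff₀ hk0]
    linarith
  · have hFpos : 0 < F := lt_of_lt_of_le hk0 h
    have h1 : Real.sqrt (k / F) ^ 2 = k / F := Real.sq_sqrt (by positivity)
    have h2 : k / F ≤ 1 := (div_le_one hFpos).2 h
    have h3 := key (Real.sqrt (k / F)) (Real.sqrt_nonneg _) (Real.sqrt_le_one.2 h2)
      (by rw [h1, div_mul_cancel₀ _ hFpos.ne'])
    have h4 : (k : ℝ) ≤ Real.sqrt (k / F) * F := by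
      have h5 : k / F ≤ Real.sqrt (k / F) := by
        rw [← h1]
        have h6 := Real.sqrt_nonneg (k / F)
        have h7 : Real.sqrt (k / F) ≤ 1 := Real.sqrt_le_one.2 h2
        rw [h1]
        nlinarith
      calc (k : ℝ) = k / F * F := by rw [div_mul_cancel₀ _ hFpos.ne']
        _ ≤ _ := mul_le_mul_of_nonneg_right h5 hF0
    refine (min_le_right _ _).trans ?_
    have h8 : (k : ℝ) * 1 ≤ k * (72 * Mf k w) := by linarith
    exact le_of_mul_le_mul_left h8 hk0

end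

end Pool.Agent.MP_bc5265.E1
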