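import Pool.Agent.Lib.MP_bc5265_an.E1.Rp
import Pool.Agent.Lib.MP_bc5265_an.E1.Prj
import Pool.Agent.Lib.MP_bc5265_an.RQ.BQ

/-!
# The edge `q = 1` of region `R_2`: the second moment of Riesz products (two dimensions)
-/

set_option linter.unusedSectionVars false

open Finset MeasureTheory

namespace Pool.Agent.MP_bc5265.E1

open Pool.Agent.MP_bc5265 Pool.Agent.MP_bc5265.S Pool.Agent.MP_bc5265.R2

noncomputable section

/-- Schur test. -/
theorem schur {Y : Type} [Fintype Y] (W : Y → Y → ℝ) (hs : ∀ x y, W x y = W y x) (ω : ℝ)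
    (hω : ∀ x, ∑ y, |W x y| ≤ ω) (U : Y → ℝ) :
    ∑ x, ∑ y, W x y * (U x * U y) ≤ ω * ∑ x, U x ^ 2 := by
  have h1 : ∀ x y, W x y * (U x * U y) ≤ |W x y| * (U x ^ 2 / 2) + |W x y| * (U y ^ 2 / 2) := by
    intro x y
    rw [← mul_add]
    refine (le_abs_self _).trans ?_
    rw [abs_mul]
    refine mul_le_mul_of_nonneg_left ?_ (abs_nonneg _)
    rw [abs_le]
    constructor <;> nlinarith [sq_nonneg (U x - U y), sq_nonneg (U x + U y)]
  have h2 : ∑ x, ∑ y, |W x y| * (U x ^ 2 / 2) ≤ ω * (∑ x, U x ^ 2) / 2 := by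
    simp only [← Finset.sum_mul]
    rw [Finset.mul_sum, Finset.sum_div]
    refine Finset.sum_le_sum fun x _ => ?_
    have := mul_le_mul_of_nonneg_right (hω x) (by positivity : 0 ≤ U x ^ 2 / 2)
    linarith
  have h3 : ∑ x, ∑ y, |W x y| * (U y ^ 2 / 2) ≤ ω * (∑ x, U x ^ 2) / 2 := by
    rw [Finset.sum_comm]
    have h4 : ∀ y x, |W x y| * (U y ^ 2 / 2) = |W y x| * (U y ^ 2 / 2) := by
      intro y x
      rw [hs x y]
    simp only [h4]
    exact h2
  calc ∑ x, ∑ y, W x y * (U x * U y)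
      ≤ ∑ x, ∑ y, (|W x y| * (U x ^ 2 / 2) + |W x y| * (U y ^ 2 / 2)) :=
        Finset.sum_le_sum fun x _ => Finset.sum_le_sum fun y _ => h1 x y
    _ = ∑ x, ∑ y, |W x y| * (U x ^ 2 / 2) + ∑ x, ∑ y, |W x y| * (U y ^ 2 / 2) := by
        simp only [Finset.sum_add_distrib]
    _ ≤ ω * ∑ x, U x ^ 2 := by linarith

/-- The abstract kernel bound. -/
theorem kernel_abs {Y0 Y1 T : Type} [Fintype Y0] [Fintype Y1] [Fintype T] (k : ℕ)
    (a : Fin k → Y0 → Y0 → ℝ) (b : Fin k → Y1 → Y1 → ℝ) (H : Fin k → T → Y0 → ℝ)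
    (ρ ω : Fin k → ℝ) (R : ℝ) (hR0 : 0 ≤ R)
    (ha : ∀ i j x y, i < j → a j x y ≠ 0 → a i x y = 1)
    (haH : ∀ j x y, a j x y = ∑ t, H j t x * H j t y)
    (hbs : ∀ j x y, b j x y = b j y x) (hb1 : ∀ j x y, 0 ≤ 1 + b j x y)
    (hb : ∀ j x, ∑ y, |b j x y| * ∏ i with i < j, (1 + b i x y) ≤ ω j)
    (hbess : ∀ v : Y0 → ℝ, ∑ j, ρ j * ∑ x, ∑ y, a j x y * (v x * v y) ≤ ∑ x, v x ^ 2)
    (hR : ∀ j, ω j = R * ρ j) (u : Y0 → Y1 → ℝ) :
    ∑ x0, ∑ x1, ∑ y0, ∑ y1, (∏ j, (1 + a j x0 y0 * b j x1 y1) - 1) * (u x0 x1 * u y0 y1) ≤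
      R * ∑ x0, ∑ x1, u x0 x1 ^ 2 := by
  classical
  let W : Fin k → Y1 → Y1 → ℝ := fun j x y => b j x y * ∏ i with i < j, (1 + b i x y)
  have hWs : ∀ j x y, W j x y = W j y x := by
    intro j x y
    simp only [W]
    rw [hbs j x y]
    congr 1
    exact Finset.prod_congr rfl fun i _ => by rw [hbs i x y]
  have hWω : ∀ j x, ∑ y, |W j x y| ≤ ω j := by
    intro j x
    refine le_trans (le_of_eq (Finset.sum_congr rfl fun y _ => ?_)) (hb j x)
    simp only [W]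
    rw [abs_mul, abs_of_nonneg (Finset.prod_nonneg fun i _ => hb1 i x y)]
  -- telescoping
  have htel : ∀ x0 x1 y0 y1, ∏ j, (1 + a j x0 y0 * b j x1 y1) - 1 =
      ∑ j, a j x0 y0 * W j x1 y1 := by
    intro x0 x1 y0 y1
    have h1 := Finset.prod_add_ordered (univ : Finset (Fin k)) (fun _ => (1 : ℝ))
      (fun j => a j x0 y0 * b j x1 y1)
    rw [h1]
    simp only [Finset.prod_const_one, mul_one, add_sub_cancel_left]
    refine Finset.sum_congr rfl fun j _ => ?_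
    by_cases h0 : a j x0 y0 = 0
    · rw [h0]
      simp
    · simp only [W]
      rw [mul_assoc]
      congr 2
      refine Finset.prod_congr rfl fun i hi => ?_
      rw [ha i j x0 y0 (Finset.mem_filter.1 hi).2 h0, one_mul]
  -- one term
  have hterm : ∀ j, ∑ x0, ∑ x1, ∑ y0, ∑ y1, a j x0 y0 * W j x1 y1 * (u x0 x1 * u y0 y1) ≤
      ω j * ∑ x1, ∑ x0, ∑ y0, a j x0 y0 * (u x0 x1 * u y0 x1) := by
    intro j
    have h2 : ∑ x0, ∑ x1, ∑ y0, ∑ y1, a j x0 y0 * W j x1 y1 * (u x0 x1 * u y0 y1) =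
        ∑ t, ∑ x1, ∑ y1, W j x1 y1 * ((∑ x0, H j t x0 * u x0 x1) * (∑ y0, H j t y0 * u y0 y1)) := by
      have h3 : ∀ x0 x1 y0 y1, a j x0 y0 * W j x1 y1 * (u x0 x1 * u y0 y1) =
          ∑ t, W j x1 y1 * ((H j t x0 * u x0 x1) * (H j t y0 * u y0 y1)) := by
        intro x0 x1 y0 y1
        rw [haH, Finset.sum_mul, Finset.sum_mul]
        exact Finset.sum_congr rfl fun t _ => by ring
      have h4 : ∀ t x1 y1, W j x1 y1 * ((∑ x0, H j t x0 * u x0 x1) * (∑ y0, H j t y0 * u y0 y1)) =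
          ∑ x0, ∑ y0, W j x1 y1 * ((H j t x0 * u x0 x1) * (H j t y0 * u y0 y1)) := by
        intro t x1 y1
        rw [Finset.sum_mul_sum, Finset.mul_sum]
        exact Finset.sum_congr rfl fun x0 _ => by rw [Finset.mul_sum]
      simp only [h3, h4]
      calc ∑ x0, ∑ x1, ∑ y0, ∑ y1, ∑ t, W j x1 y1 * ((H j t x0 * u x0 x1) * (H j t y0 * u y0 y1))
          = ∑ x0, ∑ x1, ∑ y0, ∑ t, ∑ y1,
              W j x1 y1 * ((H j t x0 * u x0 x1) * (H j t y0 * u y0 y1)) :=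
            Finset.sum_congr rfl fun x0 _ => Finset.sum_congr rfl fun x1 _ =>
              Finset.sum_congr rfl fun y0 _ => Finset.sum_comm
        _ = ∑ x0, ∑ x1, ∑ t, ∑ y0, ∑ y1,
              W j x1 y1 * ((H j t x0 * u x0 x1) * (H j t y0 * u y0 y1)) :=
            Finset.sum_congr rfl fun x0 _ => Finset.sum_congr rfl fun x1 _ => Finset.sum_comm
        _ = ∑ x0, ∑ t, ∑ x1, ∑ y0, ∑ y1,
              W j x1 y1 * ((H j t x0 * u x0 x1) * (H j t y0 * u y0 y1)) :=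
            Finset.sum_congr rfl fun x0 _ => Finset.sum_comm
        _ = ∑ t, ∑ x0, ∑ x1, ∑ y0, ∑ y1,
              W j x1 y1 * ((H j t x0 * u x0 x1) * (H j t y0 * u y0 y1)) := Finset.sum_comm
        _ = ∑ t, ∑ x1, ∑ x0, ∑ y0, ∑ y1,
              W j x1 y1 * ((H j t x0 * u x0 x1) * (H j t y0 * u y0 y1)) :=
            Finset.sum_congr rfl fun t _ => Finset.sum_comm
        _ = ∑ t, ∑ x1, ∑ x0, ∑ y1, ∑ y0,
              W j x1 y1 * ((H j t x0 * u x0 x1) * (H j t y0 * u y0 y1)) :=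
            Finset.sum_congr rfl fun t _ => Finset.sum_congr rfl fun x1 _ =>
              Finset.sum_congr rfl fun x0 _ => Finset.sum_comm
        _ = ∑ t, ∑ x1, ∑ y1, ∑ x0, ∑ y0,
              W j x1 y1 * ((H j t x0 * u x0 x1) * (H j t y0 * u y0 y1)) :=
            Finset.sum_congr rfl fun t _ => Finset.sum_congr rfl fun x1 _ => Finset.sum_comm
    rw [h2]
    refine (Finset.sum_le_sum fun t _ => schur (W j) (hWs j) (ω j) (hWω j)
      fun x1 => ∑ x0, H j t x0 * u x0 x1).trans (le_of_eq ?_)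
    rw [← Finset.mul_sum, Finset.sum_comm]
    congr 1
    refine Finset.sum_congr rfl fun x1 _ => ?_
    have h5 : ∀ t, (∑ x0, H j t x0 * u x0 x1) ^ 2 =
        ∑ x0, ∑ y0, H j t x0 * H j t y0 * (u x0 x1 * u y0 x1) := by
      intro t
      rw [sq, Finset.sum_mul_sum]
      exact Finset.sum_congr rfl fun x0 _ => Finset.sum_congr rfl fun y0 _ => by ring
    simp only [h5]
    rw [Finset.sum_comm]
    refine Finset.sum_congr rfl fun x0 _ => ?_
    rw [Finset.sum_comm]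
    refine Finset.sum_congr rfl fun y0 _ => ?_
    rw [← Finset.sum_mul, ← haH]
  calc ∑ x0, ∑ x1, ∑ y0, ∑ y1, (∏ j, (1 + a j x0 y0 * b j x1 y1) - 1) * (u x0 x1 * u y0 y1)
      = ∑ x0, ∑ x1, ∑ y0, ∑ y1, ∑ j, a j x0 y0 * W j x1 y1 * (u x0 x1 * u y0 y1) := by
        simp only [htel, Finset.sum_mul]
    _ = ∑ j, ∑ x0, ∑ x1, ∑ y0, ∑ y1, a j x0 y0 * W j x1 y1 * (u x0 x1 * u y0 y1) := by
        rw [Finset.sum_comm (s := (univ : Finset (Fin k)))]
        refine Finset.sum_congr rfl fun x0 _ => ?_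
        rw [Finset.sum_comm (s := (univ : Finset (Fin k)))]
        refine Finset.sum_congr rfl fun x1 _ => ?_
        rw [Finset.sum_comm (s := (univ : Finset (Fin k)))]
        refine Finset.sum_congr rfl fun y0 _ => ?_
        rw [Finset.sum_comm]
    _ ≤ ∑ j, ω j * ∑ x1, ∑ x0, ∑ y0, a j x0 y0 * (u x0 x1 * u y0 x1) :=
        Finset.sum_le_sum fun j _ => hterm j
    _ = R * ∑ x1, ∑ j, ρ j * ∑ x0, ∑ y0, a j x0 y0 * (u x0 x1 * u y0 x1) := by
        rw [Finset.sum_comm (s := (univ : Finset Y1)), Finset.mul_sum]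
        refine Finset.sum_congr rfl fun j _ => ?_
        rw [hR j, ← Finset.mul_sum, mul_assoc]
    _ ≤ R * ∑ x1, ∑ x0, u x0 x1 ^ 2 :=
        mul_le_mul_of_nonneg_left (Finset.sum_le_sum fun x1 _ => hbess fun x0 => u x0 x1) hR0
    _ = R * ∑ x0, ∑ x1, u x0 x1 ^ 2 := by rw [Finset.sum_comm]

/-! ### The kernels of one coordinate -/

/-- `∑_c H_(s,c)(x) H_(s,c)(y)` for the Haar functions of level `s` on the grid. -/
def ck (L s x y : ℕ) : ℝ :=
  if x / 2 ^ (L - s) = y / 2 ^ (L - s) then LPTM.sgm L s x * LPTM.sgm L s y else 0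

theorem sgm_mul_self (L s x : ℕ) : LPTM.sgm L s x * LPTM.sgm L s x = 1 := by
  have := LPTM.sgm_sq L s x
  rwa [sq] at this

theorem ck_symm (L s x y : ℕ) : ck L s x y = ck L s y x := by
  unfold ck
  by_cases h : x / 2 ^ (L - s) = y / 2 ^ (L - s)
  · rw [if_pos h, if_pos h.symm, mul_comm]
  · rw [if_neg h, if_neg fun h' => h h'.symm]

theorem abs_ck (L s x y : ℕ) :
    |ck L s x y| = if x / 2 ^ (L - s) = y / 2 ^ (L - s) then 1 else 0 := by
  unfold ck
  split_ifs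
  · unfold LPTM.sgm
    split_ifs <;> norm_num
  · exact abs_zero

theorem one_add_ck (L s x y : ℕ) : 0 ≤ 1 + ck L s x y := by
  have h1 : |ck L s x y| ≤ 1 := by
    rw [abs_ck]
    split_ifs <;> norm_num
  linarith [(abs_le.1 h1).1]

theorem ck_fine (L s t x y : ℕ) (hst : s < t) (htL : t ≤ L) (h : ck L t x y ≠ 0) :
    ck L s x y = 1 := by
  have h1 : x / 2 ^ (L - t) = y / 2 ^ (L - t) := by
    by_contra hne
    exact h (by unfold ck; rw [if_neg hne])
  have hdiv : ∀ w : ℕ, w ≤ t → x / 2 ^ (L - w) = y / 2 ^ (L - w) := by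
    intro w hw
    have e : 2 ^ (L - w) = 2 ^ (L - t) * 2 ^ (t - w) := by
      rw [← pow_add]; congr 1; omega
    rw [e, ← Nat.div_div_eq_div_mul, ← Nat.div_div_eq_div_mul, h1]
  have h2 : LPTM.sgm L s x = LPTM.sgm L s y := by
    unfold LPTM.sgm
    rw [hdiv (s + 1) hst]
  unfold ck
  rw [if_pos (hdiv s hst.le), h2, sgm_mul_self]

/-- The Haar functions of level `s` on the grid. -/
def hgr (L s c x : ℕ) : ℝ := if x / 2 ^ (L - s) = c then LPTM.sgm L s x else 0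

theorem ck_hgr (L s : ℕ) (x y : Fin (2 ^ L)) :
    ck L s x y = ∑ c : Fin (2 ^ L), hgr L s c x * hgr L s c y := by
  have hx : (x : ℕ) / 2 ^ (L - s) < 2 ^ L := lt_of_le_of_lt (Nat.div_le_self _ _) x.2
  rw [Finset.sum_eq_single (⟨(x : ℕ) / 2 ^ (L - s), hx⟩ : Fin (2 ^ L))]
  · unfold ck hgr
    by_cases h : (x : ℕ) / 2 ^ (L - s) = (y : ℕ) / 2 ^ (L - s)
    · rw [if_pos h, if_pos rfl, if_pos h.symm]
    · have h' : ¬ (y : ℕ) / 2 ^ (L - s) = (x : ℕ) / 2 ^ (L - s) := fun h' => h h'.symm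
      simp only [if_neg h, if_neg h', mul_zero]
  · intro c _ hc
    unfold hgr
    rw [if_neg fun h => hc (Fin.ext h.symm), zero_mul]
  · intro h
    exact absurd (Finset.mem_univ _) h

theorem EM_ck (L s : ℕ) (hs : s + 1 ≤ L) (x y : Fin (2 ^ L)) :
    (EM L (s + 1 + 1) - EM L (s + 1)) x y = ck L s x y / 2 ^ (L - s) := by
  obtain ⟨z, hz⟩ := exists_rep L y y.2
  have hy : y = ⟨E L z, E_lt _ _⟩ := Fin.ext hz.symm
  rw [hy, LPTM.axis L s hs x z]
  have h1 : Ha s ((x : ℕ) / 2 ^ (L - s)) z =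
      if (x : ℕ) / 2 ^ (L - s) = E L z / 2 ^ (L - s) then LPTM.sgm L s (E L z) else 0 := by
    rw [← E_of_le (by omega : s ≤ L) z]
    by_cases h : (x : ℕ) / 2 ^ (L - s) = E s z
    · rw [if_pos h, h]
      exact Ha_sgm L s hs z
    · rw [if_neg h, ← abs_eq_zero, abs_Ha, chi, if_neg fun h' => h h'.symm]
  rw [h1]
  unfold ck
  split_ifs <;> ring

/-- Bessel's inequality. -/
theorem bessel (L k : ℕ) (s : Fin k → ℕ) (hs : ∀ j, s j + 1 ≤ L) (hinj : Function.Injective s)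
    (v : Fin (2 ^ L) → ℝ) :
    ∑ j, (2 : ℝ) ^ (s j) / 2 ^ L * ∑ x : Fin (2 ^ L), ∑ y : Fin (2 ^ L),
      ck L (s j) x y * (v x * v y) ≤ ∑ x, v x ^ 2 := by
  classical
  have hO := specOPS L
  have hmm := hO.1
  have hsym := fun k x y => (hO.2.2.2.2.1 k x y).2
  let Δ : ℕ → M1 L := fun t => EM L (t + 1 + 1) - EM L (t + 1)
  have hΔΔ : ∀ t t', Δ t * Δ t' = if t = t' then Δ t else 0 := by
    intro t t'
    simp only [Δ, mul_sub, sub_mul, hmm]
    rcases lt_trichotomy t t' with h | h | h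
    · rw [if_neg h.ne, min_eq_left (by omega), min_eq_left (by omega), min_eq_left (by omega),
        min_eq_left (by omega)]
      abel
    · subst h
      rw [if_pos rfl, min_self, min_self, min_eq_left (by omega), min_eq_right (by omega)]
      abel
    · rw [if_neg h.ne', min_eq_right (by omega), min_eq_right (by omega), min_eq_right (by omega),
        min_eq_right (by omega)]
      abel
  let P : Fin (2 ^ L) → Fin (2 ^ L) → ℝ := fun x y => ∑ j, Δ (s j) x y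
  have hPs : ∀ x y, P x y = P y x := by
    intro x y
    refine Finset.sum_congr rfl fun j _ => ?_
    show EM L (s j + 1 + 1) x y - EM L (s j + 1) x y = EM L (s j + 1 + 1) y x - EM L (s j + 1) y x
    rw [hsym, hsym (s j + 1)]
  have hPP : ∀ x y, ∑ z, P x z * P z y = P x y := by
    intro x y
    have h1 : ∀ z, P x z * P z y = ∑ j, ∑ j', Δ (s j) x z * Δ (s j') z y := by
      intro z
      simp only [P]
      rw [Finset.sum_mul_sum]
    simp only [h1]
    rw [Finset.sum_comm]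
    refine Finset.sum_congr rfl fun j _ => ?_
    rw [Finset.sum_comm]
    have h2 : ∀ j', ∑ z, Δ (s j) x z * Δ (s j') z y = if j = j' then Δ (s j) x y else 0 := by
      intro j'
      have h3 := congrFun (congrFun (hΔΔ (s j) (s j')) x) y
      rw [Matrix.mul_apply] at h3
      rw [h3]
      by_cases h : j = j'
      · rw [if_pos h, if_pos (by rw [h])]
      · rw [if_neg h, if_neg fun h' => h (hinj h')]
        rfl
    simp only [h2]
    simp
  have h4 := proj_contr P hPs hPP v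
  have h5 : ∑ x, (∑ y, P x y * v y) ^ 2 = ∑ x, ∑ y, P x y * (v x * v y) := by
    have h6 : ∀ x, (∑ y, P x y * v y) ^ 2 = ∑ y, ∑ y', v y * v y' * (P y x * P x y') := by
      intro x
      rw [sq, Finset.sum_mul_sum]
      refine Finset.sum_congr rfl fun y _ => Finset.sum_congr rfl fun y' _ => ?_
      rw [hPs y x]
      ring
    simp only [h6]
    rw [Finset.sum_comm]
    refine Finset.sum_congr rfl fun y _ => ?_
    rw [Finset.sum_comm]
    refine Finset.sum_congr rfl fun y' _ => ?_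
    rw [← Finset.mul_sum, hPP, mul_comm]
  rw [h5] at h4
  refine le_trans (le_of_eq ?_) h4
  have h7 : ∀ x y, P x y * (v x * v y) =
      ∑ j, (2 : ℝ) ^ (s j) / 2 ^ L * (ck L (s j) x y * (v x * v y)) := by
    intro x y
    simp only [P]
    rw [Finset.sum_mul]
    refine Finset.sum_congr rfl fun j _ => ?_
    show (EM L (s j + 1 + 1) - EM L (s j + 1)) x y * (v x * v y) = _
    rw [EM_ck L (s j) (hs j)]
    have h8 : (2 : ℝ) ^ L = 2 ^ (s j) * 2 ^ (L - s j) := by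
      rw [← pow_add]
      congr 1
      have := hs j
      omega
    rw [h8]
    field_simp
  simp only [h7]
  calc ∑ j, (2 : ℝ) ^ (s j) / 2 ^ L * ∑ x : Fin (2 ^ L), ∑ y : Fin (2 ^ L),
        ck L (s j) x y * (v x * v y)
      = ∑ j, ∑ x : Fin (2 ^ L), ∑ y : Fin (2 ^ L),
          (2 : ℝ) ^ (s j) / 2 ^ L * (ck L (s j) x y * (v x * v y)) := by
        refine Finset.sum_congr rfl fun j _ => ?_
        rw [Finset.mul_sum]
        exact Finset.sum_congr rfl fun x _ => Finset.mul_sum _ _ _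
    _ = _ := by
        rw [Finset.sum_comm]
        exact Finset.sum_congr rfl fun x _ => Finset.sum_comm

/-- The mean of the coordinate kernels. -/
theorem ck_mean (L k : ℕ) (s : Fin k → ℕ) (hs : ∀ j, s j + 1 ≤ L) (hanti : StrictAnti s)
    (j : Fin k) (x : Fin (2 ^ L)) :
    ∑ y : Fin (2 ^ L), |ck L (s j) x y| * ∏ i with i < j, (1 + ck L (s i) x y) =
      2 ^ L / 2 ^ (s j) := by
  classical
  set a := s j with ha
  have haL : a ≤ L := by have := hs j; omega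
  have hc : (x : ℕ) / 2 ^ (L - a) < 2 ^ a := by
    have h3 : 2 ^ L = 2 ^ a * 2 ^ (L - a) := by
      rw [← pow_add]; congr 1; omega
    rw [Nat.div_lt_iff_lt_mul (by positivity), ← h3]
    exact x.2
  let θ : Fin k → ℕ → ℝ := fun i e =>
    if (x : ℕ) / 2 ^ (L - s i) = e then LPTM.sgm L (s i) x else 0
  have h1 := riesz_mean (univ.filter fun i : Fin k => i < j) s (hanti.injective.injOn) a
    (fun i hi => (hanti (Finset.mem_filter.1 hi).2).le) θ _ hc
  have h2 : ∀ z : Circ, chi a ((x : ℕ) / 2 ^ (L - a)) z *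
      ∏ i with i < j, (1 + θ i (E (s i) z) * σ1 (s i) z) =
      (fun y : ℕ => |ck L a x y| * ∏ i with i < j, (1 + ck L (s i) x y)) (E L z) := by
    intro z
    simp only
    congr 1
    · rw [abs_ck, chi, E_of_le haL z]
      by_cases h : (x : ℕ) / 2 ^ (L - a) = E L z / 2 ^ (L - a)
      · rw [if_pos h.symm, if_pos h]
      · rw [if_neg fun h' => h h'.symm, if_neg h]
    · refine Finset.prod_congr rfl fun i _ => ?_
      congr 1
      have hsi : s i ≤ L := by have := hs i; omega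
      simp only [θ]
      unfold ck
      rw [E_of_le hsi z]
      have h3 : σ1 (s i) z = LPTM.sgm L (s i) (E L z) := Ha_sgm L (s i) (hs i) z
      rw [h3]
      split_ifs <;> simp
  simp only [h2] at h1
  rw [circ_sum L (fun y : ℕ => |ck L a x y| * ∏ i with i < j, (1 + ck L (s i) x y))] at h1
  rw [← Fin.sum_univ_eq_sum_range
    (fun y : ℕ => |ck L a x y| * ∏ i with i < j, (1 + ck L (s i) x y)) (2 ^ L)] at h1
  rw [div_eq_iff (by positivity)] at h1
  rw [h1]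
  ring

/-- The second moment of the Riesz product, on the grid. -/
theorem kernel_grid (L k n : ℕ) (s0 s1 : Fin k → ℕ) (h0 : ∀ j, s0 j + 1 ≤ L)
    (h1 : ∀ j, s1 j + 1 ≤ L) (hm0 : StrictMono s0) (hm1 : StrictAnti s1)
    (hsum : ∀ j, s0 j + s1 j = n) (u : Fin (2 ^ L) → Fin (2 ^ L) → ℝ) :
    ∑ x0 : Fin (2 ^ L), ∑ x1 : Fin (2 ^ L), ∑ y0 : Fin (2 ^ L), ∑ y1 : Fin (2 ^ L),
      (∏ j, (1 + ck L (s0 j) x0 y0 * ck L (s1 j) x1 y1) - 1) * (u x0 x1 * u y0 y1) ≤
      (2 ^ L * 2 ^ L / 2 ^ n) * ∑ x0, ∑ x1, u x0 x1 ^ 2 := by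
  refine kernel_abs k (fun j (x y : Fin (2 ^ L)) => ck L (s0 j) x y)
    (fun j (x y : Fin (2 ^ L)) => ck L (s1 j) x y)
    (fun j (c x : Fin (2 ^ L)) => hgr L (s0 j) c x) (fun j => (2 : ℝ) ^ (s0 j) / 2 ^ L)
    (fun j => 2 ^ L / 2 ^ (s1 j)) (2 ^ L * 2 ^ L / 2 ^ n) (by positivity) ?_ ?_ ?_ ?_ ?_ ?_ ?_ u
  · intro i j x y hij hne
    exact ck_fine L (s0 i) (s0 j) x y (hm0 hij) (by have := h0 j; omega) hne
  · intro j x y
    exact ck_hgr L (s0 j) x y
  · intro j x y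
    exact ck_symm _ _ _ _
  · intro j x y
    exact one_add_ck _ _ _ _
  · intro j x
    exact (ck_mean L k s1 h1 hm1 j x).le
  · intro v
    exact bessel L k s0 h0 hm0.injective v
  · intro j
    have h2 : (2 : ℝ) ^ n = 2 ^ (s0 j) * 2 ^ (s1 j) := by rw [← pow_add, hsum]
    rw [h2]
    field_simp

end

end Pool.Agent.MP_bc5265.E1
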