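import Pool.Agent.Lib.MP_bc5265_an.R2.WTS

/-!
# The edge `q = 1` of region `R_2`: Haar sums of one layer in `L_Q`, `Q > 2`
-/

set_option linter.unusedSectionVars false

open MeasureTheory Finset Matrix
open scoped ENNReal

namespace Pool.Agent.MP_bc5265.E1

open Pool.Agent.MP_bc5265 Pool.Agent.MP_bc5265.S Pool.Agent.MP_bc5265.R2

noncomputable section

variable {d : ℕ}

/-- A combination of the Haar functions of level `s`. -/
def blk (s : Fin d → ℕ) (a : (∀ j, Fin (2 ^ s j)) → ℝ) (x : Torus d) : ℝ :=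
  ∑ k : ∀ j, Fin (2 ^ s j), a k * Haf s (fun j => (k j : ℕ)) x

theorem Haf_eq_zero (s : Fin d → ℕ) (k : ∀ j, Fin (2 ^ s j)) (x : Torus d) (h : kap s x ≠ k) :
    Haf s (fun j => (k j : ℕ)) x = 0 := by
  rw [← abs_eq_zero, abs_Haf, Chi_eq, if_neg h]

theorem blk_eq (s : Fin d → ℕ) (a : (∀ j, Fin (2 ^ s j)) → ℝ) (x : Torus d) :
    blk s a x = a (kap s x) * Haf s (fun j => (kap s x j : ℕ)) x := by
  unfold blk
  refine Finset.sum_eq_single _ (fun k _ hk => ?_) fun h => absurd (Finset.mem_univ _) h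
  rw [Haf_eq_zero s k x (Ne.symm hk), mul_zero]

theorem Haf_sq (s : Fin d → ℕ) (k : Fin d → ℕ) (x : Torus d) : Haf s k x ^ 2 = Chi s k x := by
  rw [← sq_abs, abs_Haf]
  unfold Chi
  rw [← Finset.prod_pow]
  refine Finset.prod_congr rfl fun j _ => ?_
  unfold chi
  split_ifs <;> norm_num

theorem blk_sq (s : Fin d → ℕ) (a : (∀ j, Fin (2 ^ s j)) → ℝ) (x : Torus d) :
    blk s a x ^ 2 = a (kap s x) ^ 2 := by
  rw [blk_eq, mul_pow, Haf_sq, Chi_eq, if_pos rfl, mul_one]

theorem Ha_sgm (L s : ℕ) (hs : s + 1 ≤ L) (z : Circ) : Ha s (E s z) z = LPTM.sgm L s (E L z) := by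
  obtain ⟨m, hm⟩ : ∃ m, L = s + 1 + m := ⟨L - (s + 1), by omega⟩
  have e1 : L - (s + 1) = m := by omega
  have e3 : E L z / 2 ^ m = E (s + 1) z := by
    rw [hm]
    exact E_div (s + 1) m z
  have e4 := E_div s 1 z
  rw [pow_one] at e4
  unfold Ha LPTM.sgm
  rw [e1, e3]
  by_cases h : E (s + 1) z % 2 = 0
  · have h2 : E (s + 1) z = 2 * E s z := by omega
    rw [if_pos h2, if_pos h]
  · have h2 : ¬ E (s + 1) z = 2 * E s z := by omega
    have h3 : E (s + 1) z = 2 * E s z + 1 := by omega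
    rw [if_neg h2, if_pos h3, if_neg h]

/-- The cell of level `s` containing the grid cell `X`. -/
def up (L : ℕ) (s : Fin d → ℕ) (hs : ∀ j, s j ≤ L) (X : Gr d L) : ∀ j, Fin (2 ^ s j) := fun j =>
  ⟨(X j : ℕ) / 2 ^ (L - s j), by
    have h1 := (X j).2
    have h3 : 2 ^ L = 2 ^ s j * 2 ^ (L - s j) := by
      rw [← pow_add]; congr 1; have := hs j; omega
    rw [Nat.div_lt_iff_lt_mul (by positivity)]
    rwa [← h3]⟩

theorem up_gx (L : ℕ) (s : Fin d → ℕ) (hs : ∀ j, s j ≤ L) (x : Torus d) :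
    up L s hs (gx L x) = kap s x := by
  funext j
  apply Fin.ext
  show E L (x j) / 2 ^ (L - s j) = E (s j) (x j)
  have h := E_div (s j) (L - s j) (x j)
  rw [Nat.add_sub_cancel' (hs j)] at h
  exact h

/-- The grid function of a block. -/
def ub (L : ℕ) (s : Fin d → ℕ) (hs : ∀ j, s j ≤ L) (a : (∀ j, Fin (2 ^ s j)) → ℝ)
    (X : Gr d L) : ℝ :=
  a (up L s hs X) * ∏ j, LPTM.sgm L (s j) (X j)

theorem blk_ub (L : ℕ) (s : Fin d → ℕ) (hs : ∀ j, s j + 1 ≤ L) (a : (∀ j, Fin (2 ^ s j)) → ℝ)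
    (x : Torus d) : blk s a x = ub L s (fun j => (Nat.le_succ _).trans (hs j)) a (gx L x) := by
  rw [blk_eq, ub, up_gx]
  congr 1
  unfold Haf
  refine Finset.prod_congr rfl fun j _ => ?_
  exact Ha_sgm L (s j) (hs j) (x j)

theorem measurable_blk (s : Fin d → ℕ) (a : (∀ j, Fin (2 ^ s j)) → ℝ) : Measurable (blk s a) := by
  unfold blk
  exact Finset.measurable_sum _ fun k _ => (measurable_Haf _ _).const_mul _

theorem integral_Haf_Haf (s : Fin d → ℕ) (k κ : ∀ j, Fin (2 ^ s j)) :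
    ∫ x, Haf s (fun j => (k j : ℕ)) x * Haf s (fun j => (κ j : ℕ)) x ∂(μT d) =
      if k = κ then 1 / 2 ^ (∑ j, s j) else 0 := by
  by_cases h : k = κ
  · subst h
    rw [if_pos rfl]
    have h1 : ∀ x : Torus d, Haf s (fun j => (k j : ℕ)) x * Haf s (fun j => (k j : ℕ)) x =
        Chi s (fun j => (k j : ℕ)) x := by
      intro x
      rw [← sq, Haf_sq]
    simp only [h1]
    exact integral_Chi _ _ fun j => (k j).2
  · rw [if_neg h]
    have h1 : ∀ x : Torus d, Haf s (fun j => (k j : ℕ)) x * Haf s (fun j => (κ j : ℕ)) x = 0 := by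
      intro x
      by_cases h2 : kap s x = k
      · rw [Haf_eq_zero s κ x (by rw [h2]; exact h), mul_zero]
      · rw [Haf_eq_zero s k x h2, zero_mul]
    simp only [h1, integral_zero]

theorem integral_blk_Haf (s : Fin d → ℕ) (a : (∀ j, Fin (2 ^ s j)) → ℝ)
    (κ : ∀ j, Fin (2 ^ s j)) :
    ∫ x, blk s a x * Haf s (fun j => (κ j : ℕ)) x ∂(μT d) = a κ / 2 ^ (∑ j, s j) := by
  have h1 : ∀ x : Torus d, blk s a x * Haf s (fun j => (κ j : ℕ)) x =
      ∑ k : ∀ j, Fin (2 ^ s j), a k * (Haf s (fun j => (k j : ℕ)) x *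
        Haf s (fun j => (κ j : ℕ)) x) := by
    intro x
    unfold blk
    rw [Finset.sum_mul]
    exact Finset.sum_congr rfl fun k _ => by ring
  simp only [h1]
  rw [integral_finsetSum]
  · simp only [integral_const_mul, integral_Haf_Haf]
    simp
    ring
  · intro k _
    refine Integrable.const_mul ?_ _
    refine Integrable.of_bound (C := 1)
      ((measurable_Haf _ _).mul (measurable_Haf _ _)).aestronglyMeasurable ?_
    filter_upwards with x
    rw [norm_mul, Real.norm_eq_abs, Real.norm_eq_abs, abs_Haf, abs_Haf]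
    exact mul_le_one₀ (Chi_le_one _ _ _) (Chi_nonneg _ _ _) (Chi_le_one _ _ _)

theorem avc_comp (L : ℕ) (v : Gr d L → ℝ) (F : Torus d → ℝ) (h : ∀ x, F x = v (gx L x)) :
    avc F L = v := by
  funext X
  unfold avc
  have h1 := ParsM.integral_comp_gx (fun k : Gr d L => v k * if k = X then (2 : ℝ) ^ (d * L) else 0)
  simp only [h]
  rw [h1]
  simp

theorem Dt_ub (n : ℕ) (s : Fin d → ℕ) (hs : ∑ j, s j = n) (hs' : ∀ j, s j ≤ n + 1)
    (a : (∀ j, Fin (2 ^ s j)) → ℝ) :
    (Dt (n + 1) (fun j => s j + 1) *ᵥ ub (n + 1) s hs' a) = ub (n + 1) s hs' a := by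
  have hs1 : ∀ j, s j + 1 ≤ n + 1 := by
    intro j
    have h1 : s j ≤ n := by
      rw [← hs]
      exact Finset.single_le_sum (fun _ _ => Nat.zero_le _) (Finset.mem_univ j)
    omega
  have hav := avc_comp (n + 1) (ub (n + 1) s hs' a) (blk s a) (blk_ub (n + 1) s hs1 a)
  have hint : Integrable (blk s a) (μT d) := by
    unfold blk
    refine integrable_finsetSum _ fun k _ => Integrable.const_mul ?_ _
    refine Integrable.of_bound (C := 1) (measurable_Haf _ _).aestronglyMeasurable ?_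
    filter_upwards with x
    rw [Real.norm_eq_abs, abs_Haf]
    exact Chi_le_one _ _ _
  funext X
  have h1 := LPTM.coeff n (n + 1) rfl s hs (blk s a) hint X
  rw [hav] at h1
  rw [h1]
  have h2 : (fun j => (X j : ℕ) / 2 ^ (n + 1 - s j)) =
      fun j => ((up (n + 1) s hs' X j : Fin (2 ^ s j)) : ℕ) := rfl
  rw [h2, integral_blk_Haf, hs]
  unfold ub
  field_simp

/-- Littlewood-Paley inequality for one layer of Haar functions. -/
theorem lp_layer (hLPD : SpecLPD) (Q : ℝ) (d : ℕ) (hQ : 2 < Q) : ∃ C : ℝ, 0 < C ∧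
    ∀ (n : ℕ) (B : Type) [Fintype B] (lv : B → Fin d → ℕ), Function.Injective lv →
      (∀ b, ∑ j, lv b j = n) → ∀ a : (Σ b, ∀ j, Fin (2 ^ lv b j)) → ℝ,
        ∫ x, |∑ i : (Σ b, ∀ j, Fin (2 ^ lv b j)),
          a i * Haf (lv i.1) (fun j => (i.2 j : ℕ)) x| ^ Q ∂(μT d) ≤
        C * (∑ i, a i ^ 2) ^ (Q / 2 - 1) * ((∑ i, a i ^ 2) / 2 ^ n) := by
  obtain ⟨C, hC, hL⟩ := hLPD Q d hQ
  refine ⟨C, hC, ?_⟩
  intro n B _ lv hlv hsum a
  classical
  have hQ0 : 0 < Q := by linarith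
  have hln : ∀ b j, lv b j ≤ n := by
    intro b j
    rw [← hsum b]
    exact Finset.single_le_sum (f := lv b) (fun _ _ => Nat.zero_le _) (Finset.mem_univ j)
  have hl1 : ∀ b j, lv b j ≤ n + 1 := fun b j => (hln b j).trans (Nat.le_succ n)
  have hl2 : ∀ b j, lv b j + 1 ≤ n + 1 := fun b j => Nat.succ_le_succ (hln b j)
  let U : B → Gr d (n + 1) → ℝ := fun b => ub (n + 1) (lv b) (hl1 b) fun k => a ⟨b, k⟩
  let tb : B → Fin d → ℕ := fun b j => lv b j + 1
  have htb : Function.Injective tb := by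
    intro b b' h
    apply hlv
    funext j
    have := congrFun h j
    simpa [tb] using this
  have htbox : ∀ b, tb b ∈ box d (n + 1 + 1) := by
    intro b
    unfold R2.box
    rw [Fintype.mem_piFinset]
    intro j
    rw [Finset.mem_range]
    have := hln b j
    simp only [tb]
    omega
  let u : (Fin d → ℕ) → Gr d (n + 1) → ℝ := fun t X => ∑ b, if tb b = t then U b X else 0
  have hu : ∀ b, u (tb b) = U b := by
    intro b
    funext X
    simp only [u]
    rw [Finset.sum_eq_single b]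
    · rw [if_pos rfl]
    · intro b' _ hb'
      rw [if_neg fun h => hb' (htb h)]
    · intro h
      exact absurd (Finset.mem_univ b) h
  have hu0 : ∀ t, (∀ b, tb b ≠ t) → u t = 0 := by
    intro t ht
    funext X
    simp only [u]
    exact Finset.sum_eq_zero fun b _ => if_neg (ht b)
  have hsplit : ∀ f : (Fin d → ℕ) → ℝ, (∀ t, (∀ b, tb b ≠ t) → f t = 0) →
      ∑ t ∈ box d (n + 1 + 1), f t = ∑ b, f (tb b) := by
    intro f hf
    rw [← Finset.sum_image (s := Finset.univ) (g := tb) (f := f) fun x _ y _ h => htb h]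
    refine (Finset.sum_subset ?_ ?_).symm
    · intro t ht
      rw [Finset.mem_image] at ht
      obtain ⟨b, -, rfl⟩ := ht
      exact htbox b
    · intro t _ ht
      apply hf
      intro b hb
      exact ht (Finset.mem_image.2 ⟨b, Finset.mem_univ _, hb⟩)
  have h1 := hL (n + 1) u
  have h2 : ∀ X : Gr d (n + 1), ∑ t ∈ box d (n + 1 + 1), (Dt (n + 1) t *ᵥ u t) X = ∑ b, U b X := by
    intro X
    rw [hsplit (fun t => (Dt (n + 1) t *ᵥ u t) X)]
    · refine Finset.sum_congr rfl fun b _ => ?_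
      rw [hu b]
      exact congrFun (Dt_ub n (lv b) (hsum b) (hl1 b) fun k => a ⟨b, k⟩) X
    · intro t ht
      simp only [hu0 t ht, Matrix.mulVec_zero, Pi.zero_apply]
  have h3 : ∀ X : Gr d (n + 1), ∑ t ∈ box d (n + 1 + 1), u t X ^ 2 = ∑ b, U b X ^ 2 := by
    intro X
    rw [hsplit (fun t => u t X ^ 2)]
    · exact Finset.sum_congr rfl fun b _ => by rw [hu b]
    · intro t ht
      rw [hu0 t ht]
      simp
  simp only [h2, h3] at h1
  -- the torus
  have h4 : ∀ x : Torus d, ∑ i : (Σ b, ∀ j, Fin (2 ^ lv b j)),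
      a i * Haf (lv i.1) (fun j => (i.2 j : ℕ)) x = ∑ b, U b (gx (n + 1) x) := by
    intro x
    rw [Fintype.sum_sigma]
    refine Finset.sum_congr rfl fun b _ => ?_
    exact blk_ub (n + 1) (lv b) (hl2 b) (fun k => a ⟨b, k⟩) x
  simp only [h4]
  rw [ParsM.integral_comp_gx (fun X : Gr d (n + 1) => |∑ b, U b X| ^ Q)]
  set A : ℝ := ∑ i, a i ^ 2 with hA
  have hA0 : 0 ≤ A := Finset.sum_nonneg fun i _ => sq_nonneg _
  have hUsq : ∀ (b : B) (X : Gr d (n + 1)), U b X ^ 2 = a ⟨b, up (n + 1) (lv b) (hl1 b) X⟩ ^ 2 := by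
    intro b X
    simp only [U, ub]
    rw [mul_pow, ← Finset.prod_pow]
    simp only [LPTM.sgm_sq, Finset.prod_const_one, mul_one]
  have hle : ∀ X : Gr d (n + 1), ∑ b, U b X ^ 2 ≤ A := by
    intro X
    rw [hA, Fintype.sum_sigma]
    refine Finset.sum_le_sum fun b _ => ?_
    rw [hUsq]
    exact Finset.single_le_sum (f := fun k => a ⟨b, k⟩ ^ 2) (fun k _ => sq_nonneg _)
      (Finset.mem_univ _)
  have h5 : ∀ X : Gr d (n + 1), (∑ b, U b X ^ 2) ^ (Q / 2) ≤
      A ^ (Q / 2 - 1) * ∑ b, U b X ^ 2 := by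
    intro X
    have h0 : 0 ≤ ∑ b, U b X ^ 2 := Finset.sum_nonneg fun b _ => sq_nonneg _
    have e : (∑ b, U b X ^ 2) ^ (Q / 2) = (∑ b, U b X ^ 2) ^ (Q / 2 - 1) * ∑ b, U b X ^ 2 := by
      rcases h0.eq_or_lt with h | h
      · rw [← h, mul_zero, Real.zero_rpow (by positivity)]
      · rw [Real.rpow_sub_one h.ne']
        field_simp
    rw [e]
    exact mul_le_mul_of_nonneg_right (Real.rpow_le_rpow h0 (hle X) (by linarith)) h0
  have h6 : ∀ b, (∑ X, U b X ^ 2) / 2 ^ (d * (n + 1)) = (∑ k, a ⟨b, k⟩ ^ 2) / 2 ^ n := by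
    intro b
    have h7 := ParsM.integral_comp_gx (fun X : Gr d (n + 1) => U b X ^ 2)
    rw [← h7]
    have h8 : ∀ x : Torus d, U b (gx (n + 1) x) ^ 2 =
        ∑ k : ∀ j, Fin (2 ^ lv b j), a ⟨b, k⟩ ^ 2 * Chi (lv b) (fun j => (k j : ℕ)) x := by
      intro x
      rw [sum_mul_Chi (lv b) (fun k => a ⟨b, k⟩ ^ 2) x, hUsq, up_gx]
    simp only [h8]
    rw [integral_finsetSum]
    · rw [Finset.sum_div]
      refine Finset.sum_congr rfl fun k _ => ?_
      rw [integral_const_mul, integral_Chi _ _ (fun j => (k j).2), hsum b, mul_one_div]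
    · intro k _
      refine Integrable.const_mul ?_ _
      refine Integrable.of_bound (C := 1) (measurable_Chi _ _).aestronglyMeasurable ?_
      filter_upwards with x
      rw [Real.norm_of_nonneg (Chi_nonneg _ _ _)]
      exact Chi_le_one _ _ _
  have hN : (0 : ℝ) < 2 ^ (d * (n + 1)) := by positivity
  calc (∑ X : Gr d (n + 1), |∑ b, U b X| ^ Q) / 2 ^ (d * (n + 1))
      ≤ (C * ∑ X : Gr d (n + 1), A ^ (Q / 2 - 1) * ∑ b, U b X ^ 2) / 2 ^ (d * (n + 1)) := by
        refine div_le_div_of_nonneg_right (h1.trans ?_) hN.le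
        exact mul_le_mul_of_nonneg_left (Finset.sum_le_sum fun X _ => h5 X) hC.le
    _ = C * A ^ (Q / 2 - 1) * ∑ b, ((∑ X, U b X ^ 2) / 2 ^ (d * (n + 1))) := by
        rw [← Finset.mul_sum, Finset.sum_comm, ← Finset.sum_div]
        ring
    _ = C * A ^ (Q / 2 - 1) * (A / 2 ^ n) := by
        simp only [h6]
        rw [← Finset.sum_div, hA, Fintype.sum_sigma]

end

end Pool.Agent.MP_bc5265.E1
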