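import Pool.Agent.Lib.MP_bc5265_an.E1.Tra
import Pool.Agent.Lib.MP_bc5265_an.E1.Lpu
import Pool.Agent.Lib.MP_bc5265_an.RQ.BQ

/-!
# The edge `q = 1` of region `R_2`: the lower bound up to `(log m)^ε`
-/

set_option linter.unusedSectionVars false

open MeasureTheory Finset
open scoped ENNReal

namespace Pool.Agent.MP_bc5265.E1

open Pool.Agent.MP_bc5265 Pool.Agent.MP_bc5265.R2

noncomputable section

theorem sum_Chi {d : ℕ} (s : Fin d → ℕ) (x : Torus d) :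
    ∑ k : ∀ j, Fin (2 ^ s j), Chi s (fun j => (k j : ℕ)) x = 1 := by
  have h := sum_mul_Chi s (fun _ => (1 : ℝ)) x
  simpa using h

theorem Phi_sq_le {d : ℕ} (s k : Fin d → ℕ) (x : Torus d) : Phi s k x ^ 2 ≤ Chi s k x := by
  rw [Phi_apply, ← Finset.prod_pow]
  unfold Chi
  refine Finset.prod_le_prod (fun j _ => sq_nonneg _) fun j _ => ?_
  have h1 := abs_Ps_le (s j) (k j) (x j)
  have h2 := abs_Ps_le_one (s j) (k j) (x j)
  rw [← sq_abs]
  nlinarith [abs_nonneg (Ps (s j) (k j) (x j))]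

theorem sum_Phi_sq {d : ℕ} {B : Type} [Fintype B] (lv : B → Fin d → ℕ) (x : Torus d) :
    ∑ i : Ix lv, Phi (lv i.1) (fun j => (i.2 j : ℕ)) x ^ 2 ≤ Fintype.card B := by
  rw [Fintype.sum_sigma]
  calc ∑ b, ∑ k : ∀ j, Fin (2 ^ lv b j), Phi (lv b) (fun j => (k j : ℕ)) x ^ 2
      ≤ ∑ b, ∑ k : ∀ j, Fin (2 ^ lv b j), Chi (lv b) (fun j => (k j : ℕ)) x :=
        Finset.sum_le_sum fun b _ => Finset.sum_le_sum fun k _ => Phi_sq_le _ _ _
    _ = Fintype.card B := by simp [sum_Chi]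

theorem sum_Haf_sq {d : ℕ} {B : Type} [Fintype B] (lv : B → Fin d → ℕ) (x : Torus d) :
    ∑ i : Ix lv, Haf (lv i.1) (fun j => (i.2 j : ℕ)) x ^ 2 ≤ Fintype.card B := by
  rw [Fintype.sum_sigma]
  simp only [Haf_sq, sum_Chi]
  simp

theorem card_Ix {d : ℕ} {B : Type} [Fintype B] (lv : B → Fin d → ℕ) (n : ℕ)
    (hs : ∀ b, ∑ j, lv b j = n) : Fintype.card (Ix lv) = Fintype.card B * 2 ^ n := by
  rw [Fintype.card_sigma]
  have h : ∀ b, Fintype.card (∀ j, Fin (2 ^ lv b j)) = 2 ^ n := by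
    intro b
    rw [Fintype.card_pi]
    simp only [Fintype.card_fin]
    rw [Finset.prod_pow_eq_pow_sum, hs b]
  simp [h]

/-- Biorthogonality. -/
theorem biorth {d : ℕ} {B : Type} [Fintype B] [DecidableEq B] (lv : B → Fin d → ℕ) (n : ℕ)
    (hlv : Function.Injective lv) (hs : ∀ b, ∑ j, lv b j = n) (i i' : Ix lv) :
    ∫ x, Phi (lv i'.1) (fun j => (i'.2 j : ℕ)) x * Haf (lv i.1) (fun j => (i.2 j : ℕ)) x ∂(μT d) =
      if i = i' then (2 * c0) ^ d / 2 ^ n else 0 := by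
  obtain ⟨b, x⟩ := i
  obtain ⟨b', x'⟩ := i'
  by_cases hb : b = b'
  · subst hb
    rw [integral_same _ _ _ (fun j => (x' j).2), hs b]
    by_cases hx : x = x'
    · subst hx
      simp
    · rw [if_neg, if_neg]
      · intro h2
        apply hx
        rw [Sigma.mk.injEq] at h2
        exact eq_of_heq h2.2
      · intro h2
        apply hx
        funext j
        exact Fin.ext (congrFun h2 j)
  · rw [if_neg, integral_ne _ _ _ _ (fun j => (x' j).2)]
    · intro h2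
      exact hb (hlv h2)
    · rw [hs, hs]
    · intro h2
      apply hb
      rw [Sigma.mk.injEq] at h2
      exact h2.1

/-- The lower bound with an explicit number of levels. -/
theorem lowB_k (hLPD : SpecLPD) (𝕜 : Type) [RCLike 𝕜] (e l : ℕ) (p r Q : ℝ)
    (hr : 0 < r) (hl : r < l) (hp : 1 ≤ p) (hQ : 2 < Q) : ∃ c : ℝ, 0 < c ∧
    ∀ k m : ℕ, 1 ≤ k → 8 * m ≤ 2 ^ (e * k) * k ^ e →
      ∀ (Λ : Fin m → (C(Torus (e + 1), 𝕜) →ₗ[𝕜] 𝕜)) (ψ : Fin m → Torus (e + 1) → 𝕜),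
        (∀ i, MemLp (ψ i) 1 (μT (e + 1))) →
        ∃ f ∈ HClass 𝕜 (e + 1) l r (ENNReal.ofReal p),
          ENNReal.ofReal (c * (((2 : ℝ) ^ (e * k)) ^ (-r) * ((k : ℝ) ^ e) ^ (1 / p - 1 / Q))) ≤
            eLpNorm (fun y => f y - ∑ i, Λ i f * ψ i y) 1 (μT (e + 1)) := by
  obtain ⟨c1, hc1, htr⟩ := transfer 𝕜 l r (e + 1) hr hl
  obtain ⟨C, hC, hLP⟩ := lp_layer hLPD Q (e + 1) hQ
  have hQ0 : 0 < Q := by linarith
  have hp0 : 0 < p := by linarith
  set kap : ℝ := (2 * c0) ^ (e + 1) with hkap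
  have hkap0 : 0 < kap := by have := c0_pos; positivity
  -- the constant
  set A : ℝ := (4 * C / kap) ^ (1 / Q) with hA
  have hA0 : 0 < A := by rw [hA]; positivity
  refine ⟨c1 * (kap / (128 * (2 + A))), by positivity, ?_⟩
  intro k m hk hm Λ ψ hψ
  set n := e * k with hn
  set K : ℕ := k ^ e with hK
  have hK1 : 1 ≤ K := Nat.one_le_pow _ _ hk
  have hK0 : (0 : ℝ) < K := by exact_mod_cast hK1
  have hK1' : (1 : ℝ) ≤ K := by exact_mod_cast hK1
  set κ : ℕ := Nat.clog 2 K with hκ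
  have hκ1 : K ≤ 2 ^ κ := Nat.le_pow_clog (by norm_num) K
  have hκ2 : 2 ^ κ ≤ 2 * K := by
    rcases Nat.lt_or_ge 1 K with h | h
    · have h1 := Nat.pow_pred_clog_lt_self (b := 2) (by norm_num) h
      have h2 : 1 ≤ κ := Nat.clog_pos (by norm_num) h
      have h3 : 2 ^ κ = 2 * 2 ^ (κ.pred) := by
        rw [← pow_succ', Nat.pred_eq_sub_one, Nat.sub_add_cancel h2]
      rw [h3]
      exact Nat.mul_le_mul_left _ h1.le
    · have h1 : K = 1 := le_antisymm h hK1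
      rw [hκ, h1]
      simp
  have hκn : κ ≤ n := by
    rw [hκ]
    refine Nat.clog_le_of_le_pow ?_
    calc K ≤ (2 ^ k) ^ e := Nat.pow_le_pow_left Nat.lt_two_pow_self.le e
      _ = 2 ^ n := by rw [← pow_mul, mul_comm]
  obtain ⟨eb, -⟩ := exists_eb (lev e k) n κ (lev_sum e k) hκn
  obtain ⟨f, hf, hfe⟩ := htr (Fin e → Fin k) (lev e k) n κ (lev_injective e k) (lev_sum e k) hκn eb
    p hp m Λ ψ hψ
  refine ⟨f, hf, le_trans (ENNReal.ofReal_le_ofReal ?_) hfe⟩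
  have hcardB : Fintype.card (Fin e → Fin k) = K := by
    rw [Fintype.card_fun, Fintype.card_fin, Fintype.card_fin]
  have hcI := card_Ix (lev e k) n (lev_sum e k)
  rw [hcardB] at hcI
  have hΘ0 : 0 < (4 * C * K / kap) ^ (1 / Q) := by positivity
  have hmain := abstract_q1 (μT (e + 1)) (grp (lev e k) n κ eb)
    (fun i : Ix (lev e k) => (Phi (lev e k i.1) (fun j => (i.2 j : ℕ)) : Torus (e + 1) → ℝ))
    (fun i => Haf (lev e k i.1) (fun j => (i.2 j : ℕ))) (psr ψ)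
    (fun j i => Lmap (lev e k) Λ (Pi.single i 1) j) (κ := kap) (C := C) (N := 2 ^ n)
    (K := (K : ℝ)) (Q := Q) (Θ := (4 * C * K / kap) ^ (1 / Q)) hkap0 hC (by positivity) hK0 hQ
    (by exact_mod_cast hκ1) (by exact_mod_cast hκ2)
    (by rw [hcI]; push_cast; ring)
    (by
      rw [Fintype.card_sum, Fintype.card_fin]
      have : 4 * (m + m) ≤ K * 2 ^ n := by
        calc 4 * (m + m) = 8 * m := by ring
          _ ≤ 2 ^ n * K := hm
          _ = K * 2 ^ n := mul_comm _ _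
      exact_mod_cast this)
    (fun i => integrable_Phi _ _) (fun j => integrable_psr ψ hψ j)
    (fun i => measurable_Haf _ _)
    (fun i x => by rw [abs_Haf]; exact Chi_le_one _ _ _)
    (fun x => by rw [← hcardB]; exact sum_Phi_sq (lev e k) x)
    (fun x => by rw [← hcardB]; exact sum_Haf_sq (lev e k) x)
    (fun i i' => biorth (lev e k) n (lev_injective e k) (lev_sum e k) i i')
    (fun a => hLP n (Fin e → Fin k) (lev e k) (lev_injective e k) (lev_sum e k) a)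
    hΘ0 (by
      rw [← Real.rpow_mul (by positivity), one_div_mul_cancel hQ0.ne', Real.rpow_one])
  set Θ : ℝ := (4 * C * K / kap) ^ (1 / Q) with hΘ
  have hΘA : Θ = A * (K : ℝ) ^ (1 / Q) := by
    rw [hΘ, hA, ← Real.mul_rpow (by positivity) hK0.le]
    congr 1
    ring
  have hKQ : 1 ≤ (K : ℝ) ^ (1 / Q) := Real.one_le_rpow hK1' (by positivity)
  have hsq : Real.sqrt (4 + Θ ^ 2) ≤ (2 + A) * (K : ℝ) ^ (1 / Q) := by
    have h1 : Real.sqrt (4 + Θ ^ 2) ≤ 2 + Θ := by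
      rw [Real.sqrt_le_left (by positivity)]
      nlinarith
    refine h1.trans ?_
    rw [hΘA]
    nlinarith
  have hlow : kap / (128 * (2 + A)) * (K : ℝ) ^ (-(1 / Q)) ≤
      kap / (128 * Real.sqrt (4 + Θ ^ 2)) := by
    have h2 : kap / (128 * (2 + A)) * (K : ℝ) ^ (-(1 / Q)) =
        kap / (128 * ((2 + A) * (K : ℝ) ^ (1 / Q))) := by
      rw [Real.rpow_neg hK0.le]
      field_simp
    rw [h2]
    refine div_le_div_of_nonneg_left hkap0.le (by positivity) ?_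
    exact mul_le_mul_of_nonneg_left hsq (by norm_num)
  have hK2 : (K : ℝ) ^ (1 / p) ≤ ((2 : ℝ) ^ κ) ^ (1 / p) :=
    Real.rpow_le_rpow hK0.le (by exact_mod_cast hκ1) (by positivity)
  have hKe : ((k : ℝ) ^ e) = (K : ℝ) := by rw [hK]; push_cast; rfl
  rw [hKe, sub_eq_add_neg (1 / p), Real.rpow_add hK0]
  have hint := hlow.trans hmain
  have hM0 : 0 ≤ kap / (128 * (2 + A)) * (K : ℝ) ^ (-(1 / Q)) := by positivity
  calc c1 * (kap / (128 * (2 + A))) * (((2 : ℝ) ^ n) ^ (-r) *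
        ((K : ℝ) ^ (1 / p) * (K : ℝ) ^ (-(1 / Q))))
      = c1 * ((2 : ℝ) ^ n) ^ (-r) * (K : ℝ) ^ (1 / p) *
        (kap / (128 * (2 + A)) * (K : ℝ) ^ (-(1 / Q))) := by ring
    _ ≤ c1 * ((2 : ℝ) ^ n) ^ (-r) * ((2 : ℝ) ^ κ) ^ (1 / p) *
        ∫ y, Mf (2 ^ κ) (fun γ x => wi (lev e k) Λ ψ
          ((grp (lev e k) n κ eb).symm (γ, x)) y) ∂(μT (e + 1)) := by
        refine mul_le_mul (mul_le_mul_of_nonneg_left hK2 (by positivity)) ?_ hM0 (by positivity)
        exact hint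

/-- The lower bound at `q = 1` up to an arbitrarily small power of the logarithm. -/
theorem lowB (hLPD : SpecLPD) (𝕜 : Type) [RCLike 𝕜] (d l : ℕ) (p r ε : ℝ) (hd : 2 ≤ d)
    (hr : 0 < r) (hl : r < l) (hp : 1 ≤ p) (hp2 : p ≤ 2) (hε : 0 < ε) : ∃ c : ℝ, 0 < c ∧
    ∀ m : ℕ, 2 ≤ m →
      ENNReal.ofReal (c * ((m : ℝ) ^ (-r) * Real.log m ^ (((d : ℝ) - 1) * (r + 1 / p) - ε))) ≤
        linearNumber m (HClass 𝕜 d l r (ENNReal.ofReal p)) 1 := by
  obtain ⟨e, rfl⟩ : ∃ e, d = e + 1 := ⟨d - 1, by omega⟩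
  have he : 1 ≤ e := by omega
  have he0 : (0 : ℝ) < e := by exact_mod_cast he
  have hp0 : 0 < p := by linarith
  -- the loss
  obtain ⟨Q, hQ, hQε, hQp⟩ : ∃ Q : ℝ, 2 < Q ∧ (e : ℝ) / Q ≤ ε ∧ 1 / Q < 1 / p := by
    refine ⟨3 + e / ε, ?_, ?_, ?_⟩
    · have : 0 < e / ε := by positivity
      linarith
    · rw [div_le_iff₀ (by positivity)]
      have : ε * (3 + e / ε) = 3 * ε + e := by field_simp
      rw [this]
      linarith
    · have : 0 < e / ε := by positivity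
      exact one_div_lt_one_div_of_lt hp0 (by linarith)
  have hQ0 : 0 < Q := by linarith
  obtain ⟨c0', hc0', hlow⟩ := lowB_k hLPD 𝕜 e l p r Q hr hl hp hQ
  set q' : ℝ := 1 / (1 / p - 1 / Q) with hq'
  have hpos : 0 < 1 / p - 1 / Q := by linarith
  have hq'0 : 0 < q' := by rw [hq']; positivity
  have hq'1 : 1 / q' = 1 / p - 1 / Q := by rw [hq']; field_simp
  obtain ⟨C, hC, hrate⟩ := LOWRM.rate_le e he q' q' r hq'0 (by linarith)
  -- comparison of the powers of the logarithm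
  have hlog2 : 0 < Real.log 2 := Real.log_pos (by norm_num)
  set δ : ℝ := ε - e / Q with hδ
  have hδ0 : 0 ≤ δ := by linarith
  set c2 : ℝ := Real.log 2 ^ δ with hc2
  have hc20 : 0 < c2 := Real.rpow_pos_of_pos hlog2 _
  refine ⟨c0' / C * c2, by positivity, ?_⟩
  intro m hm
  unfold linearNumber
  refine le_iInf fun Λ => le_iInf fun ψ => le_iInf fun hψ => ?_
  obtain ⟨k, hk1, hk2⟩ := hrate m hm
  have hk0 : 1 ≤ k := by
    rcases Nat.eq_zero_or_pos k with h | h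
    · rw [h, zero_pow (by omega), mul_zero] at hk1
      omega
    · exact h
  obtain ⟨f, hf, hf2⟩ := hlow k m hk0 hk1 Λ ψ hψ
  have hm0 : (0 : ℝ) < m := by positivity
  have hm1 : (1 : ℝ) < m := by exact_mod_cast hm
  have hlogm : Real.log 2 ≤ Real.log m := Real.log_le_log (by norm_num) (by exact_mod_cast hm)
  have hlog : 0 < Real.log m := by linarith
  have h1 : ENNReal.ofReal (c0' / C * c2 * ((m : ℝ) ^ (-r) *
        Real.log m ^ ((((e + 1 : ℕ) : ℝ) - 1) * (r + 1 / p) - ε))) ≤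
      ENNReal.ofReal (c0' * (((2 : ℝ) ^ (e * k)) ^ (-r) * ((k : ℝ) ^ e) ^ (1 / p - 1 / Q))) := by
    apply ENNReal.ofReal_le_ofReal
    have h2 : LOWRM.rt (e + 1) q' q' r m =
        (m : ℝ) ^ (-r) * Real.log m ^ ((((e + 1 : ℕ) : ℝ) - 1) * (r + 1 / p) - e / Q) := by
      unfold LOWRM.rt
      congr 2
      · ring
      · have h3 : r - 1 / q' + 2 / q' = r + 1 / q' := by ring
        rw [h3, hq'1]
        push_cast
        ring
    have h4 : c2 * Real.log m ^ ((((e + 1 : ℕ) : ℝ) - 1) * (r + 1 / p) - ε) ≤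
        Real.log m ^ ((((e + 1 : ℕ) : ℝ) - 1) * (r + 1 / p) - e / Q) := by
      have h5 : (((e + 1 : ℕ) : ℝ) - 1) * (r + 1 / p) - e / Q =
          δ + ((((e + 1 : ℕ) : ℝ) - 1) * (r + 1 / p) - ε) := by
        rw [hδ]
        ring
      rw [h5, Real.rpow_add hlog]
      exact mul_le_mul_of_nonneg_right (Real.rpow_le_rpow hlog2.le hlogm hδ0) (by positivity)
    rw [h2, show r - 1 / q' + 1 / q' = r by ring, hq'1] at hk2
    calc c0' / C * c2 * ((m : ℝ) ^ (-r) *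
          Real.log m ^ ((((e + 1 : ℕ) : ℝ) - 1) * (r + 1 / p) - ε))
        = c0' / C * ((m : ℝ) ^ (-r) * (c2 *
          Real.log m ^ ((((e + 1 : ℕ) : ℝ) - 1) * (r + 1 / p) - ε))) := by ring
      _ ≤ c0' / C * ((m : ℝ) ^ (-r) *
          Real.log m ^ ((((e + 1 : ℕ) : ℝ) - 1) * (r + 1 / p) - e / Q)) :=
          mul_le_mul_of_nonneg_left (mul_le_mul_of_nonneg_left h4 (by positivity))
            (by positivity)
      _ ≤ c0' / C * (C * (((2 : ℝ) ^ (e * k)) ^ (-r) * ((k : ℝ) ^ e) ^ (1 / p - 1 / Q))) :=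
          mul_le_mul_of_nonneg_left hk2 (by positivity)
      _ = _ := by field_simp
  exact (h1.trans hf2).trans
    (le_iSup₂ (f := fun f (_ : f ∈ HClass 𝕜 (e + 1) l r (ENNReal.ofReal p)) =>
      eLpNorm (fun y => f y - ∑ i, Λ i f * ψ i y) 1 (μT (e + 1))) f hf)

end

end Pool.Agent.MP_bc5265.E1
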