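import Pool.Agent.Lib.MP_bc5265_an.E1.Abs
import Pool.Agent.Lib.MP_bc5265_an.R2.WTS

/-!
# The edge `q = 1` of region `R_2`: from the average to one test function of the class
-/

set_option linter.unusedSectionVars false

open MeasureTheory Finset
open scoped ENNReal

namespace Pool.Agent.MP_bc5265.E1

open Pool.Agent.MP_bc5265 Pool.Agent.MP_bc5265.R2

noncomputable section

variable {𝕜 : Type} [RCLike 𝕜] {d : ℕ}

/-- The boxes of the levels `lv`. -/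
abbrev Ix {B : Type} (lv : B → Fin d → ℕ) : Type := Σ b, ∀ j, Fin (2 ^ lv b j)

/-- The groups of boxes. -/
def grp {B : Type} (lv : B → Fin d → ℕ) (n κ : ℕ)
    (eb : ∀ b, (∀ j, Fin (2 ^ lv b j)) ≃ Fin (2 ^ (n - κ)) × Fin (2 ^ κ)) :
    Ix lv ≃ (B × Fin (2 ^ (n - κ))) × Fin (2 ^ κ) :=
  (Equiv.sigmaCongrRight eb).trans ((Equiv.sigmaEquivProd B _).trans (Equiv.prodAssoc _ _ _).symm)

theorem grp_apply {B : Type} (lv : B → Fin d → ℕ) (n κ : ℕ)
    (eb : ∀ b, (∀ j, Fin (2 ^ lv b j)) ≃ Fin (2 ^ (n - κ)) × Fin (2 ^ κ)) (b : B)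
    (k : ∀ j, Fin (2 ^ lv b j)) : grp lv n κ eb ⟨b, k⟩ = ((b, (eb b k).1), (eb b k).2) := rfl

theorem exists_eb {B : Type} (lv : B → Fin d → ℕ) (n κ : ℕ) (hs : ∀ b, ∑ j, lv b j = n)
    (hκ : κ ≤ n) :
    ∃ _ : (∀ b, (∀ j, Fin (2 ^ lv b j)) ≃ Fin (2 ^ (n - κ)) × Fin (2 ^ κ)), True := by
  refine ⟨fun b => Fintype.equivOfCardEq ?_, trivial⟩
  rw [Fintype.card_pi, Fintype.card_prod]
  simp only [Fintype.card_fin]
  rw [Finset.prod_pow_eq_pow_sum, hs b, ← pow_add]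
  congr 1
  omega

/-- Real and imaginary parts of the functions `ψ_j`. -/
def psr {m : ℕ} (ψ : Fin m → Torus d → 𝕜) : Fin m ⊕ Fin m → Torus d → ℝ :=
  Sum.elim (fun j x => RCLike.re (ψ j x)) (fun j x => RCLike.im (ψ j x))

/-- The error of a single bump. -/
def wi {m : ℕ} {B : Type} [Fintype B] [DecidableEq B] (lv : B → Fin d → ℕ)
    (Λ : Fin m → (C(Torus d, 𝕜) →ₗ[𝕜] 𝕜)) (ψ : Fin m → Torus d → 𝕜) (i : Ix lv)
    (y : Torus d) : ℝ :=
  Phi (lv i.1) (fun j => (i.2 j : ℕ)) y - ∑ j, Lmap lv Λ (Pi.single i 1) j * psr ψ j y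

theorem integrable_psr {m : ℕ} (ψ : Fin m → Torus d → 𝕜)
    (hψ : ∀ i, MemLp (ψ i) 1 (μT d)) (j : Fin m ⊕ Fin m) : Integrable (psr ψ j) (μT d) := by
  rcases j with j | j
  · exact (memLp_one_iff_integrable.1 (hψ j)).re
  · exact (memLp_one_iff_integrable.1 (hψ j)).im

theorem integrable_Phi (s k : Fin d → ℕ) : Integrable (Phi s k : Torus d → ℝ) (μT d) := by
  refine Integrable.of_bound (C := 1) (Phi s k).continuous.aestronglyMeasurable ?_
  filter_upwards with x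
  exact abs_Phi_le _ _ x

theorem integrable_wi {m : ℕ} {B : Type} [Fintype B] [DecidableEq B] (lv : B → Fin d → ℕ)
    (Λ : Fin m → (C(Torus d, 𝕜) →ₗ[𝕜] 𝕜)) (ψ : Fin m → Torus d → 𝕜)
    (hψ : ∀ i, MemLp (ψ i) 1 (μT d)) (i : Ix lv) : Integrable (wi lv Λ ψ i) (μT d) := by
  unfold wi
  exact (integrable_Phi _ _).sub (integrable_finsetSum _ fun j _ =>
    (integrable_psr ψ hψ j).const_mul _)

/-- The error of a combination of bumps. -/
theorem gerr_wi {m : ℕ} {B : Type} [Fintype B] [DecidableEq B] (lv : B → Fin d → ℕ)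
    (Λ : Fin m → (C(Torus d, 𝕜) →ₗ[𝕜] 𝕜)) (ψ : Fin m → Torus d → 𝕜) (a : Ix lv → ℝ)
    (y : Torus d) :
    RCLike.re (fC (𝕜 := 𝕜) lv a y - ∑ j, Λ j (fC lv a) * ψ j y) = ∑ i, a i * wi lv Λ ψ i y := by
  have hL : ∀ j, Lmap lv Λ a j = ∑ i, a i * Lmap lv Λ (Pi.single i 1) j := by
    intro j
    have h1 : a = ∑ i, a i • (Pi.single i (1 : ℝ) : Ix lv → ℝ) := by
      funext i0
      simp only [Finset.sum_apply, Pi.smul_apply, smul_eq_mul, Pi.single_apply, mul_ite, mul_one,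
        mul_zero]
      simp
    conv_lhs => rw [h1]
    simp only [map_sum, map_smul, Finset.sum_apply, Pi.smul_apply, smul_eq_mul]
  have h2 : ∑ i, a i * wi lv Λ ψ i y =
      ∑ i : Ix lv, a i * Phi (lv i.1) (fun j => (i.2 j : ℕ)) y -
        ∑ j, Lmap lv Λ a j * psr ψ j y := by
    simp only [wi, mul_sub, Finset.sum_sub_distrib, hL, Finset.mul_sum, Finset.sum_mul]
    congr 1
    rw [Finset.sum_comm]
    refine Finset.sum_congr rfl fun j _ => Finset.sum_congr rfl fun i _ => ?_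
    ring
  rw [h2, Fintype.sum_sum_type, Fintype.sum_sigma]
  simp only [map_sub, map_sum, RCLike.mul_re]
  congr 1
  · simp only [fC, ContinuousMap.coe_mk, RCLike.ofReal_re, ftest, Finset.sum_apply,
      Pi.smul_apply, smul_eq_mul]
  · rw [← Finset.sum_add_distrib]
    refine Finset.sum_congr rfl fun j _ => ?_
    simp only [Lmap, LinearMap.coe_mk, AddHom.coe_mk, Sum.elim_inl, Sum.elim_inr, psr]
    ring

/-- One test function is as good as the average. -/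
theorem transfer (𝕜 : Type) [RCLike 𝕜] (l : ℕ) (r : ℝ) (d : ℕ) (hr : 0 < r) (hl : r < l) :
    ∃ c1 : ℝ, 0 < c1 ∧ ∀ (B : Type) [Fintype B] [DecidableEq B] (lv : B → Fin d → ℕ) (n κ : ℕ),
      Function.Injective lv → (∀ b, ∑ j, lv b j = n) → κ ≤ n →
      ∀ (eb : ∀ b, (∀ j, Fin (2 ^ lv b j)) ≃ Fin (2 ^ (n - κ)) × Fin (2 ^ κ)) (p : ℝ), 1 ≤ p →
      ∀ (m : ℕ) (Λ : Fin m → (C(Torus d, 𝕜) →ₗ[𝕜] 𝕜)) (ψ : Fin m → Torus d → 𝕜),
        (∀ i, MemLp (ψ i) 1 (μT d)) →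
        ∃ f ∈ HClass 𝕜 d l r (ENNReal.ofReal p),
          ENNReal.ofReal (c1 * (2 ^ n : ℝ) ^ (-r) * (2 ^ κ : ℝ) ^ (1 / p) *
            ∫ y, Mf (2 ^ κ) (fun γ x => wi lv Λ ψ ((grp lv n κ eb).symm (γ, x)) y) ∂(μT d)) ≤
          eLpNorm (fun y => f y - ∑ i, Λ i f * ψ i y) 1 (μT d) := by
  obtain ⟨c1, hc1, htot⟩ := specMEM l r d hr hl
  refine ⟨c1, hc1, ?_⟩
  intro B _ _ lv n κ hlv hsum hκn eb p hp m Λ ψ hψ
  have hp0 : 0 < p := by linarith
  set e := grp lv n κ eb with he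
  have hk1 : 1 ≤ 2 ^ κ := Nat.one_le_two_pow
  obtain ⟨ξ, ε, hch⟩ := exists_choice (μT d) hk1
    (fun γ x => wi lv Λ ψ (e.symm (γ, x))) fun γ x => integrable_wi lv Λ ψ hψ _
  set M0 : ℝ := ∫ y, Mf (2 ^ κ) (fun γ x => wi lv Λ ψ (e.symm (γ, x)) y) ∂(μT d) with hM0
  set u : ℝ := (2 ^ κ : ℝ) ^ (1 / p) with hu
  have hu0 : 0 < u := by rw [hu]; positivity
  have hup : u ^ p = 2 ^ κ := by
    rw [hu, ← Real.rpow_mul (by positivity), one_div_mul_cancel hp0.ne', Real.rpow_one]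
  let a : Ix lv → ℝ := fun i => if (e i).2 = ξ (e i).1 then sg (ε (e i).1) * u else 0
  have habs : ∀ i, |a i| ^ p = if (e i).2 = ξ (e i).1 then (2 ^ κ : ℝ) else 0 := by
    intro i
    simp only [a]
    split_ifs with h
    · have h1 : |sg (ε (e i).1) * u| = u := by
        rw [abs_mul, abs_of_pos hu0]
        have h2 : |sg (ε (e i).1)| = 1 := by cases ε (e i).1 <;> simp [sg]
        rw [h2, one_mul]
      rw [h1, hup]
    · rw [abs_zero, Real.zero_rpow hp0.ne']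
  have ha : ∀ b, ∑ k, |a ⟨b, k⟩| ^ p ≤ 2 ^ n := by
    intro b
    simp only [habs]
    have h1 : ∑ k : ∀ j, Fin (2 ^ lv b j),
        (if (e ⟨b, k⟩).2 = ξ (e ⟨b, k⟩).1 then (2 ^ κ : ℝ) else 0) =
        ∑ z : Fin (2 ^ (n - κ)) × Fin (2 ^ κ), if z.2 = ξ (b, z.1) then (2 ^ κ : ℝ) else 0 := by
      rw [← Equiv.sum_comp (eb b)]
      rfl
    rw [h1, Fintype.sum_prod_type]
    simp only [Finset.sum_ite_eq', Finset.mem_univ, if_true, Finset.sum_const, Finset.card_univ,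
      Fintype.card_fin, nsmul_eq_mul]
    push_cast
    rw [← pow_add, Nat.sub_add_cancel hκn]
  have hsuma : ∀ y, ∑ i, a i * wi lv Λ ψ i y =
      u * ∑ γ, sg (ε γ) * wi lv Λ ψ (e.symm (γ, ξ γ)) y := by
    intro y
    rw [← Equiv.sum_comp e.symm, Fintype.sum_prod_type, Finset.mul_sum]
    refine Finset.sum_congr rfl fun γ _ => ?_
    simp only [a, Equiv.apply_symm_apply]
    rw [Finset.sum_eq_single (ξ γ)]
    · rw [if_pos rfl]
      ring
    · intro x _ hx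
      rw [if_neg hx, zero_mul]
    · intro h
      exact absurd (Finset.mem_univ _) h
  set c' : ℝ := c1 * (2 ^ n) ^ (-r) with hc'
  have hc'0 : 0 ≤ c' := by positivity
  let f : C(Torus d, 𝕜) := (c' : 𝕜) • fC lv a
  have hfun : (f : Torus d → 𝕜) = fun x => (((c' • ftest lv a) x : ℝ) : 𝕜) := by
    funext x
    simp [f, fC]
  have hnorm : ∀ (g : Torus d → ℝ) (v : ℝ≥0∞),
      eLpNorm (fun x => ((g x : ℝ) : 𝕜)) v (μT d) = eLpNorm g v (μT d) := by
    intro g v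
    refine eLpNorm_congr_norm_ae ?_
    filter_upwards with x
    simp
  have hmem : f ∈ HClass 𝕜 d l r (ENNReal.ofReal p) := by
    have hb := htot B lv n hlv hsum p hp a ha
    constructor
    · rw [hfun, hnorm]
      have h1 := hb ∅ 0
      simp only [Finset.prod_empty, ENNReal.ofReal_one, mixedDiff_empty] at h1
      exact h1
    · intro e' _ t
      rw [hfun, mixedDiff_ofReal, hnorm]
      exact hb e' t
  refine ⟨f, hmem, ?_⟩
  have herr : (fun y => f y - ∑ i, Λ i f * ψ i y) =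
      (c' : 𝕜) • fun y => (fC (𝕜 := 𝕜) lv a y - ∑ i, Λ i (fC lv a) * ψ i y) := by
    funext y
    simp only [f, ContinuousMap.coe_smul, Pi.smul_apply, smul_eq_mul, map_smul, mul_sub,
      Finset.mul_sum, mul_assoc]
  rw [herr, eLpNorm_const_smul]
  have hge : eLpNorm (fun y => ∑ i, a i * wi lv Λ ψ i y) 1 (μT d) ≤
      eLpNorm (fun y => (fC (𝕜 := 𝕜) lv a y - ∑ i, Λ i (fC lv a) * ψ i y)) 1 (μT d) := by
    refine eLpNorm_mono ?_
    intro y
    rw [Real.norm_eq_abs, ← gerr_wi]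
    exact RCLike.abs_re_le_norm _
  have hint : Integrable (fun y => ∑ i, a i * wi lv Λ ψ i y) (μT d) :=
    integrable_finsetSum _ fun i _ => (integrable_wi lv Λ ψ hψ i).const_mul _
  have hge2 : ENNReal.ofReal (u * M0) ≤ eLpNorm (fun y => ∑ i, a i * wi lv Λ ψ i y) 1 (μT d) := by
    rw [eLpNorm_one_eq_lintegral_enorm, ← ofReal_integral_norm_eq_lintegral_enorm hint]
    refine ENNReal.ofReal_le_ofReal ?_
    have h1 : ∫ y, ‖∑ i, a i * wi lv Λ ψ i y‖ ∂(μT d) =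
        u * ∫ y, |∑ γ, sg (ε γ) * wi lv Λ ψ (e.symm (γ, ξ γ)) y| ∂(μT d) := by
      rw [← integral_const_mul]
      refine integral_congr_ae (Filter.Eventually.of_forall fun y => ?_)
      show ‖∑ i, a i * wi lv Λ ψ i y‖ = u * |∑ γ, sg (ε γ) * wi lv Λ ψ (e.symm (γ, ξ γ)) y|
      rw [hsuma, Real.norm_eq_abs, abs_mul, abs_of_pos hu0]
    rw [h1]
    exact mul_le_mul_of_nonneg_left hch hu0.le
  have hce : ‖(c' : 𝕜)‖ₑ = ENNReal.ofReal c' := by
    rw [← ofReal_norm, RCLike.norm_ofReal, abs_of_nonneg hc'0]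
  rw [hce]
  refine le_trans ?_ (mul_le_mul_right (hge2.trans hge) _)
  rw [← ENNReal.ofReal_mul hc'0]
  refine ENNReal.ofReal_le_ofReal (le_of_eq ?_)
  rw [hc']
  ring

end

end Pool.Agent.MP_bc5265.E1
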