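import Pool.Agent.Lib.MP_bc5265_an.E1.Ker
import Pool.Agent.Lib.MP_bc5265_an.E1.Tra

/-!
# The edge `q = 1` of region `R_2`: Riesz products on the torus
-/

set_option linter.unusedSectionVars false

open Finset MeasureTheory

namespace Pool.Agent.MP_bc5265.E1

open Pool.Agent.MP_bc5265 Pool.Agent.MP_bc5265.S Pool.Agent.MP_bc5265.R2

noncomputable section

/-! ### Averages over the signs -/

theorem sum_prod_bool {I : Type} [Fintype I] [DecidableEq I] (f : I → Bool → ℝ) :
    ∑ X : I → Bool, ∏ i, f i (X i) = ∏ i, (f i true + f i false) := by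
  have h := Finset.prod_univ_sum (fun _ : I => (univ : Finset Bool)) (fun i b => f i b)
  rw [Fintype.piFinset_univ] at h
  rw [← h]
  refine Finset.prod_congr rfl fun i _ => ?_
  simp

theorem sum_signs {I : Type} [Fintype I] [DecidableEq I] (α β : I → ℝ) :
    ∑ X : I → Bool, (∏ i, (1 + sg (X i) * α i)) * ∏ i, (1 + sg (X i) * β i) =
      2 ^ Fintype.card I * ∏ i, (1 + α i * β i) := by
  simp only [← Finset.prod_mul_distrib]
  rw [sum_prod_bool (fun i b => (1 + sg b * α i) * (1 + sg b * β i))]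
  have h : ∀ i, (1 + sg true * α i) * (1 + sg true * β i) +
      (1 + sg false * α i) * (1 + sg false * β i) = 2 * (1 + α i * β i) := by
    intro i
    simp only [sg, if_true, Bool.false_eq_true, if_false]
    ring
  simp only [h]
  rw [Finset.prod_mul_distrib, Finset.prod_const, Finset.card_univ]

theorem sum_signs_one {I : Type} [Fintype I] [DecidableEq I] (α : I → ℝ) :
    ∑ X : I → Bool, ∏ i, (1 + sg (X i) * α i) = 2 ^ Fintype.card I := by
  have h := sum_signs α (fun _ => (0 : ℝ))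
  simpa using h

theorem sum_signs_sub {I : Type} [Fintype I] [DecidableEq I] (α β : I → ℝ) :
    ∑ X : I → Bool, (∏ i, (1 + sg (X i) * α i) - 1) * (∏ i, (1 + sg (X i) * β i) - 1) =
      2 ^ Fintype.card I * (∏ i, (1 + α i * β i) - 1) := by
  have h : ∀ X : I → Bool, (∏ i, (1 + sg (X i) * α i) - 1) * (∏ i, (1 + sg (X i) * β i) - 1) =
      (∏ i, (1 + sg (X i) * α i)) * ∏ i, (1 + sg (X i) * β i) - ∏ i, (1 + sg (X i) * α i) -
        ∏ i, (1 + sg (X i) * β i) + 1 := fun X => by ring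
  simp only [h, Finset.sum_add_distrib, Finset.sum_sub_distrib]
  rw [sum_signs, sum_signs_one, sum_signs_one]
  simp
  ring

/-! ### The Riesz product -/

section general

variable {d : ℕ} {B : Type} [Fintype B] (lv : B → Fin d → ℕ)

/-- The Riesz product. -/
def RX (X : Ix lv → Bool) (y : Torus d) : ℝ :=
  ∏ i : Ix lv, (1 + sg (X i) * Haf (lv i.1) (fun j => (i.2 j : ℕ)) y)

theorem abs_sg (b : Bool) : |sg b| = 1 := by cases b <;> simp [sg]

theorem RX_eq (X : Ix lv → Bool) (y : Torus d) :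
    RX lv X y = ∏ b, (1 + blk (lv b) (fun x => sg (X ⟨b, x⟩)) y) := by
  unfold RX
  rw [Fintype.prod_sigma]
  refine Finset.prod_congr rfl fun b _ => ?_
  rw [Finset.prod_eq_single (kap (lv b) y)]
  · rw [blk_eq]
  · intro x _ hx
    rw [Haf_eq_zero (lv b) x y (Ne.symm hx), mul_zero, add_zero]
  · intro h
    exact absurd (Finset.mem_univ _) h

theorem factor_nonneg (X : Ix lv → Bool) (i : Ix lv) (y : Torus d) :
    0 ≤ 1 + sg (X i) * Haf (lv i.1) (fun j => (i.2 j : ℕ)) y := by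
  have h1 : |sg (X i) * Haf (lv i.1) (fun j => (i.2 j : ℕ)) y| ≤ 1 := by
    rw [abs_mul, abs_sg, one_mul, abs_Haf]
    exact Chi_le_one _ _ _
  linarith [(abs_le.1 h1).1]

theorem RX_nonneg (X : Ix lv → Bool) (y : Torus d) : 0 ≤ RX lv X y :=
  Finset.prod_nonneg fun i _ => factor_nonneg lv X i y

theorem measurable_RX (X : Ix lv → Bool) : Measurable (RX lv X) := by
  unfold RX
  exact Finset.measurable_prod _ fun i _ => ((measurable_Haf _ _).const_mul _).const_add _

theorem RX_le (X : Ix lv → Bool) (y : Torus d) : RX lv X y ≤ 2 ^ Fintype.card (Ix lv) := by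
  unfold RX
  rw [← Finset.card_univ, ← Finset.prod_const]
  refine Finset.prod_le_prod (fun i _ => factor_nonneg lv X i y) fun i _ => ?_
  have h1 : |sg (X i) * Haf (lv i.1) (fun j => (i.2 j : ℕ)) y| ≤ 1 := by
    rw [abs_mul, abs_sg, one_mul, abs_Haf]
    exact Chi_le_one _ _ _
  linarith [(abs_le.1 h1).2]

theorem sum_RX [DecidableEq B] (y : Torus d) :
    ∑ X : Ix lv → Bool, RX lv X y = 2 ^ Fintype.card (Ix lv) := by
  unfold RX
  exact sum_signs_one _

theorem sum_abs_RX_sub [DecidableEq B] (y : Torus d) :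
    ∑ X : Ix lv → Bool, |RX lv X y - 1| ≤ 2 * 2 ^ Fintype.card (Ix lv) := by
  have h1 : ∀ X : Ix lv → Bool, |RX lv X y - 1| ≤ RX lv X y + 1 := by
    intro X
    have := RX_nonneg lv X y
    rw [abs_le]
    constructor <;> linarith
  refine (Finset.sum_le_sum fun X _ => h1 X).trans (le_of_eq ?_)
  rw [Finset.sum_add_distrib, sum_RX]
  simp
  ring

/-- Haar functions on the grid. -/
def hG (L : ℕ) (hl : ∀ b j, lv b j ≤ L) (i : Ix lv) (Z : Gr d L) : ℝ :=
  if up L (lv i.1) (hl i.1) Z = i.2 then ∏ j, LPTM.sgm L (lv i.1 j) (Z j) else 0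

theorem Haf_hG (L : ℕ) (hl : ∀ b j, lv b j + 1 ≤ L) (i : Ix lv) (y : Torus d) :
    Haf (lv i.1) (fun j => (i.2 j : ℕ)) y =
      hG lv L (fun b j => (Nat.le_succ _).trans (hl b j)) i (gx L y) := by
  unfold hG
  rw [up_gx]
  by_cases h : kap (lv i.1) y = i.2
  · rw [if_pos h, ← h]
    unfold Haf
    exact Finset.prod_congr rfl fun j _ => Ha_sgm L _ (hl i.1 j) (y j)
  · rw [if_neg h, Haf_eq_zero (lv i.1) i.2 y h]

/-- The Riesz product on the grid. -/
def RG (L : ℕ) (hl : ∀ b j, lv b j ≤ L) (X : Ix lv → Bool) (Z : Gr d L) : ℝ :=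
  ∏ i : Ix lv, (1 + sg (X i) * hG lv L hl i Z)

theorem RX_RG (L : ℕ) (hl : ∀ b j, lv b j + 1 ≤ L) (X : Ix lv → Bool) (y : Torus d) :
    RX lv X y = RG lv L (fun b j => (Nat.le_succ _).trans (hl b j)) X (gx L y) := by
  unfold RX RG
  exact Finset.prod_congr rfl fun i _ => by rw [Haf_hG lv L hl i y]

theorem prod_hG (L : ℕ) (hl : ∀ b j, lv b j ≤ L) (Z Z' : Gr d L) :
    ∏ i : Ix lv, (1 + hG lv L hl i Z * hG lv L hl i Z') =
      ∏ b, (1 + if up L (lv b) (hl b) Z = up L (lv b) (hl b) Z' then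
        (∏ j, LPTM.sgm L (lv b j) (Z j)) * ∏ j, LPTM.sgm L (lv b j) (Z' j) else 0) := by
  rw [Fintype.prod_sigma]
  refine Finset.prod_congr rfl fun b _ => ?_
  rw [Finset.prod_eq_single (up L (lv b) (hl b) Z)]
  · unfold hG
    simp only [if_true]
    by_cases h : up L (lv b) (hl b) Z = up L (lv b) (hl b) Z'
    · rw [if_pos h, if_pos h.symm]
    · rw [if_neg h, if_neg fun h' => h h'.symm, mul_zero]
  · intro x _ hx
    unfold hG
    rw [if_neg (Ne.symm hx), zero_mul, add_zero]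
  · intro h
    exact absurd (Finset.mem_univ _) h

end general

/-- Integrals against grid functions. -/
theorem integral_mul_gx {d L : ℕ} (u : Torus d → ℝ) (hu : Integrable u (μT d)) (G : Gr d L → ℝ) :
    ∫ y, u y * G (gx L y) ∂(μT d) = (∑ Z, avc u L Z * G Z) / 2 ^ (d * L) := by
  have h1 : ∀ Z, avc u L Z * G Z =
      ∫ y, u y * (G Z * if gx L y = Z then (2 : ℝ) ^ (d * L) else 0) ∂(μT d) := by
    intro Z
    unfold avc
    rw [mul_comm, ← integral_const_mul]
    refine integral_congr_ae (Filter.Eventually.of_forall fun y => ?_)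
    show _ = _
    ring
  have hint : ∀ w : Gr d L → ℝ, Integrable (fun z : Torus d => u z * w (gx L z)) (μT d) := by
    intro w
    obtain ⟨M, hM⟩ : ∃ M, ∀ k, |w k| ≤ M :=
      ⟨∑ k, |w k|, fun k => Finset.single_le_sum (f := fun k => |w k|)
        (fun _ _ => abs_nonneg _) (Finset.mem_univ k)⟩
    exact hu.mul_bdd (c := M) (ParsM.measurable_comp_gx w).aestronglyMeasurable
      (Filter.Eventually.of_forall fun x => hM _)
  simp only [h1]
  rw [← integral_finsetSum]
  · have h2 : ∀ y, ∑ Z : Gr d L, u y * (G Z * if gx L y = Z then (2 : ℝ) ^ (d * L) else 0) =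
        2 ^ (d * L) * (u y * G (gx L y)) := by
      intro y
      rw [← Finset.mul_sum, Finset.sum_eq_single (gx L y)]
      · rw [if_pos rfl]
        ring
      · intro Z _ hZ
        rw [if_neg (Ne.symm hZ), mul_zero]
      · intro h
        exact absurd (Finset.mem_univ _) h
    simp only [h2]
    rw [integral_const_mul]
    field_simp
  · intro Z _
    exact hint fun k => G Z * if k = Z then (2 : ℝ) ^ (d * L) else 0

theorem sum_Gr2 {L : ℕ} (f : Gr 2 L → ℝ) :
    ∑ Z, f Z = ∑ x0 : Fin (2 ^ L), ∑ x1 : Fin (2 ^ L), f ![x0, x1] := by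
  rw [← (finTwoArrowEquiv (Fin (2 ^ L))).symm.sum_comp, Fintype.sum_prod_type]
  rfl

/-- The second moment. -/
theorem second_moment {k : ℕ} (lv : Fin k → Fin 2 → ℕ) (n : ℕ) (hs : ∀ b, ∑ j, lv b j = n)
    (hm0 : StrictMono fun b => lv b 0) (hm1 : StrictAnti fun b => lv b 1) (u : Torus 2 → ℝ)
    (hum : Measurable u) (hub : ∃ M, ∀ y, |u y| ≤ M) :
    ∑ X : Ix lv → Bool, (∫ y, u y * (RX lv X y - 1) ∂(μT 2)) ^ 2 ≤
      2 ^ Fintype.card (Ix lv) * ((∫ y, u y ^ 2 ∂(μT 2)) / 2 ^ n) := by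
  classical
  obtain ⟨M, hM⟩ := hub
  set L := n + 1 with hL
  have hln : ∀ b j, lv b j ≤ n := by
    intro b j
    rw [← hs b]
    exact Finset.single_le_sum (f := lv b) (fun _ _ => Nat.zero_le _) (Finset.mem_univ j)
  have hl2 : ∀ b j, lv b j + 1 ≤ L := fun b j => Nat.succ_le_succ (hln b j)
  have hl1 : ∀ b j, lv b j ≤ L := fun b j => (Nat.le_succ _).trans (hl2 b j)
  have hui : Integrable u (μT 2) := by
    refine Integrable.of_bound (C := M) hum.aestronglyMeasurable ?_
    filter_upwards with y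
    exact hM y
  have huL : MemLp u (ENNReal.ofReal 2) (μT 2) := by
    refine MemLp.of_bound hum.aestronglyMeasurable M ?_
    filter_upwards with y
    exact hM y
  set v : Gr 2 L → ℝ := avc u L with hv
  have h1 : ∀ X : Ix lv → Bool, ∫ y, u y * (RX lv X y - 1) ∂(μT 2) =
      (∑ Z, v Z * (RG lv L hl1 X Z - 1)) / 2 ^ (2 * L) := by
    intro X
    have h2 := integral_mul_gx u hui (fun Z => RG lv L hl1 X Z - 1)
    rw [← h2]
    refine integral_congr_ae (Filter.Eventually.of_forall fun y => ?_)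
    show u y * (RX lv X y - 1) = u y * (RG lv L hl1 X (gx L y) - 1)
    rw [RX_RG lv L hl2 X y]
  have h3 : ∀ X : Ix lv → Bool, (∫ y, u y * (RX lv X y - 1) ∂(μT 2)) ^ 2 =
      (∑ Z, ∑ Z', v Z * v Z' * ((RG lv L hl1 X Z - 1) * (RG lv L hl1 X Z' - 1))) /
        (2 ^ (2 * L)) ^ 2 := by
    intro X
    rw [h1, div_pow, sq (∑ Z, v Z * (RG lv L hl1 X Z - 1)), Finset.sum_mul_sum]
    congr 1
    exact Finset.sum_congr rfl fun Z _ => Finset.sum_congr rfl fun Z' _ => by ring
  simp only [h3]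
  rw [← Finset.sum_div]
  have h4 : ∑ X : Ix lv → Bool, ∑ Z, ∑ Z', v Z * v Z' *
      ((RG lv L hl1 X Z - 1) * (RG lv L hl1 X Z' - 1)) =
      2 ^ Fintype.card (Ix lv) * ∑ Z, ∑ Z', (∏ i : Ix lv, (1 + hG lv L hl1 i Z *
        hG lv L hl1 i Z') - 1) * (v Z * v Z') := by
    rw [Finset.sum_comm, Finset.mul_sum]
    refine Finset.sum_congr rfl fun Z _ => ?_
    rw [Finset.sum_comm, Finset.mul_sum]
    refine Finset.sum_congr rfl fun Z' _ => ?_
    rw [← Finset.mul_sum]
    have h5 := sum_signs_sub (fun i : Ix lv => hG lv L hl1 i Z) (fun i => hG lv L hl1 i Z')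
    unfold RG
    rw [h5]
    ring
  rw [h4]
  -- the kernel in coordinates
  have h6 : ∀ Z Z' : Gr 2 L, ∏ i : Ix lv, (1 + hG lv L hl1 i Z * hG lv L hl1 i Z') =
      ∏ b, (1 + ck L (lv b 0) (Z 0) (Z' 0) * ck L (lv b 1) (Z 1) (Z' 1)) := by
    intro Z Z'
    rw [prod_hG]
    refine Finset.prod_congr rfl fun b _ => ?_
    congr 1
    rw [Fin.prod_univ_two, Fin.prod_univ_two]
    unfold ck
    by_cases h0 : (Z 0 : ℕ) / 2 ^ (L - lv b 0) = (Z' 0 : ℕ) / 2 ^ (L - lv b 0)
    · by_cases h1' : (Z 1 : ℕ) / 2 ^ (L - lv b 1) = (Z' 1 : ℕ) / 2 ^ (L - lv b 1)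
      · rw [if_pos, if_pos h0, if_pos h1']
        · ring
        · funext j
          apply Fin.ext
          fin_cases j
          · exact h0
          · exact h1'
      · rw [if_neg, if_neg h1', mul_zero]
        intro h
        exact h1' (congrArg Fin.val (congrFun h 1))
    · rw [if_neg, if_neg h0, zero_mul]
      intro h
      exact h0 (congrArg Fin.val (congrFun h 0))
  have h7 : ∑ Z, ∑ Z', (∏ i : Ix lv, (1 + hG lv L hl1 i Z * hG lv L hl1 i Z') - 1) *
      (v Z * v Z') ≤ (2 ^ L * 2 ^ L / 2 ^ n) * ∑ Z, v Z ^ 2 := by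
    simp only [h6]
    rw [sum_Gr2, sum_Gr2]
    simp only [sum_Gr2 (fun Z' => _)]
    simp only [Matrix.cons_val_zero, Matrix.cons_val_one]
    exact kernel_grid L k n (fun b => lv b 0) (fun b => lv b 1) (fun b => hl2 b 0)
      (fun b => hl2 b 1) hm0 hm1 (fun b => by have := hs b; rwa [Fin.sum_univ_two] at this)
      (fun x0 x1 => v ![x0, x1])
  -- Jensen
  have h8 : ∑ Z, v Z ^ 2 ≤ 2 ^ (2 * L) * ∫ y, u y ^ 2 ∂(μT 2) := by
    have h9 : ∀ Z, v Z ^ 2 ≤ 2 ^ (2 * L) *
        ∫ y, u y ^ 2 * (if gx L y = Z then (1 : ℝ) else 0) ∂(μT 2) := by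
      intro Z
      have h10 := LPTM.jensen L 2 one_lt_two u huL Z
      simp only [Real.rpow_two, sq_abs] at h10
      exact h10
    refine (Finset.sum_le_sum fun Z _ => h9 Z).trans (le_of_eq ?_)
    rw [← Finset.mul_sum, ← integral_finsetSum]
    · congr 1
      refine integral_congr_ae (Filter.Eventually.of_forall fun y => ?_)
      show ∑ Z : Gr 2 L, u y ^ 2 * (if gx L y = Z then (1 : ℝ) else 0) = _
      rw [← Finset.mul_sum]
      simp
    · intro Z _
      have hu2 : Integrable (fun y => u y ^ 2) (μT 2) := by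
        refine Integrable.of_bound (C := M ^ 2) (hum.pow_const 2).aestronglyMeasurable ?_
        filter_upwards with y
        rw [Real.norm_of_nonneg (sq_nonneg _), ← sq_abs]
        exact pow_le_pow_left₀ (abs_nonneg _) (hM y) 2
      refine hu2.mul_bdd (c := 1) (ParsM.measurable_comp_gx (fun k : Gr 2 L =>
        if k = Z then (1 : ℝ) else 0)).aestronglyMeasurable
        (Filter.Eventually.of_forall fun x => by
          show ‖(if gx L x = Z then (1 : ℝ) else 0)‖ ≤ 1
          split_ifs <;> simp)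
  have hp : (2 : ℝ) ^ (2 * L) = 2 ^ L * 2 ^ L := by rw [← pow_add]; congr 1; ring
  rw [div_le_iff₀ (by positivity)]
  calc 2 ^ Fintype.card (Ix lv) * ∑ Z, ∑ Z', (∏ i : Ix lv, (1 + hG lv L hl1 i Z *
        hG lv L hl1 i Z') - 1) * (v Z * v Z')
      ≤ 2 ^ Fintype.card (Ix lv) * ((2 ^ L * 2 ^ L / 2 ^ n) *
          (2 ^ (2 * L) * ∫ y, u y ^ 2 ∂(μT 2))) :=
        mul_le_mul_of_nonneg_left (h7.trans (mul_le_mul_of_nonneg_left h8 (by positivity)))
          (by positivity)
    _ = _ := by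
        rw [hp]
        ring

end

end Pool.Agent.MP_bc5265.E1
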