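import Pool.Agent.Lib.MP_bc5265_an.E1.Rp
import Pool.Agent.Lib.MP_bc5265_an.E1.Rie

/-!
# The edge `q = 1` of region `R_2`: the bumps against the Riesz product
-/

set_option linter.unusedSectionVars false

open MeasureTheory Finset

namespace Pool.Agent.MP_bc5265.E1

open Pool.Agent.MP_bc5265 Pool.Agent.MP_bc5265.S Pool.Agent.MP_bc5265.R2

noncomputable section

/-! ### One variable -/

section one

variable {ι : Type} (T : Finset ι) (s : ι → ℕ) (θ : ι → ℕ → ℝ)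

/-- A one-dimensional Riesz product. -/
def BP (z : Circ) : ℝ := ∏ j ∈ T, (1 + θ j (E (s j) z) * σ1 (s j) z)

theorem BP_nonneg (hθ : ∀ j e, |θ j e| ≤ 1) (z : Circ) : 0 ≤ BP T s θ z := by
  refine Finset.prod_nonneg fun j _ => ?_
  have h1 : |θ j (E (s j) z) * σ1 (s j) z| ≤ 1 := by
    rw [abs_mul, abs_σ1, mul_one]
    exact hθ _ _
  linarith [(abs_le.1 h1).1]

theorem isC_BP (t : ℕ) (ht : ∀ j ∈ T, s j + 1 ≤ t) : IsC t (BP T s θ) := by
  refine isC_prod t T _ fun j hj => ?_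
  have h1 : IsC (s j) fun z => θ j (E (s j) z) := ⟨θ j, fun _ => rfl⟩
  exact (((h1.mono (Nat.le_succ _)).mul (isC_σ1 (s j))).one_add).mono (ht j hj)

theorem exists_isC_BP : ∃ t, IsC t (BP T s θ) := by
  refine ⟨(∑ j ∈ T, s j) + 1, isC_BP T s θ _ fun j hj => ?_⟩
  exact Nat.succ_le_succ (Finset.single_le_sum (f := s) (fun _ _ => Nat.zero_le _) hj)

theorem Ha_const {a κ : ℕ} {z z' : Circ} (h : E (a + 1) z = E (a + 1) z') :
    Ha a κ z = Ha a κ z' := by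
  unfold Ha
  rw [h]

theorem one_dim (hinj : Set.InjOn s T) {a A κ : ℕ} (hA : 1 ≤ A) (hs : ∀ j ∈ T, a + A ≤ s j)
    (hθ : ∀ j e, |θ j e| ≤ 1) (hκ : κ < 2 ^ a) (M : ℝ)
    (hM : ∀ z z' : Circ, E (a + A) z = E (a + A) z' →
      |Ps a κ z - Ps a κ z'| ≤ M / 2 ^ A) :
    |2 ^ a * ∫ z, Ps a κ z * BP T s θ z ∂ν| ≤ 2 * (M / 2 ^ A) ∧
    |2 ^ a * ∫ z, (Ps a κ z * Ha a κ z) * BP T s θ z ∂ν - 2 * c0| ≤ 2 * (M / 2 ^ A) := by
  obtain ⟨t, ht⟩ := exists_isC_BP T s θ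
  have hm : ∀ a' c, a' ≤ a + A → c < 2 ^ a' →
      ∫ z, chi a' c z * BP T s θ z ∂ν = 1 / 2 ^ a' := fun a' c h1 h2 =>
    riesz_mean T s hinj a' (fun j hj => h1.trans (hs j hj)) θ c h2
  have hp : (0 : ℝ) < 2 ^ a := by positivity
  have h1 := osc_estimate (Nat.le_add_right a A) hκ (fun z => Ps a κ z) (BP T s θ) (M / 2 ^ A)
    (integrable_Ps a κ) hM (fun z hz => E_of_Ps_ne hz) ht (BP_nonneg T s θ hθ) hm
  have hHi : Integrable (fun z => Ps a κ z * Ha a κ z) ν := by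
    refine (integrable_Ps a κ).mul_bdd (c := 1) (measurable_Ha a κ).aestronglyMeasurable ?_
    filter_upwards with z
    rw [Real.norm_eq_abs, abs_Ha]
    exact chi_le_one _ _ _
  have h2 := osc_estimate (Nat.le_add_right a A) hκ (fun z => Ps a κ z * Ha a κ z)
    (BP T s θ) (M / 2 ^ A) hHi (by
      intro z z' hz
      have h3 : E (a + 1) z = E (a + 1) z' := E_eq_of_le (by omega) hz
      rw [Ha_const h3, ← sub_mul, abs_mul, abs_Ha]
      exact (mul_le_of_le_one_right (abs_nonneg _) (chi_le_one _ _ _)).trans (hM z z' hz))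
    (fun z hz => E_of_Ps_ne (left_ne_zero_of_mul hz)) ht (BP_nonneg T s θ hθ) hm
  rw [integral_Ps a κ hκ, sub_zero] at h1
  rw [integral_Ps_Ha_same a κ κ hκ, if_pos rfl] at h2
  constructor
  · rw [abs_mul, abs_of_pos hp]
    calc 2 ^ a * |∫ z, Ps a κ z * BP T s θ z ∂ν| ≤ 2 ^ a * (2 * (M / 2 ^ A) / 2 ^ a) :=
          mul_le_mul_of_nonneg_left h1 hp.le
      _ = 2 * (M / 2 ^ A) := by field_simp
  · have h4 : 2 ^ a * ∫ z, (Ps a κ z * Ha a κ z) * BP T s θ z ∂ν - 2 * c0 =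
        2 ^ a * (∫ z, (Ps a κ z * Ha a κ z) * BP T s θ z ∂ν - 2 * c0 / 2 ^ a) := by
      field_simp
    rw [h4, abs_mul, abs_of_pos hp]
    calc 2 ^ a * |∫ z, (Ps a κ z * Ha a κ z) * BP T s θ z ∂ν - 2 * c0 / 2 ^ a| ≤
          2 ^ a * (2 * (M / 2 ^ A) / 2 ^ a) := mul_le_mul_of_nonneg_left h2 hp.le
      _ = 2 * (M / 2 ^ A) := by field_simp

end one

/-! ### Two variables -/

theorem torus2 (f g : Circ → ℝ) :
    ∫ y, f (y 0) * g (y 1) ∂(μT 2) = (∫ z, f z ∂ν) * ∫ z, g z ∂ν := by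
  unfold μT
  have h := integral_fintype_prod_eq_prod (μ := fun _ : Fin 2 => ν)
    (fun j (y : Circ) => (![f, g] : Fin 2 → Circ → ℝ) j y)
  simp only [Fin.prod_univ_two, Matrix.cons_val_zero, Matrix.cons_val_one] at h
  exact h

theorem Haf_two (s : Fin 2 → ℕ) (y : Torus 2) :
    Haf s (fun j => (kap s y j : ℕ)) y = σ1 (s 0) (y 0) * σ1 (s 1) (y 1) := by
  unfold Haf σ1 kap
  rw [Fin.prod_univ_two]

theorem kap_two {s : Fin 2 → ℕ} {y y' : Torus 2} (h0 : E (s 0) (y 0) = E (s 0) (y' 0))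
    (h1 : E (s 1) (y 1) = E (s 1) (y' 1)) : kap s y = kap s y' := by
  funext j
  apply Fin.ext
  fin_cases j
  · exact h0
  · exact h1

variable {k : ℕ} (lv : Fin k → Fin 2 → ℕ)

/-- The Riesz product on the support of one bump. -/
theorem RX_split {A : ℕ} (hA : 1 ≤ A)
    (hg0 : ∀ b b', b < b' → lv b 0 + A ≤ lv b' 0) (hg1 : ∀ b b', b < b' → lv b' 1 + A ≤ lv b 1)
    (X : Ix lv → Bool) (b : Fin k) (x : ∀ j, Fin (2 ^ lv b j)) :
    ∃ θ θ' : Fin k → ℕ → ℝ, (∀ j e, |θ j e| ≤ 1) ∧ (∀ j e, |θ' j e| ≤ 1) ∧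
      ∀ y : Torus 2, kap (lv b) y = x → RX lv X y =
        BP (univ.filter fun b' => b < b') (fun b' => lv b' 0) θ (y 0) *
        BP (univ.filter fun b' => b' < b) (fun b' => lv b' 1) θ' (y 1) *
        (1 + sg (X ⟨b, x⟩) * (Ha (lv b 0) (x 0) (y 0) * Ha (lv b 1) (x 1) (y 1))) := by
  classical
  obtain ⟨z0, hz0⟩ := exists_rep (lv b 0) (x 0) (x 0).2
  obtain ⟨z1, hz1⟩ := exists_rep (lv b 1) (x 1) (x 1).2
  choose! rep hrep using fun s c => exists_rep s c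
  refine ⟨fun b' e => sg (X ⟨b', kap (lv b') ![rep (lv b' 0) e, z1]⟩) * σ1 (lv b' 1) z1,
    fun b' e => sg (X ⟨b', kap (lv b') ![z0, rep (lv b' 1) e]⟩) * σ1 (lv b' 0) z0, ?_, ?_, ?_⟩
  · intro j e
    rw [abs_mul, abs_sg, abs_σ1, mul_one]
  · intro j e
    rw [abs_mul, abs_sg, abs_σ1, mul_one]
  intro y hy
  have hy0 : E (lv b 0) (y 0) = x 0 := by rw [← hy]; rfl
  have hy1 : E (lv b 1) (y 1) = x 1 := by rw [← hy]; rfl
  have hfac : ∀ b', 1 + blk (lv b') (fun x => sg (X ⟨b', x⟩)) y =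
      1 + sg (X ⟨b', kap (lv b') y⟩) * (σ1 (lv b' 0) (y 0) * σ1 (lv b' 1) (y 1)) := by
    intro b'
    rw [blk_eq, Haf_two]
  rw [RX_eq]
  simp only [hfac]
  have hsplit : ∀ f : Fin k → ℝ, ∏ b', f b' =
      (∏ b' ∈ univ.filter fun b' => b < b', f b') *
        (∏ b' ∈ univ.filter fun b' => b' < b, f b') * f b := by
    intro f
    have h1 : (univ : Finset (Fin k)) = insert b ((univ.filter fun b' => b < b') ∪
        univ.filter fun b' => b' < b) := by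
      ext c
      simp only [Finset.mem_univ, Finset.mem_insert, Finset.mem_union, Finset.mem_filter,
        true_and, true_iff]
      rcases lt_trichotomy b c with h | h | h
      · exact Or.inr (Or.inl h)
      · exact Or.inl h.symm
      · exact Or.inr (Or.inr h)
    conv_lhs => rw [h1]
    rw [Finset.prod_insert, Finset.prod_union]
    · ring
    · rw [Finset.disjoint_left]
      intro c hc hc'
      rw [Finset.mem_filter] at hc hc'
      exact absurd hc.2 (not_lt.2 hc'.2.le)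
    · simp
  rw [hsplit]
  congr 1
  · congr 1
    · unfold BP
      refine Finset.prod_congr rfl fun b' hb' => ?_
      have hlt : b < b' := (Finset.mem_filter.1 hb').2
      have hgap := hg1 b b' hlt
      have h2 : E (lv b' 1 + 1) (y 1) = E (lv b' 1 + 1) z1 :=
        E_eq_of_le (t := lv b 1) (by omega) (by rw [hy1, hz1])
      have h3 : E (lv b' 1) (y 1) = E (lv b' 1) z1 := E_eq_of_le (Nat.le_succ _) h2
      have h4 : σ1 (lv b' 1) (y 1) = σ1 (lv b' 1) z1 := by rw [σ1_eq, σ1_eq, h2]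
      have h5 : kap (lv b') y = kap (lv b') ![rep (lv b' 0) (E (lv b' 0) (y 0)), z1] := by
        refine kap_two ?_ ?_
        · simp only [Matrix.cons_val_zero]
          exact (hrep _ _ (E_lt _ _)).symm
        · simp only [Matrix.cons_val_one]
          exact h3
      rw [h5, h4]
      ring
    · unfold BP
      refine Finset.prod_congr rfl fun b' hb' => ?_
      have hlt : b' < b := (Finset.mem_filter.1 hb').2
      have hgap := hg0 b' b hlt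
      have h2 : E (lv b' 0 + 1) (y 0) = E (lv b' 0 + 1) z0 :=
        E_eq_of_le (t := lv b 0) (by omega) (by rw [hy0, hz0])
      have h3 : E (lv b' 0) (y 0) = E (lv b' 0) z0 := E_eq_of_le (Nat.le_succ _) h2
      have h4 : σ1 (lv b' 0) (y 0) = σ1 (lv b' 0) z0 := by rw [σ1_eq, σ1_eq, h2]
      have h5 : kap (lv b') y = kap (lv b') ![z0, rep (lv b' 1) (E (lv b' 1) (y 1))] := by
        refine kap_two ?_ ?_
        · simp only [Matrix.cons_val_zero]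
          exact h3
        · simp only [Matrix.cons_val_one]
          exact (hrep _ _ (E_lt _ _)).symm
      rw [h5, h4]
      ring
  · rw [hy]
    unfold σ1
    rw [hy0, hy1]

/-- The bumps against the Riesz product. -/
theorem riesz_phi {A n : ℕ} (hA : 1 ≤ A) (hs : ∀ b, ∑ j, lv b j = n)
    (hg0 : ∀ b b', b < b' → lv b 0 + A ≤ lv b' 0) (hg1 : ∀ b b', b < b' → lv b' 1 + A ≤ lv b 1)
    (M : ℝ) (hM0 : 0 ≤ M) (hM : ∀ (A a κ : ℕ) (z z' : Circ), E (a + A) z = E (a + A) z' →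
      |Ps a κ z - Ps a κ z'| ≤ M / 2 ^ A)
    (X : Ix lv → Bool) (i : Ix lv) :
    |2 ^ n * ∫ y, Phi (lv i.1) (fun j => (i.2 j : ℕ)) y * (RX lv X y - 1) ∂(μT 2) -
      (2 * c0) ^ 2 * sg (X i)| ≤ 8 * (M / 2 ^ A) ^ 2 + 8 * c0 * (M / 2 ^ A) := by
  classical
  obtain ⟨b, x⟩ := i
  obtain ⟨θ, θ', hθ, hθ', hRX⟩ := RX_split lv hA hg0 hg1 X b x
  set T0 : Finset (Fin k) := univ.filter fun b' => b < b' with hT0
  set T1 : Finset (Fin k) := univ.filter fun b' => b' < b with hT1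
  set B0 : Circ → ℝ := BP T0 (fun b' => lv b' 0) θ with hB0
  set B1 : Circ → ℝ := BP T1 (fun b' => lv b' 1) θ' with hB1
  have hA0 : ∀ c c' : Fin k, c < c' → lv c 0 < lv c' 0 := fun c c' h => by
    have := hg0 c c' h
    omega
  have hA1 : ∀ c c' : Fin k, c < c' → lv c' 1 < lv c 1 := fun c c' h => by
    have := hg1 c c' h
    omega
  have hinj0 : Function.Injective fun b' => lv b' 0 := by
    intro c c' h
    rcases lt_trichotomy c c' with h1 | h1 | h1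
    · exact absurd h (hA0 _ _ h1).ne
    · exact h1
    · exact absurd h (hA0 _ _ h1).ne'
  have hinj1 : Function.Injective fun b' => lv b' 1 := by
    intro c c' h
    rcases lt_trichotomy c c' with h1 | h1 | h1
    · exact absurd h (hA1 _ _ h1).ne'
    · exact h1
    · exact absurd h (hA1 _ _ h1).ne
  obtain ⟨h10, h11⟩ := one_dim T0 (fun b' => lv b' 0) θ (hinj0.injOn) hA
    (fun j hj => hg0 b j (Finset.mem_filter.1 hj).2) hθ (x 0).2 M (hM A (lv b 0) (x 0))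
  obtain ⟨h20, h21⟩ := one_dim T1 (fun b' => lv b' 1) θ' (hinj1.injOn) hA
    (fun j hj => hg1 j b (Finset.mem_filter.1 hj).2) hθ' (x 1).2 M (hM A (lv b 1) (x 1))
  set σ : ℝ := sg (X ⟨b, x⟩) with hσ
  have hid : ∀ y : Torus 2, Phi (lv b) (fun j => (x j : ℕ)) y * (RX lv X y - 1) =
      (Ps (lv b 0) (x 0) (y 0) * B0 (y 0)) * (Ps (lv b 1) (x 1) (y 1) * B1 (y 1)) +
        σ * (((Ps (lv b 0) (x 0) (y 0) * Ha (lv b 0) (x 0) (y 0)) * B0 (y 0)) *
          ((Ps (lv b 1) (x 1) (y 1) * Ha (lv b 1) (x 1) (y 1)) * B1 (y 1))) -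
        Ps (lv b 0) (x 0) (y 0) * Ps (lv b 1) (x 1) (y 1) := by
    intro y
    rw [Phi_apply, Fin.prod_univ_two]
    by_cases h0 : Ps (lv b 0) (x 0) (y 0) = 0
    · rw [h0]
      ring
    by_cases h1 : Ps (lv b 1) (x 1) (y 1) = 0
    · rw [h1]
      ring
    have hk : kap (lv b) y = x := by
      funext j
      apply Fin.ext
      fin_cases j
      · exact E_of_Ps_ne h0
      · exact E_of_Ps_ne h1
    rw [hRX y hk]
    ring
  have hPi : ∀ a κ, Integrable (fun z => Ps a κ z : Circ → ℝ) ν := integrable_Ps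
  have hHi : ∀ a κ, Integrable (fun z => Ps a κ z * Ha a κ z) ν := by
    intro a κ
    refine (integrable_Ps a κ).mul_bdd (c := 1) (measurable_Ha a κ).aestronglyMeasurable ?_
    filter_upwards with z
    rw [Real.norm_eq_abs, abs_Ha]
    exact chi_le_one _ _ _
  have hBi : ∀ (T : Finset (Fin k)) (s : Fin k → ℕ) (θ : Fin k → ℕ → ℝ) (f : Circ → ℝ),
      Measurable f → (∀ z, |f z| ≤ 1) → Measurable (fun z => f z * BP T s θ z) ∧
        ∃ M', ∀ z, |f z * BP T s θ z| ≤ M' := by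
    intro T s θ f hf hf1
    obtain ⟨t, ht⟩ := exists_isC_BP T s θ
    obtain ⟨MB, hMB⟩ := ht.bdd
    refine ⟨hf.mul ht.measurable, MB, fun z => ?_⟩
    rw [abs_mul]
    exact (mul_le_of_le_one_left (abs_nonneg _) (hf1 z)).trans (hMB z)
  have hprod : ∀ f g : Circ → ℝ, Measurable f → Measurable g → (∃ M', ∀ z, |f z| ≤ M') →
      (∃ M', ∀ z, |g z| ≤ M') → Integrable (fun y : Torus 2 => f (y 0) * g (y 1)) (μT 2) := by
    rintro f g hf hg ⟨Mf', hMf⟩ ⟨Mg, hMg⟩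
    refine Integrable.of_bound (C := Mf' * Mg) ((hf.comp (measurable_pi_apply 0)).mul
      (hg.comp (measurable_pi_apply 1))).aestronglyMeasurable ?_
    filter_upwards with y
    rw [norm_mul, Real.norm_eq_abs, Real.norm_eq_abs]
    exact mul_le_mul (hMf _) (hMg _) (abs_nonneg _) ((abs_nonneg _).trans (hMf (y 0)))
  have hPm : ∀ a κ, Measurable (fun z => Ps a κ z : Circ → ℝ) := fun a κ =>
    (Ps a κ).continuous.measurable
  have hPHm : ∀ a κ, Measurable (fun z => Ps a κ z * Ha a κ z) := fun a κ =>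
    (hPm a κ).mul (measurable_Ha a κ)
  have hPH1 : ∀ (a κ : ℕ) (z : Circ), |Ps a κ z * Ha a κ z| ≤ 1 := by
    intro a κ z
    rw [abs_mul, abs_Ha]
    exact mul_le_one₀ (abs_Ps_le_one _ _ _) (chi_nonneg _ _ _) (chi_le_one _ _ _)
  obtain ⟨m1, b1⟩ := hBi T0 (fun b' => lv b' 0) θ (fun z => Ps (lv b 0) (x 0) z) (hPm _ _)
    (abs_Ps_le_one _ _)
  obtain ⟨m2, b2⟩ := hBi T1 (fun b' => lv b' 1) θ' (fun z => Ps (lv b 1) (x 1) z) (hPm _ _)
    (abs_Ps_le_one _ _)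
  obtain ⟨m3, b3⟩ := hBi T0 (fun b' => lv b' 0) θ
    (fun z => Ps (lv b 0) (x 0) z * Ha (lv b 0) (x 0) z) (hPHm _ _) (hPH1 _ _)
  obtain ⟨m4, b4⟩ := hBi T1 (fun b' => lv b' 1) θ'
    (fun z => Ps (lv b 1) (x 1) z * Ha (lv b 1) (x 1) z) (hPHm _ _) (hPH1 _ _)
  have i1 : Integrable (fun y : Torus 2 => (Ps (lv b 0) (x 0) (y 0) * B0 (y 0)) *
      (Ps (lv b 1) (x 1) (y 1) * B1 (y 1))) (μT 2) := hprod _ _ m1 m2 b1 b2
  have i2 : Integrable (fun y : Torus 2 => ((Ps (lv b 0) (x 0) (y 0) *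
      Ha (lv b 0) (x 0) (y 0)) * B0 (y 0)) * ((Ps (lv b 1) (x 1) (y 1) *
      Ha (lv b 1) (x 1) (y 1)) * B1 (y 1))) (μT 2) := hprod _ _ m3 m4 b3 b4
  have i3 := hprod (fun z => Ps (lv b 0) (x 0) z) (fun z => Ps (lv b 1) (x 1) z) (hPm _ _)
    (hPm _ _) ⟨1, abs_Ps_le_one _ _⟩ ⟨1, abs_Ps_le_one _ _⟩
  show |2 ^ n * ∫ y, Phi (lv b) (fun j => (x j : ℕ)) y * (RX lv X y - 1) ∂(μT 2) -
      (2 * c0) ^ 2 * σ| ≤ _
  have hsum : ∫ y, Phi (lv b) (fun j => (x j : ℕ)) y * (RX lv X y - 1) ∂(μT 2) =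
      ∫ y : Torus 2, (Ps (lv b 0) (x 0) (y 0) * B0 (y 0)) *
        (Ps (lv b 1) (x 1) (y 1) * B1 (y 1)) ∂(μT 2) +
      σ * ∫ y : Torus 2, ((Ps (lv b 0) (x 0) (y 0) *
        Ha (lv b 0) (x 0) (y 0)) * B0 (y 0)) * ((Ps (lv b 1) (x 1) (y 1) *
        Ha (lv b 1) (x 1) (y 1)) * B1 (y 1)) ∂(μT 2) -
      ∫ y : Torus 2, Ps (lv b 0) (x 0) (y 0) * Ps (lv b 1) (x 1) (y 1) ∂(μT 2) := by
    have i12 : Integrable (fun y : Torus 2 => (Ps (lv b 0) (x 0) (y 0) * B0 (y 0)) *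
        (Ps (lv b 1) (x 1) (y 1) * B1 (y 1)) + σ * (((Ps (lv b 0) (x 0) (y 0) *
        Ha (lv b 0) (x 0) (y 0)) * B0 (y 0)) * ((Ps (lv b 1) (x 1) (y 1) *
        Ha (lv b 1) (x 1) (y 1)) * B1 (y 1)))) (μT 2) := i1.add (i2.const_mul σ)
    rw [← integral_const_mul, ← integral_add i1 (i2.const_mul σ), ← integral_sub i12 i3]
    exact integral_congr_ae (Filter.Eventually.of_forall hid)
  rw [hsum, torus2 (fun z => Ps (lv b 0) (x 0) z * B0 z) (fun z => Ps (lv b 1) (x 1) z * B1 z),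
    torus2 (fun z => (Ps (lv b 0) (x 0) z * Ha (lv b 0) (x 0) z) * B0 z)
      (fun z => (Ps (lv b 1) (x 1) z * Ha (lv b 1) (x 1) z) * B1 z),
    torus2 (fun z => Ps (lv b 0) (x 0) z) (fun z => Ps (lv b 1) (x 1) z),
    integral_Ps _ _ (x 0).2, zero_mul, sub_zero]
  set I0 := ∫ z, Ps (lv b 0) (x 0) z * B0 z ∂ν
  set J0 := ∫ z, Ps (lv b 1) (x 1) z * B1 z ∂ν
  set I1 := ∫ z, (Ps (lv b 0) (x 0) z * Ha (lv b 0) (x 0) z) * B0 z ∂ν
  set J1 := ∫ z, (Ps (lv b 1) (x 1) z * Ha (lv b 1) (x 1) z) * B1 z ∂ν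
  set ω : ℝ := M / 2 ^ A with hω
  have hω0 : 0 ≤ ω := by rw [hω]; positivity
  have hn : (2 : ℝ) ^ n = 2 ^ lv b 0 * 2 ^ lv b 1 := by
    rw [← hs b, Fin.sum_univ_two, pow_add]
  have hσ1 : |σ| = 1 := abs_sg _
  have hc := c0_pos
  have e1 : 2 ^ n * (I0 * J0 + σ * (I1 * J1)) - (2 * c0) ^ 2 * σ =
      (2 ^ lv b 0 * I0) * (2 ^ lv b 1 * J0) + σ * ((2 ^ lv b 0 * I1 - 2 * c0) *
        (2 ^ lv b 1 * J1 - 2 * c0) + (2 * c0) * (2 ^ lv b 0 * I1 - 2 * c0) +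
        (2 * c0) * (2 ^ lv b 1 * J1 - 2 * c0)) := by
    rw [hn]
    ring
  rw [e1]
  refine (abs_add_le _ _).trans ?_
  rw [abs_mul (2 ^ lv b 0 * I0), abs_mul σ, hσ1, one_mul]
  have e2 : |2 ^ lv b 0 * I0| * |2 ^ lv b 1 * J0| ≤ (2 * ω) * (2 * ω) :=
    mul_le_mul h10 h20 (abs_nonneg _) (by positivity)
  have e3 : |(2 ^ lv b 0 * I1 - 2 * c0) * (2 ^ lv b 1 * J1 - 2 * c0) +
      (2 * c0) * (2 ^ lv b 0 * I1 - 2 * c0) + (2 * c0) * (2 ^ lv b 1 * J1 - 2 * c0)| ≤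
      (2 * ω) * (2 * ω) + (2 * c0) * (2 * ω) + (2 * c0) * (2 * ω) := by
    refine (abs_add_le _ _).trans (add_le_add ((abs_add_le _ _).trans (add_le_add ?_ ?_)) ?_)
    · rw [abs_mul]
      exact mul_le_mul h11 h21 (abs_nonneg _) (by positivity)
    · rw [abs_mul, abs_of_pos (by positivity : 0 < 2 * c0)]
      exact mul_le_mul_of_nonneg_left h11 (by positivity)
    · rw [abs_mul, abs_of_pos (by positivity : 0 < 2 * c0)]
      exact mul_le_mul_of_nonneg_left h21 (by positivity)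
  calc _ ≤ (2 * ω) * (2 * ω) + ((2 * ω) * (2 * ω) + (2 * c0) * (2 * ω) + (2 * c0) * (2 * ω)) :=
        add_le_add e2 e3
    _ = 8 * ω ^ 2 + 8 * c0 * ω := by ring

end

end Pool.Agent.MP_bc5265.E1
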