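import Pool.Agent.Lib.MP_bc5265_an.E1.AbsA
import Pool.Agent.Lib.MP_bc5265_an.E1.Rbi
import Pool.Agent.Lib.MP_bc5265_an.E1.LowB

/-!
# The edge `q = 1` of region `R_2`: the sharp lower bound for `d = 2`
-/

set_option linter.unusedSectionVars false

open MeasureTheory Finset
open scoped ENNReal

namespace Pool.Agent.MP_bc5265.E1

open Pool.Agent.MP_bc5265 Pool.Agent.MP_bc5265.R2

noncomputable section

/-- The levels with gaps. -/
def lvA (A k : ℕ) (b : Fin k) : Fin 2 → ℕ := ![A * b, A * (k - b)]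

theorem lvA_sum (A k : ℕ) (b : Fin k) : ∑ j, lvA A k b j = A * k := by
  rw [Fin.sum_univ_two]
  simp only [lvA, Matrix.cons_val_zero, Matrix.cons_val_one]
  rw [← mul_add]
  congr 1
  have := b.2
  omega

theorem lvA_gap0 (A k : ℕ) (b b' : Fin k) (h : b < b') : lvA A k b 0 + A ≤ lvA A k b' 0 := by
  simp only [lvA, Matrix.cons_val_zero]
  have h1 : (b : ℕ) + 1 ≤ b' := h
  calc A * (b : ℕ) + A = A * ((b : ℕ) + 1) := by ring
    _ ≤ A * (b' : ℕ) := Nat.mul_le_mul_left _ h1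

theorem lvA_gap1 (A k : ℕ) (b b' : Fin k) (h : b < b') : lvA A k b' 1 + A ≤ lvA A k b 1 := by
  simp only [lvA, Matrix.cons_val_one]
  have h1 : (b : ℕ) < b' := h
  have h2 := b'.2
  calc A * (k - (b' : ℕ)) + A = A * (k - (b' : ℕ) + 1) := by ring
    _ ≤ A * (k - (b : ℕ)) := Nat.mul_le_mul_left _ (by omega)

/-- The lower bound with an explicit number of levels. -/
theorem lowA_k (𝕜 : Type) [RCLike 𝕜] (l : ℕ) (p r : ℝ)
    (hr : 0 < r) (hl : r < l) (hp : 1 ≤ p) : ∃ c : ℝ, 0 < c ∧ ∃ A : ℕ, 1 ≤ A ∧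
    ∀ k m : ℕ, 1 ≤ k → 64 * m ≤ k * 2 ^ (A * k) →
      ∀ (Λ : Fin m → (C(Torus 2, 𝕜) →ₗ[𝕜] 𝕜)) (ψ : Fin m → Torus 2 → 𝕜),
        (∀ i, MemLp (ψ i) 1 (μT 2)) →
        ∃ f ∈ HClass 𝕜 2 l r (ENNReal.ofReal p),
          ENNReal.ofReal (c * (((2 : ℝ) ^ (A * k)) ^ (-r) * (k : ℝ) ^ (1 / p))) ≤
            eLpNorm (fun y => f y - ∑ i, Λ i f * ψ i y) 1 (μT 2) := by
  obtain ⟨c1, hc1, htr⟩ := transfer 𝕜 l r 2 hr hl
  obtain ⟨M, hM0, hM⟩ := exists_osc
  have hp0 : 0 < p := by linarith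
  have hc := c0_pos
  set kp : ℝ := (2 * c0) ^ 2 with hkp
  have hkp0 : 0 < kp := by rw [hkp]; positivity
  -- the gap
  obtain ⟨A, hA1, hAη⟩ : ∃ A : ℕ, 1 ≤ A ∧
      8 * (M / 2 ^ A) ^ 2 + 8 * c0 * (M / 2 ^ A) ≤ kp / 128 := by
    have h1 : Filter.Tendsto (fun A : ℕ => 8 * (M / 2 ^ A) ^ 2 + 8 * c0 * (M / 2 ^ A))
        Filter.atTop (nhds (8 * 0 ^ 2 + 8 * c0 * 0)) := by
      have h2 : Filter.Tendsto (fun A : ℕ => M / (2 : ℝ) ^ A) Filter.atTop (nhds 0) := by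
        have h3 : Filter.Tendsto (fun A : ℕ => M * (1 / 2 : ℝ) ^ A) Filter.atTop
            (nhds (M * 0)) :=
          (tendsto_pow_atTop_nhds_zero_of_lt_one (by norm_num) (by norm_num)).const_mul M
        rw [mul_zero] at h3
        refine h3.congr fun A => ?_
        rw [one_div, inv_pow]
        rfl
      exact ((h2.pow 2).const_mul 8).add (h2.const_mul (8 * c0))
    have h4 : (8 * 0 ^ 2 + 8 * c0 * 0 : ℝ) < kp / 128 := by
      have : 0 < kp / 128 := by positivity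
      linarith
    have h5 := (h1.eventually_lt_const h4).and (Filter.eventually_ge_atTop 1)
    obtain ⟨A, h6, h7⟩ := h5.exists
    exact ⟨A, h7, h6.le⟩
  set c3 : ℝ := min 1 ((kp / 38400) ^ 2) with hc3
  have hc30 : 0 < c3 := by rw [hc3]; positivity
  refine ⟨c1 * c3, by positivity, A, hA1, ?_⟩
  intro k m hk hm Λ ψ hψ
  set n := A * k with hn
  have hK0 : (0 : ℝ) < k := by exact_mod_cast hk
  set κ : ℕ := Nat.clog 2 k with hκ
  have hκ1 : k ≤ 2 ^ κ := Nat.le_pow_clog (by norm_num) k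
  have hκ2 : 2 ^ κ ≤ 2 * k := by
    rcases Nat.lt_or_ge 1 k with h | h
    · have h1 := Nat.pow_pred_clog_lt_self (b := 2) (by norm_num) h
      have h2 : 1 ≤ κ := Nat.clog_pos (by norm_num) h
      have h3 : 2 ^ κ = 2 * 2 ^ (κ.pred) := by
        rw [← pow_succ', Nat.pred_eq_sub_one, Nat.sub_add_cancel h2]
      rw [h3]
      exact Nat.mul_le_mul_left _ h1.le
    · have h1 : k = 1 := le_antisymm h hk
      rw [hκ, h1]
      simp
  have hkn : k ≤ n := by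
    rw [hn]
    exact Nat.le_mul_of_pos_left k hA1
  have hκn : κ ≤ n := by
    rw [hκ]
    refine Nat.clog_le_of_le_pow ?_
    exact hkn.trans Nat.lt_two_pow_self.le
  have hinj : Function.Injective (lvA A k) := by
    intro b b' h
    rcases lt_trichotomy b b' with h1 | h1 | h1
    · have h2 := lvA_gap0 A k b b' h1
      rw [h] at h2
      omega
    · exact h1
    · have h2 := lvA_gap0 A k b' b h1
      rw [h] at h2
      omega
  have hm0 : StrictMono fun b => lvA A k b 0 := by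
    intro b b' h
    have h2 := lvA_gap0 A k b b' h
    show lvA A k b 0 < lvA A k b' 0
    omega
  have hm1 : StrictAnti fun b => lvA A k b 1 := by
    intro b b' h
    have h2 := lvA_gap1 A k b b' h
    show lvA A k b' 1 < lvA A k b 1
    omega
  obtain ⟨eb, -⟩ := exists_eb (lvA A k) n κ (lvA_sum A k) hκn
  obtain ⟨f, hf, hfe⟩ := htr (Fin k) (lvA A k) n κ hinj (lvA_sum A k) hκn eb
    p hp m Λ ψ hψ
  refine ⟨f, hf, le_trans (ENNReal.ofReal_le_ofReal ?_) hfe⟩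
  have hcI := card_Ix (lvA A k) n (lvA_sum A k)
  rw [Fintype.card_fin] at hcI
  -- measurable versions
  have hψi := fun j => integrable_psr ψ hψ j
  let ψ0 : Fin m ⊕ Fin m → Torus 2 → ℝ := fun j => (hψi j).aestronglyMeasurable.mk _
  have hψ0m : ∀ j, Measurable (ψ0 j) := fun j =>
    (hψi j).aestronglyMeasurable.stronglyMeasurable_mk.measurable
  have hψ0e : ∀ j, psr ψ j =ᵐ[μT 2] ψ0 j := fun j => (hψi j).aestronglyMeasurable.ae_eq_mk
  have hψ0i : ∀ j, Integrable (ψ0 j) (μT 2) := fun j => (hψi j).congr (hψ0e j)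
  have hn1 : 1 ≤ n := hk.trans hkn
  have habs := abstract_A (μT 2) (grp (lvA A k) n κ eb)
    (fun i : Ix (lvA A k) => (Phi (lvA A k i.1) (fun j => (i.2 j : ℕ)) : Torus 2 → ℝ)) ψ0
    (fun j i => Lmap (lvA A k) Λ (Pi.single i 1) j) (RX (lvA A k)) (κ := kp)
    (η := 8 * (M / 2 ^ A) ^ 2 + 8 * c0 * (M / 2 ^ A)) (N := 2 ^ n) (K := (k : ℝ)) hkp0
    (by positivity) hK0 (by exact_mod_cast hκ1) (by exact_mod_cast hκ2)
    (by rw [hcI]; push_cast; ring)
    (by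
      rw [hcI]
      calc 2 = 1 * 2 ^ 1 := by norm_num
        _ ≤ k * 2 ^ n := Nat.mul_le_mul hk (Nat.pow_le_pow_right (by norm_num) hn1))
    (by
      rw [Fintype.card_sum, Fintype.card_fin, hcI]
      calc 32 * (m + m) = 64 * m := by ring
        _ ≤ k * 2 ^ n := hm)
    (fun i => (Phi (lvA A k i.1) (fun j => (i.2 j : ℕ))).continuous.measurable)
    (fun i y => abs_Phi_le _ _ y)
    (fun y => by
      have := sum_Phi_sq (lvA A k) y
      rwa [Fintype.card_fin] at this)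
    hψ0m hψ0i (fun X => measurable_RX (lvA A k) X)
    ⟨2 ^ Fintype.card (Ix (lvA A k)) + 1, fun X y => by
      have h1 := RX_nonneg (lvA A k) X y
      have h2 := RX_le (lvA A k) X y
      rw [abs_le]
      constructor <;> linarith⟩
    (fun y => sum_abs_RX_sub (lvA A k) y)
    (fun u hu hu1 => second_moment (lvA A k) n (lvA_sum A k) hm0 hm1 u hu ⟨1, hu1⟩)
    (fun X i => riesz_phi (lvA A k) hA1 (lvA_sum A k) (lvA_gap0 A k) (lvA_gap1 A k) M hM0 hM X i)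
  -- back to the original functions
  have hcongr : ∫ y, Mf (2 ^ κ) (fun γ x =>
        Phi (lvA A k ((grp (lvA A k) n κ eb).symm (γ, x)).1)
          (fun j => (((grp (lvA A k) n κ eb).symm (γ, x)).2 j : ℕ)) y -
        ∑ j, Lmap (lvA A k) Λ (Pi.single ((grp (lvA A k) n κ eb).symm (γ, x)) 1) j * ψ0 j y)
        ∂(μT 2) =
      ∫ y, Mf (2 ^ κ) (fun γ x => wi (lvA A k) Λ ψ
        ((grp (lvA A k) n κ eb).symm (γ, x)) y) ∂(μT 2) := by
    refine integral_congr_ae ?_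
    have h1 : ∀ᵐ y ∂(μT 2), ∀ j, psr ψ j y = ψ0 j y := ae_all_iff.2 hψ0e
    filter_upwards [h1] with y hy
    simp only [wi, hy]
  rw [hcongr] at habs
  set M0 : ℝ := ∫ y, Mf (2 ^ κ) (fun γ x => wi (lvA A k) Λ ψ
        ((grp (lvA A k) n κ eb).symm (γ, x)) y) ∂(μT 2) with hM0'
  have hM00 : 0 ≤ M0 := integral_nonneg fun y => Mf_nonneg _
  have hlow : c3 ≤ M0 := by
    refine quad_low hkp0 hM00 ?_
    have h1 : kp / 64 = kp / 128 + kp / 128 := by ring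
    linarith
  have hK2 : (k : ℝ) ^ (1 / p) ≤ ((2 : ℝ) ^ κ) ^ (1 / p) :=
    Real.rpow_le_rpow hK0.le (by exact_mod_cast hκ1) (by positivity)
  calc c1 * c3 * (((2 : ℝ) ^ n) ^ (-r) * (k : ℝ) ^ (1 / p))
      = c1 * ((2 : ℝ) ^ n) ^ (-r) * (k : ℝ) ^ (1 / p) * c3 := by ring
    _ ≤ c1 * ((2 : ℝ) ^ n) ^ (-r) * ((2 : ℝ) ^ κ) ^ (1 / p) * M0 :=
        mul_le_mul (mul_le_mul_of_nonneg_left hK2 (by positivity)) hlow hc30.le (by positivity)

/-- Elementary estimate of the number of levels. -/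
theorem rateA (A : ℕ) (hA : 1 ≤ A) (r p : ℝ) (hr : 0 < r) (hp : 0 < p) : ∃ C : ℝ, 0 < C ∧
    ∀ m : ℕ, 2 ≤ m → ∃ k : ℕ, 1 ≤ k ∧ 64 * m ≤ k * 2 ^ (A * k) ∧
      C * ((m : ℝ) ^ (-r) * Real.log m ^ (r + 1 / p)) ≤
        ((2 : ℝ) ^ (A * k)) ^ (-r) * (k : ℝ) ^ (1 / p) := by
  have hlog2 : 0 < Real.log 2 := Real.log_pos (by norm_num)
  set L : ℝ := (A + 1) * Real.log 2 with hL
  have hL0 : 0 < L := by positivity
  set P : ℝ := 2 ^ (A + 7) with hP
  have hP0 : 0 < P := by rw [hP]; positivity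
  refine ⟨P ^ (-r) * L ^ (-(r + 1 / p)), by positivity, ?_⟩
  intro m hm
  have hex : ∃ k : ℕ, 64 * m ≤ k * 2 ^ (A * k) :=
    ⟨64 * m, Nat.le_mul_of_pos_right _ (by positivity)⟩
  classical
  set k := Nat.find hex with hk
  have hk1 : 64 * m ≤ k * 2 ^ (A * k) := Nat.find_spec hex
  have hk0 : 1 ≤ k := by
    rcases Nat.eq_zero_or_pos k with h | h
    · rw [h, zero_mul] at hk1
      omega
    · exact h
  refine ⟨k, hk0, hk1, ?_⟩
  have hupper : k * 2 ^ (A * k) ≤ 2 ^ (A + 7) * m := by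
    rcases Nat.lt_or_ge k 2 with h | h
    · have h1 : k = 1 := by omega
      rw [h1, mul_one, one_mul, pow_add]
      calc 2 ^ A = 2 ^ A * 1 * 1 := by ring
        _ ≤ 2 ^ A * 2 ^ 7 * m := Nat.mul_le_mul (Nat.mul_le_mul_left _ (by norm_num)) (by omega)
    · have h1 : ¬ 64 * m ≤ (k - 1) * 2 ^ (A * (k - 1)) := Nat.find_min hex (by omega)
      push Not at h1
      have h2 : A * k = A * (k - 1) + A := by
        rw [← Nat.mul_succ]
        congr 1
        omega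
      calc k * 2 ^ (A * k) ≤ (2 * (k - 1)) * 2 ^ (A * k) :=
            Nat.mul_le_mul_right _ (by omega)
        _ = 2 ^ (A + 1) * ((k - 1) * 2 ^ (A * (k - 1))) := by
            rw [h2]
            ring
        _ ≤ 2 ^ (A + 1) * (64 * m) := Nat.mul_le_mul_left _ h1.le
        _ = 2 ^ (A + 7) * m := by ring
  have hm0 : (0 : ℝ) < m := by positivity
  have hm1 : (1 : ℝ) < m := by exact_mod_cast hm
  have hlogm : 0 < Real.log m := Real.log_pos hm1
  have hkr : (0 : ℝ) < k := by exact_mod_cast hk0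
  have hu : (k : ℝ) * 2 ^ (A * k) ≤ P * m := by
    rw [hP]
    exact_mod_cast hupper
  have h2k : (2 : ℝ) ^ (A * k) ≤ P * m / k := by
    rw [le_div_iff₀ hkr, mul_comm]
    exact hu
  have hlogk : Real.log m ≤ L * k := by
    have h1 : m ≤ 2 ^ ((A + 1) * k) := by
      calc m ≤ 64 * m := by omega
        _ ≤ k * 2 ^ (A * k) := hk1
        _ ≤ 2 ^ k * 2 ^ (A * k) := Nat.mul_le_mul_right _ Nat.lt_two_pow_self.le
        _ = 2 ^ ((A + 1) * k) := by rw [← pow_add]; congr 1; ring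
    have h2 : (m : ℝ) ≤ 2 ^ ((A + 1) * k) := by exact_mod_cast h1
    have h3 := Real.log_le_log hm0 h2
    rw [Real.log_pow] at h3
    push_cast at h3
    rw [hL]
    linarith
  have e1 : (P * m / k) ^ (-r) ≤ ((2 : ℝ) ^ (A * k)) ^ (-r) :=
    Real.rpow_le_rpow_of_nonpos (by positivity) h2k (by linarith)
  have e2 : (P * m / k) ^ (-r) = P ^ (-r) * (m : ℝ) ^ (-r) * (k : ℝ) ^ r := by
    rw [Real.div_rpow (by positivity) hkr.le, Real.mul_rpow hP0.le hm0.le,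
      Real.rpow_neg hkr.le, div_inv_eq_mul]
  have e3 : (Real.log m / L) ^ (r + 1 / p) ≤ (k : ℝ) ^ (r + 1 / p) := by
    refine Real.rpow_le_rpow (by positivity) ?_ (by positivity)
    rw [div_le_iff₀ hL0, mul_comm]
    exact hlogk
  have e4 : (Real.log m / L) ^ (r + 1 / p) = Real.log m ^ (r + 1 / p) * L ^ (-(r + 1 / p)) := by
    rw [Real.div_rpow hlogm.le hL0.le, Real.rpow_neg hL0.le, div_eq_mul_inv]
  calc P ^ (-r) * L ^ (-(r + 1 / p)) * ((m : ℝ) ^ (-r) * Real.log m ^ (r + 1 / p))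
      = P ^ (-r) * (m : ℝ) ^ (-r) * (Real.log m ^ (r + 1 / p) * L ^ (-(r + 1 / p))) := by ring
    _ ≤ P ^ (-r) * (m : ℝ) ^ (-r) * (k : ℝ) ^ (r + 1 / p) := by
        rw [← e4]
        exact mul_le_mul_of_nonneg_left e3 (by positivity)
    _ = (P * m / k) ^ (-r) * (k : ℝ) ^ (1 / p) := by
        rw [e2, Real.rpow_add hkr]
        ring
    _ ≤ ((2 : ℝ) ^ (A * k)) ^ (-r) * (k : ℝ) ^ (1 / p) :=
        mul_le_mul_of_nonneg_right e1 (by positivity)

/-- The sharp lower bound at `q = 1`, `d = 2`. -/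
theorem lowA (𝕜 : Type) [RCLike 𝕜] (l : ℕ) (p r : ℝ)
    (hr : 0 < r) (hl : r < l) (hp : 1 ≤ p) : ∃ c : ℝ, 0 < c ∧
    ∀ m : ℕ, 2 ≤ m →
      ENNReal.ofReal (c * ((m : ℝ) ^ (-r) * Real.log m ^ (r + 1 / p))) ≤
        linearNumber m (HClass 𝕜 2 l r (ENNReal.ofReal p)) 1 := by
  obtain ⟨c, hc, A, hA, hlow⟩ := lowA_k 𝕜 l p r hr hl hp
  obtain ⟨C, hC, hrate⟩ := rateA A hA r p hr (by linarith)
  refine ⟨c * C, by positivity, ?_⟩
  intro m hm
  unfold linearNumber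
  refine le_iInf fun Λ => le_iInf fun ψ => le_iInf fun hψ => ?_
  obtain ⟨k, hk0, hk1, hk2⟩ := hrate m hm
  obtain ⟨f, hf, hf2⟩ := hlow k m hk0 hk1 Λ ψ hψ
  have h1 : ENNReal.ofReal (c * C * ((m : ℝ) ^ (-r) * Real.log m ^ (r + 1 / p))) ≤
      ENNReal.ofReal (c * (((2 : ℝ) ^ (A * k)) ^ (-r) * (k : ℝ) ^ (1 / p))) := by
    apply ENNReal.ofReal_le_ofReal
    rw [mul_assoc]
    exact mul_le_mul_of_nonneg_left hk2 hc.le
  exact (h1.trans hf2).trans
    (le_iSup₂ (f := fun f (_ : f ∈ HClass 𝕜 2 l r (ENNReal.ofReal p)) =>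
      eLpNorm (fun y => f y - ∑ i, Λ i f * ψ i y) 1 (μT 2)) f hf)

end

end Pool.Agent.MP_bc5265.E1
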