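import Pool.Agent.Lib.MP_bc5265_an.E1.Lpu

/-!
# The edge `q = 1` of region `R_2`: Riesz products on the circle
-/

set_option linter.unusedSectionVars false

open MeasureTheory Finset

namespace Pool.Agent.MP_bc5265.E1

open Pool.Agent.MP_bc5265 Pool.Agent.MP_bc5265.S Pool.Agent.MP_bc5265.R2

noncomputable section

/-- The sign of the half of the dyadic interval of level `s`. -/
def σ1 (s : ℕ) (z : Circ) : ℝ := Ha s (E s z) z

/-- Functions of the dyadic interval of level `s`. -/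
def IsC (s : ℕ) (f : Circ → ℝ) : Prop := ∃ F : ℕ → ℝ, ∀ z, f z = F (E s z)

theorem E_of_le {s t : ℕ} (h : s ≤ t) (z : Circ) : E s z = E t z / 2 ^ (t - s) := by
  have h1 := E_div s (t - s) z
  rw [Nat.add_sub_cancel' h] at h1
  exact h1.symm

theorem E_eq_of_le {s t : ℕ} (h : s ≤ t) {z z' : Circ} (hz : E t z = E t z') : E s z = E s z' := by
  rw [E_of_le h, E_of_le h, hz]

theorem IsC.mono {s t : ℕ} {f : Circ → ℝ} (hf : IsC s f) (h : s ≤ t) : IsC t f := by
  obtain ⟨F, hF⟩ := hf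
  exact ⟨fun e => F (e / 2 ^ (t - s)), fun z => by rw [hF, E_of_le h]⟩

theorem IsC.mul {s : ℕ} {f g : Circ → ℝ} (hf : IsC s f) (hg : IsC s g) :
    IsC s fun z => f z * g z := by
  obtain ⟨F, hF⟩ := hf
  obtain ⟨G, hG⟩ := hg
  exact ⟨fun e => F e * G e, fun z => by show f z * g z = F (E s z) * G (E s z); rw [hF, hG]⟩

theorem IsC.one_add {s : ℕ} {f : Circ → ℝ} (hf : IsC s f) : IsC s fun z => 1 + f z := by
  obtain ⟨F, hF⟩ := hf
  exact ⟨fun e => 1 + F e, fun z => by show 1 + f z = 1 + F (E s z); rw [hF]⟩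

theorem isC_one (s : ℕ) : IsC s fun _ => 1 := ⟨fun _ => 1, fun _ => rfl⟩

theorem isC_prod {ι : Type} (s : ℕ) (T : Finset ι) (f : ι → Circ → ℝ)
    (h : ∀ j ∈ T, IsC s (f j)) : IsC s fun z => ∏ j ∈ T, f j z := by
  classical
  induction T using Finset.induction_on with
  | empty => simpa using isC_one s
  | insert a T ha ih =>
    simp only [Finset.prod_insert ha]
    exact (h a (Finset.mem_insert_self a T)).mul
      (ih fun j hj => h j (Finset.mem_insert_of_mem hj))

theorem σ1_eq (s : ℕ) (z : Circ) : σ1 s z = if E (s + 1) z % 2 = 0 then 1 else -1 := by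
  have h := Ha_sgm (s + 1) s le_rfl z
  unfold σ1
  rw [h]
  unfold LPTM.sgm
  simp

theorem isC_σ1 (s : ℕ) : IsC (s + 1) (σ1 s) := ⟨fun e => if e % 2 = 0 then 1 else -1, σ1_eq s⟩

theorem σ1_sq (s : ℕ) (z : Circ) : σ1 s z * σ1 s z = 1 := by
  rw [σ1_eq]
  split_ifs <;> norm_num

theorem abs_σ1 (s : ℕ) (z : Circ) : |σ1 s z| = 1 := by
  rw [σ1_eq]
  split_ifs <;> norm_num

theorem IsC.measurable {s : ℕ} {f : Circ → ℝ} (hf : IsC s f) : Measurable f := by
  obtain ⟨F, hF⟩ := hf
  have : f = F ∘ E s := funext hF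
  rw [this]
  exact (measurable_from_nat).comp (measurable_E s)

theorem IsC.bdd {s : ℕ} {f : Circ → ℝ} (hf : IsC s f) : ∃ M, ∀ z, |f z| ≤ M := by
  obtain ⟨F, hF⟩ := hf
  refine ⟨∑ κ ∈ range (2 ^ s), |F κ|, fun z => ?_⟩
  rw [hF]
  exact Finset.single_le_sum (f := fun κ => |F κ|) (fun _ _ => abs_nonneg _)
    (Finset.mem_range.2 (E_lt s z))

theorem IsC.integrable {s : ℕ} {f : Circ → ℝ} (hf : IsC s f) : Integrable f ν := by
  obtain ⟨M, hM⟩ := hf.bdd
  refine Integrable.of_bound (C := M) hf.measurable.aestronglyMeasurable ?_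
  filter_upwards with z
  exact hM z

theorem eq_sum_chi {s : ℕ} (F : ℕ → ℝ) (z : Circ) :
    F (E s z) = ∑ κ ∈ range (2 ^ s), F κ * chi s κ z := by
  rw [Finset.sum_eq_single (E s z)]
  · rw [chi, if_pos rfl, mul_one]
  · intro κ _ hκ
    rw [chi, if_neg hκ.symm, mul_zero]
  · intro h
    exact absurd (Finset.mem_range.2 (E_lt s z)) h

theorem integrable_chi (s κ : ℕ) : Integrable (chi s κ) ν :=
  IsC.integrable ⟨fun e => if e = κ then 1 else 0, fun _ => rfl⟩

theorem circ_sum (s : ℕ) (F : ℕ → ℝ) :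
    ∫ z, F (E s z) ∂ν = (∑ κ ∈ range (2 ^ s), F κ) / 2 ^ s := by
  simp only [eq_sum_chi F]
  rw [integral_finsetSum, Finset.sum_div]
  · refine Finset.sum_congr rfl fun κ hκ => ?_
    rw [integral_const_mul, integral_chi s κ (Finset.mem_range.1 hκ), mul_one_div]
  · exact fun κ _ => (integrable_chi s κ).const_mul _

theorem Ha_eq (s κ : ℕ) (z : Circ) :
    Ha s κ z = chi (s + 1) (2 * κ) z - chi (s + 1) (2 * κ + 1) z := by
  unfold Ha chi
  by_cases h1 : E (s + 1) z = 2 * κ
  · have h2 : ¬ E (s + 1) z = 2 * κ + 1 := by omega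
    rw [if_pos h1, if_pos h1, if_neg h2, sub_zero]
  · rw [if_neg h1, if_neg h1]
    split_ifs <;> norm_num

theorem integral_Ha (s κ : ℕ) (hκ : κ < 2 ^ s) : ∫ z, Ha s κ z ∂ν = 0 := by
  simp only [Ha_eq]
  have hp : 2 ^ (s + 1) = 2 * 2 ^ s := by ring
  rw [integral_sub (integrable_chi _ _) (integrable_chi _ _), integral_chi _ _ (by omega),
    integral_chi _ _ (by omega), sub_self]

/-- Martingale differences have mean zero. -/
theorem integral_IsC_σ1 {s : ℕ} {f : Circ → ℝ} (hf : IsC s f) : ∫ z, f z * σ1 s z ∂ν = 0 := by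
  obtain ⟨F, hF⟩ := hf
  have h1 : ∀ z, f z * σ1 s z = ∑ κ ∈ range (2 ^ s), F κ * Ha s κ z := by
    intro z
    rw [Finset.sum_eq_single (E s z)]
    · rw [hF]
      rfl
    · intro κ _ hκ
      have h2 : Ha s κ z = 0 := by
        rw [← abs_eq_zero, abs_Ha, chi, if_neg hκ.symm]
      rw [h2, mul_zero]
    · intro h
      exact absurd (Finset.mem_range.2 (E_lt s z)) h
  simp only [h1]
  rw [integral_finsetSum]
  · refine Finset.sum_eq_zero fun κ hκ => ?_
    rw [integral_const_mul, integral_Ha s κ (Finset.mem_range.1 hκ), mul_zero]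
  · intro κ _
    simp only [Ha_eq]
    exact ((integrable_chi _ _).sub (integrable_chi _ _)).const_mul _

/-- Riesz products have mean one on the coarser cells. -/
theorem riesz_mean {ι : Type} (T : Finset ι) (s : ι → ℕ) (hinj : Set.InjOn s T) (a : ℕ)
    (ha : ∀ j ∈ T, a ≤ s j) (θ : ι → ℕ → ℝ) (c : ℕ) (hc : c < 2 ^ a) :
    ∫ z, chi a c z * ∏ j ∈ T, (1 + θ j (E (s j) z) * σ1 (s j) z) ∂ν = 1 / 2 ^ a := by
  classical
  induction T using Finset.induction_on_max_value s with
  | empty =>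
    simp only [Finset.prod_empty, mul_one]
    exact integral_chi a c hc
  | insert i T hiT hmax ih =>
    have hlt : ∀ j ∈ T, s j < s i := by
      intro j hj
      refine lt_of_le_of_ne (hmax j hj) fun heq => hiT ?_
      have := hinj (Finset.mem_coe.2 (Finset.mem_insert_of_mem hj))
        (Finset.mem_coe.2 (Finset.mem_insert_self i T)) heq
      rwa [← this]
    have hchi : IsC a (chi a c) := ⟨fun e => if e = c then 1 else 0, fun _ => rfl⟩
    have hfac : ∀ j, IsC (s j + 1) fun z => 1 + θ j (E (s j) z) * σ1 (s j) z := by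
      intro j
      have h1 : IsC (s j) fun z => θ j (E (s j) z) := ⟨θ j, fun _ => rfl⟩
      exact ((h1.mono (Nat.le_succ _)).mul (isC_σ1 (s j))).one_add
    have hP : IsC (s i) fun z => ∏ j ∈ T, (1 + θ j (E (s j) z) * σ1 (s j) z) :=
      isC_prod (s i) T _ fun j hj => (hfac j).mono (hlt j hj)
    have hai : a ≤ s i := ha i (Finset.mem_insert_self i T)
    have h2 : ∀ z, chi a c z * ∏ j ∈ insert i T, (1 + θ j (E (s j) z) * σ1 (s j) z) =
        chi a c z * ∏ j ∈ T, (1 + θ j (E (s j) z) * σ1 (s j) z) +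
          (chi a c z * (∏ j ∈ T, (1 + θ j (E (s j) z) * σ1 (s j) z)) * θ i (E (s i) z)) *
            σ1 (s i) z := by
      intro z
      rw [Finset.prod_insert hiT]
      ring
    simp only [h2]
    have hC1 : IsC (s i) fun z => chi a c z * ∏ j ∈ T, (1 + θ j (E (s j) z) * σ1 (s j) z) :=
      (hchi.mono hai).mul hP
    have hC2 : IsC (s i) fun z => chi a c z * (∏ j ∈ T, (1 + θ j (E (s j) z) * σ1 (s j) z)) *
        θ i (E (s i) z) := hC1.mul ⟨θ i, fun _ => rfl⟩
    rw [integral_add hC1.integrable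
      ((hC2.mono (Nat.le_succ _)).mul (isC_σ1 (s i))).integrable, integral_IsC_σ1 hC2, add_zero]
    exact ih (hinj.mono (Finset.coe_subset.2 (Finset.subset_insert i T)))
      fun j hj => ha j (Finset.mem_insert_of_mem hj)

theorem exists_rep (b c : ℕ) (hc : c < 2 ^ b) : ∃ z : Circ, E b z = c := by
  by_contra hcon
  push Not at hcon
  have h1 := integral_chi b c hc
  have h2 : ∀ z, chi b c z = 0 := fun z => by rw [chi, if_neg (hcon z)]
  simp only [h2, integral_zero] at h1
  have h3 : (0 : ℝ) < 1 / 2 ^ b := by positivity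
  linarith

/-- A positive density with mean one on fine cells hardly changes the integral of a function with
small oscillation. -/
theorem osc_estimate {a b κ : ℕ} (hab : a ≤ b) (hκ : κ < 2 ^ a) (f B : Circ → ℝ) (ω : ℝ)
    (hfi : Integrable f ν)
    (hosc : ∀ z z', E b z = E b z' → |f z - f z'| ≤ ω) (hsupp : ∀ z, f z ≠ 0 → E a z = κ)
    {t : ℕ} (hB : IsC t B) (hB0 : ∀ z, 0 ≤ B z)
    (hBm : ∀ a' c, a' ≤ b → c < 2 ^ a' → ∫ z, chi a' c z * B z ∂ν = 1 / 2 ^ a') :
    |∫ z, f z * B z ∂ν - ∫ z, f z ∂ν| ≤ 2 * ω / 2 ^ a := by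
  choose! rep hrep using fun c => exists_rep b c
  let F : ℕ → ℝ := fun c => f (rep c)
  have hF : IsC b fun z => F (E b z) := ⟨F, fun _ => rfl⟩
  have hdiff : ∀ z, |f z - F (E b z)| ≤ ω * chi a κ z := by
    intro z
    have h1 : E b (rep (E b z)) = E b z := hrep _ (E_lt b z)
    by_cases h2 : E a z = κ
    · rw [chi, if_pos h2, mul_one]
      exact hosc _ _ h1.symm
    · have h3 : f z = 0 := by
        by_contra h
        exact h2 (hsupp z h)
      have h4 : F (E b z) = 0 := by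
        by_contra h
        have h5 := hsupp _ h
        rw [E_eq_of_le hab h1] at h5
        exact h2 h5
      rw [h3, h4, sub_zero, abs_zero, chi, if_neg h2, mul_zero]
  have hBi := hB.integrable
  obtain ⟨MB, hMB⟩ := hB.bdd
  have hfBi : Integrable (fun z => f z * B z) ν := by
    refine hfi.mul_bdd (c := MB) hB.measurable.aestronglyMeasurable ?_
    filter_upwards with z
    exact hMB z
  have hFB : IsC (max b t) fun z => F (E b z) * B z :=
    (hF.mono (le_max_left _ _)).mul (hB.mono (le_max_right _ _))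
  have hFBi := hFB.integrable
  -- the cell function
  have h1 : ∫ z, F (E b z) * B z ∂ν = ∫ z, F (E b z) ∂ν := by
    have h2 : ∀ z, F (E b z) * B z = ∑ c ∈ range (2 ^ b), F c * (chi b c z * B z) := by
      intro z
      rw [eq_sum_chi F z, Finset.sum_mul]
      exact Finset.sum_congr rfl fun c _ => by ring
    simp only [h2]
    rw [integral_finsetSum, circ_sum, Finset.sum_div]
    · refine Finset.sum_congr rfl fun c hc => ?_
      rw [integral_const_mul, hBm b c le_rfl (Finset.mem_range.1 hc), mul_one_div]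
    · intro c _
      refine Integrable.const_mul ?_ _
      have hc : IsC b (chi b c) := ⟨fun e => if e = c then 1 else 0, fun _ => rfl⟩
      exact ((hc.mono (le_max_left b t)).mul (hB.mono (le_max_right b t))).integrable
  have h3 : |∫ z, f z * B z ∂ν - ∫ z, F (E b z) * B z ∂ν| ≤ ω / 2 ^ a := by
    rw [← integral_sub hfBi hFBi]
    refine abs_integral_le_integral_abs.trans ?_
    have h4 : ∫ z, ω * (chi a κ z * B z) ∂ν = ω / 2 ^ a := by
      rw [integral_const_mul, hBm a κ hab hκ, mul_one_div]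
    rw [← h4]
    refine integral_mono (hfBi.sub hFBi).abs ?_ fun z => ?_
    · have hc : IsC a (chi a κ) := ⟨fun e => if e = κ then 1 else 0, fun _ => rfl⟩
      exact (((hc.mono (le_max_left a t)).mul (hB.mono (le_max_right a t))).integrable).const_mul _
    · show |f z * B z - F (E b z) * B z| ≤ ω * (chi a κ z * B z)
      rw [← sub_mul, abs_mul, abs_of_nonneg (hB0 z), ← mul_assoc]
      exact mul_le_mul_of_nonneg_right (hdiff z) (hB0 z)
  have h5 : |∫ z, F (E b z) ∂ν - ∫ z, f z ∂ν| ≤ ω / 2 ^ a := by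
    rw [← integral_sub hF.integrable hfi]
    refine abs_integral_le_integral_abs.trans ?_
    have h4 : ∫ z, ω * chi a κ z ∂ν = ω / 2 ^ a := by
      rw [integral_const_mul, integral_chi a κ hκ, mul_one_div]
    rw [← h4]
    refine integral_mono (hF.integrable.sub hfi).abs ((integrable_chi a κ).const_mul _) fun z => ?_
    show |F (E b z) - f z| ≤ ω * chi a κ z
    rw [abs_sub_comm]
    exact hdiff z
  calc |∫ z, f z * B z ∂ν - ∫ z, f z ∂ν|
      = |(∫ z, f z * B z ∂ν - ∫ z, F (E b z) * B z ∂ν) +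
          (∫ z, F (E b z) ∂ν - ∫ z, f z ∂ν)| := by rw [h1]; congr 1; ring
    _ ≤ ω / 2 ^ a + ω / 2 ^ a := (abs_add_le _ _).trans (add_le_add h3 h5)
    _ = 2 * ω / 2 ^ a := by ring

/-- Oscillation of the bumps. -/
theorem exists_osc : ∃ M : ℝ, 0 ≤ M ∧ ∀ (A a κ : ℕ) (z z' : Circ), E (a + A) z = E (a + A) z' →
    |Ps a κ z - Ps a κ z'| ≤ M / 2 ^ A := by
  obtain ⟨M, hM0, hM⟩ := exists_bound_diff 1
  refine ⟨M, hM0, ?_⟩
  intro A a κ z z' h
  have h1 := (E_eq_iff (a + A) (E (a + A) z) z).1 rfl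
  have h2 := (E_eq_iff (a + A) (E (a + A) z) z').1 h.symm
  rw [pow_add] at h1 h2
  have hA : (0 : ℝ) < 2 ^ A := by positivity
  have h3 := hM ((2 : ℝ) ^ a * uc z - (2 : ℝ) ^ a * uc z') ((2 : ℝ) ^ a * uc z' - κ)
  rw [Function.iterate_one, fwdDiff] at h3
  have h4 : (2 : ℝ) ^ a * uc z' - κ + ((2 : ℝ) ^ a * uc z - (2 : ℝ) ^ a * uc z') =
      (2 : ℝ) ^ a * uc z - κ := by ring
  rw [h4, pow_one] at h3
  rw [Ps_apply, Ps_apply]
  refine h3.trans ?_
  rw [div_eq_mul_inv]
  refine mul_le_mul_of_nonneg_left ?_ hM0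
  rw [inv_eq_one_div, le_div_iff₀ hA, ← abs_of_pos hA, ← abs_mul, abs_le]
  constructor <;> nlinarith [h1.1, h1.2, h2.1, h2.2]

theorem integrable_Ps (a κ : ℕ) : Integrable (Ps a κ : Circ → ℝ) ν := by
  refine Integrable.of_bound (C := 1) (Ps a κ).continuous.aestronglyMeasurable ?_
  filter_upwards with z
  exact abs_Ps_le_one a κ z

theorem integral_Ps (a κ : ℕ) (hκ : κ < 2 ^ a) : ∫ z, Ps a κ z ∂ν = 0 := by
  simp only [Ps_apply]
  rw [integral_box mo mo_supp _ _ hκ, integral_mo, mul_zero]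

end

end Pool.Agent.MP_bc5265.E1
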